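import Pool.Agent.Y567.MC.Pair

/-!
The first-order axioms, their transfer to all models of the theory of a structure.
-/

set_option autoImplicit false

namespace Pool.Agent.Y567.MC

open Set FirstOrder FirstOrder.Language

section preds

variable {M : Type} (S : Lg.Structure M)

abbrev pU (n : ℕ) (x : M) : Prop := rm S (Rl.U n) ![x]
abbrev pP (k n : ℕ) (x : M) : Prop := rm S (Rl.P k n) ![x]
abbrev pL (x y : M) : Prop := rm S Rl.Lt ![x, y]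
abbrev pE (k : ℕ) (x y : M) : Prop := rm S (Rl.E k) ![x, y]
abbrev pG (k : ℕ) (x y : M) : Prop := rm S (Rl.G k) ![x, y]
abbrev pD (k : ℕ) (x y z : M) : Prop := rm S (Rl.D k) ![x, y, z]

/-- `pG` with shifted level -/
def hG : ℕ → M → M → Prop
  | 0, _, _ => False
  | k + 1, x, y => pG S k x y

/-- `pD` with shifted level -/
def hD : ℕ → M → M → M → Prop
  | 0, _, _, _ => False
  | k + 1, x, y, z => pD S k x y z

/-- The extension axiom. -/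
def XAx (k m : ℕ) : Prop :=
  ∀ a w q y : M, ∀ l : List M, l.length = m →
    (pP S (k + 1) 0 a ∧ pP S k 0 w ∧ pU S 1 q ∧ pU S 0 y ∧ ¬ pU S 1 y ∧
      (∀ y', hG S k w y' → pL S y' y) ∧
      (∀ v, pE S k a v → (w = v ∨ ∃ x, hD S k w v x ∧ ¬ pL S x q)) ∧
      (∀ b ∈ l, b = a ∨ ∃ x, pD S k b a x ∧ ¬ pL S x q)) →
    ∃ z, pE S k z w ∧ pG S k z y ∧ pD S k a z q ∧ ∀ b ∈ l, pD S k b z q

/-- The axioms. -/
structure Mdl : Prop where
  a1 : ∀ x y, pL S x y → pU S 0 x ∧ pU S 0 y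
  a2 : ∀ x, ¬ pL S x x
  a3 : ∀ x y z, pL S x y → pL S y z → pL S x z
  a4 : ∀ x y, pU S 0 x → pU S 0 y → pL S x y ∨ x = y ∨ pL S y x
  a5 : ∀ n x, pU S (n + 1) x → pU S n x
  a6 : ∀ n x y, pU S n x → pL S x y → pU S n y
  a7 : ∀ x y, pL S x y → ∃ z, pL S x z ∧ pL S z y
  a8 : ∀ n x, pU S n x → ∃ y, pU S n y ∧ pL S y x
  a9 : ∀ n x, pU S 0 x → ¬ pU S (n + 1) x → ∃ y, pL S x y ∧ ¬ pU S (n + 1) y
  a10 : ∀ x, pU S 0 x → ∃ y, pL S x y
  a11 : ∀ n, ∃ x, pU S n x ∧ ¬ pU S (n + 1) x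
  b1 : ∀ k n x, pP S k (n + 1) x → pP S k n x
  b2 : ∀ k x, pP S k 0 x → pP S k 1 x
  b3 : ∀ k x, pP S k 0 x → ¬ pU S 0 x
  b4 : ∀ k j, k ≠ j → ∀ x, pP S k 0 x → ¬ pP S j 0 x
  b5 : ∀ x y, pP S 0 0 x → pP S 0 0 y → x = y
  b6 : ∀ n x, pP S 0 0 x → pP S 0 n x
  b7 : ∀ k n, ∃ x, pP S k n x
  e1 : ∀ k z w, pE S k z w → pP S (k + 1) 0 z ∧ pP S k 0 w
  e2 : ∀ k z w w', pE S k z w → pE S k z w' → w = w'
  e3 : ∀ k z, pP S (k + 1) 0 z → ∃ w, pE S k z w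
  e4 : ∀ k n z w, pP S (k + 1) n z → pE S k z w → pP S k n w
  g1 : ∀ k z y, pG S k z y → pP S (k + 1) 0 z ∧ pU S 0 y ∧ ¬ pU S 1 y
  g2 : ∀ k z y y', pG S k z y → pG S k z y' → y = y'
  g3 : ∀ k z, pP S (k + 1) 0 z → ∃ y, pG S k z y
  g4 : ∀ k z w y y', pE S (k + 1) z w → pG S (k + 1) z y → pG S k w y' → pL S y' y
  d1 : ∀ k z w x, pD S k z w x → pP S (k + 1) 0 z ∧ pP S (k + 1) 0 w ∧ z ≠ w ∧ pU S 1 x
  d2 : ∀ k z w x x', pD S k z w x → pD S k z w x' → x = x'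
  d3 : ∀ k z w, pP S (k + 1) 0 z → pP S (k + 1) 0 w → z ≠ w → ∃ x, pD S k z w x
  d4 : ∀ k z w x, pD S k z w x → pD S k w z x
  d5 : ∀ k a b c x y z, pD S k a b x → pD S k b c y → pD S k a c z → ¬ (pL S z x ∧ pL S z y)
  d6 : ∀ k n z w x, pD S k z w x → pP S (k + 1) n z → (pP S (k + 1) n w ↔ pU S n x)
  d7 : ∀ k z z' x w w' y, pD S (k + 1) z z' x → pE S (k + 1) z w → pE S (k + 1) z' w' →
    pD S k w w' y → ¬ pL S y x
  x1 : ∀ k m, XAx S k m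

end preds

namespace FO

theorem U (n i : ℕ) : FO (fun _ S v => pU S n (v i)) := FO.rel1 _ _
theorem P (k n i : ℕ) : FO (fun _ S v => pP S k n (v i)) := FO.rel1 _ _
theorem L (i j : ℕ) : FO (fun _ S v => pL S (v i) (v j)) := FO.rel2 _ _ _
theorem E (k i j : ℕ) : FO (fun _ S v => pE S k (v i) (v j)) := FO.rel2 _ _ _
theorem G (k i j : ℕ) : FO (fun _ S v => pG S k (v i) (v j)) := FO.rel2 _ _ _
theorem D (k i j l : ℕ) : FO (fun _ S v => pD S k (v i) (v j) (v l)) := FO.rel3 _ _ _ _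

theorem hG : ∀ (k i j : ℕ), FO (fun _ S v => hG S k (v i) (v j))
  | 0, _, _ => FO.fls
  | k + 1, i, j => FO.G k i j

theorem hD : ∀ (k i j l : ℕ), FO (fun _ S v => hD S k (v i) (v j) (v l))
  | 0, _, _, _ => FO.fls
  | k + 1, i, j, l => FO.D k i j l

end FO

theorem foldr_lt {M : Type} (l : List M) (v : ℕ → M) (i : ℕ) (h : i < l.length) :
    l.foldr cn v i = l[i] := by
  induction l generalizing i with
  | nil => simp at h
  | cons x l ih =>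
    cases i with
    | zero => rfl
    | succ i => exact ih i (by simpa using h)

theorem foldr_ge {M : Type} (l : List M) (v : ℕ → M) (i : ℕ) :
    l.foldr cn v (l.length + i) = v i := by
  induction l with
  | nil => simp
  | cons x l ih =>
    have : (x :: l).length + i = (l.length + i) + 1 := by simp; omega
    rw [this]
    exact ih

theorem ball_iff {M : Type} (l : List M) (v : ℕ → M) (Q : M → Prop) :
    (∀ i < l.length, Q (l.foldr cn v i)) ↔ ∀ b ∈ l, Q b := by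
  constructor
  · intro h b hb
    obtain ⟨i, hi, rfl⟩ := List.mem_iff_getElem.1 hb
    rw [← foldr_lt l v i hi]
    exact h i hi
  · intro h i hi
    rw [foldr_lt l v i hi]
    exact h _ (List.getElem_mem hi)

theorem FO.xax (k m : ℕ) : FO (fun _ S _ => XAx S k m) := by
  have h : FO (fun M S u => (pP S (k + 1) 0 (u (m + 3)) ∧ pP S k 0 (u (m + 2)) ∧
      pU S 1 (u (m + 1)) ∧ pU S 0 (u (m + 0)) ∧ ¬ pU S 1 (u (m + 0)) ∧
      (∀ y', MC.hG S k (cn y' u (m + 2 + 1)) (cn y' u 0) → pL S (cn y' u 0) (cn y' u (m + 0 + 1))) ∧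
      (∀ v, pE S k (cn v u (m + 3 + 1)) (cn v u 0) → ((cn v u (m + 2 + 1)) = (cn v u 0) ∨
        ∃ x, MC.hD S k (cn x (cn v u) (m + 2 + 1 + 1)) (cn x (cn v u) 1) (cn x (cn v u) 0) ∧
          ¬ pL S (cn x (cn v u) 0) (cn x (cn v u) (m + 1 + 1 + 1)))) ∧
      (∀ i < m, u i = u (m + 3) ∨ ∃ x, pD S k (cn x u (i + 1)) (cn x u (m + 3 + 1)) (cn x u 0) ∧
        ¬ pL S (cn x u 0) (cn x u (m + 1 + 1)))) →
    ∃ z, pE S k (cn z u 0) (cn z u (m + 2 + 1)) ∧ pG S k (cn z u 0) (cn z u (m + 0 + 1)) ∧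
      pD S k (cn z u (m + 3 + 1)) (cn z u 0) (cn z u (m + 1 + 1)) ∧
      ∀ i < m, pD S k (cn z u (i + 1)) (cn z u 0) (cn z u (m + 1 + 1))) := by
    refine FO.imp (FO.and (FO.P _ _ _) (FO.and (FO.P _ _ _) (FO.and (FO.U _ _) (FO.and (FO.U _ _)
      (FO.and (FO.U _ _).not (FO.and ?_ (FO.and ?_ ?_))))))) ?_
    · exact FO.all ((FO.hG k (m + 2 + 1) 0).imp (FO.L 0 (m + 0 + 1)))
    · exact FO.all ((FO.E k (m + 3 + 1) 0).imp ((FO.eq (m + 2 + 1) 0).or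
        (FO.ex ((FO.hD k (m + 2 + 1 + 1) 1 0).and (FO.L 0 (m + 1 + 1 + 1)).not))))
    · exact FO.ball (fun i => (FO.eq i (m + 3)).or
        (FO.ex ((FO.D k (i + 1) (m + 3 + 1) 0).and (FO.L 0 (m + 1 + 1)).not))) m
    · exact FO.ex ((FO.E k 0 (m + 2 + 1)).and ((FO.G k 0 (m + 0 + 1)).and
        ((FO.D k (m + 3 + 1) 0 (m + 1 + 1)).and
          (FO.ball (fun i => FO.D k (i + 1) 0 (m + 1 + 1)) m))))
  refine (FO.all (FO.all (FO.all (FO.all (h.blk m))))).congr ?_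
  intro M S v
  unfold XAx
  refine forall_congr' fun a => forall_congr' fun w => forall_congr' fun q => forall_congr' fun y =>
    forall_congr' fun l => forall_congr' fun hl => ?_
  subst hl
  have e0 := foldr_ge l (cn y (cn q (cn w (cn a v)))) 0
  have e1 := foldr_ge l (cn y (cn q (cn w (cn a v)))) 1
  have e2 := foldr_ge l (cn y (cn q (cn w (cn a v)))) 2
  have e3 := foldr_ge l (cn y (cn q (cn w (cn a v)))) 3
  change _ = y at e0
  change _ = q at e1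
  change _ = w at e2
  change _ = a at e3
  simp only [cn]
  rw [e0, e1, e2, e3, ball_iff l (cn y (cn q (cn w (cn a v))))
    (fun b => b = a ∨ ∃ x, pD S k b a x ∧ ¬ pL S x q)]
  have hz : ∀ z, (∀ i < l.length, pD S k (l.foldr cn (cn y (cn q (cn w (cn a v)))) i) z q) ↔
      ∀ b ∈ l, pD S k b z q := fun z =>
    ball_iff l (cn y (cn q (cn w (cn a v)))) (fun b => pD S k b z q)
  have e0' : l.foldr cn (cn y (cn q (cn w (cn a v)))) l.length = y := e0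
  simp only [hz, e0']

/-- Transfer of closed first-order properties. -/
theorem FO.tr0 {P : ∀ M : Type, Lg.Structure M → Prop} (hP : FO (fun M S _ => P M S)) {M₀ : Type}
    (S₀ : Lg.Structure M₀) [Nonempty M₀] {M : Type} [Nonempty M] (S : Lg.Structure M)
    (h : @Theory.Model Lg M S (@completeTheory Lg M₀ S₀)) (h0 : P M₀ S₀) : P M S :=
  FO.transfer hP S₀ S h (fun _ => h0) (Classical.arbitrary M)

theorem Mdl.transfer {M₀ : Type} {S₀ : Lg.Structure M₀} [Nonempty M₀] {M : Type} [Nonempty M]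
    {S : Lg.Structure M} (h : @Theory.Model Lg M S (@completeTheory Lg M₀ S₀)) (m : Mdl S₀) :
    Mdl S := by
  have a1 : FO (fun M S _ => ∀ x y : M, pL S x y → pU S 0 x ∧ pU S 0 y) :=
    ((FO.L 1 0).imp ((FO.U 0 1).and (FO.U 0 0))).all.all
  have a2 : FO (fun M S _ => ∀ x : M, ¬ pL S x x) := (FO.L 0 0).not.all
  have a3 : FO (fun M S _ => ∀ x y z : M, pL S x y → pL S y z → pL S x z) :=
    ((FO.L 2 1).imp ((FO.L 1 0).imp (FO.L 2 0))).all.all.all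
  have a4 : FO (fun M S _ => ∀ x y : M, pU S 0 x → pU S 0 y → pL S x y ∨ x = y ∨ pL S y x) :=
    ((FO.U 0 1).imp ((FO.U 0 0).imp ((FO.L 1 0).or ((FO.eq 1 0).or (FO.L 0 1))))).all.all
  have a5 : ∀ n, FO (fun M S _ => ∀ x : M, pU S (n + 1) x → pU S n x) := fun n =>
    ((FO.U (n + 1) 0).imp (FO.U n 0)).all
  have a6 : ∀ n, FO (fun M S _ => ∀ x y : M, pU S n x → pL S x y → pU S n y) := fun n =>
    ((FO.U n 1).imp ((FO.L 1 0).imp (FO.U n 0))).all.all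
  have a7 : FO (fun M S _ => ∀ x y : M, pL S x y → ∃ z, pL S x z ∧ pL S z y) :=
    ((FO.L 1 0).imp ((FO.L 2 0).and (FO.L 0 1)).ex).all.all
  have a8 : ∀ n, FO (fun M S _ => ∀ x : M, pU S n x → ∃ y, pU S n y ∧ pL S y x) := fun n =>
    ((FO.U n 0).imp ((FO.U n 0).and (FO.L 0 1)).ex).all
  have a9 : ∀ n, FO (fun M S _ => ∀ x : M, pU S 0 x → ¬ pU S (n + 1) x →
      ∃ y, pL S x y ∧ ¬ pU S (n + 1) y) := fun n =>
    ((FO.U 0 0).imp ((FO.U (n + 1) 0).not.imp ((FO.L 1 0).and (FO.U (n + 1) 0).not).ex)).all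
  have a10 : FO (fun M S _ => ∀ x : M, pU S 0 x → ∃ y, pL S x y) :=
    ((FO.U 0 0).imp (FO.L 1 0).ex).all
  have a11 : ∀ n, FO (fun M S _ => ∃ x : M, pU S n x ∧ ¬ pU S (n + 1) x) := fun n =>
    ((FO.U n 0).and (FO.U (n + 1) 0).not).ex
  have b1 : ∀ k n, FO (fun M S _ => ∀ x : M, pP S k (n + 1) x → pP S k n x) := fun k n =>
    ((FO.P k (n + 1) 0).imp (FO.P k n 0)).all
  have b2 : ∀ k, FO (fun M S _ => ∀ x : M, pP S k 0 x → pP S k 1 x) := fun k =>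
    ((FO.P k 0 0).imp (FO.P k 1 0)).all
  have b3 : ∀ k, FO (fun M S _ => ∀ x : M, pP S k 0 x → ¬ pU S 0 x) := fun k =>
    ((FO.P k 0 0).imp (FO.U 0 0).not).all
  have b4 : ∀ k j, FO (fun M S _ => ∀ x : M, pP S k 0 x → ¬ pP S j 0 x) := fun k j =>
    ((FO.P k 0 0).imp (FO.P j 0 0).not).all
  have b5 : FO (fun M S _ => ∀ x y : M, pP S 0 0 x → pP S 0 0 y → x = y) :=
    ((FO.P 0 0 1).imp ((FO.P 0 0 0).imp (FO.eq 1 0))).all.all
  have b6 : ∀ n, FO (fun M S _ => ∀ x : M, pP S 0 0 x → pP S 0 n x) := fun n =>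
    ((FO.P 0 0 0).imp (FO.P 0 n 0)).all
  have b7 : ∀ k n, FO (fun M S _ => ∃ x : M, pP S k n x) := fun k n => (FO.P k n 0).ex
  have e1 : ∀ k, FO (fun M S _ => ∀ z w : M, pE S k z w → pP S (k + 1) 0 z ∧ pP S k 0 w) :=
    fun k => ((FO.E k 1 0).imp ((FO.P (k + 1) 0 1).and (FO.P k 0 0))).all.all
  have e2 : ∀ k, FO (fun M S _ => ∀ z w w' : M, pE S k z w → pE S k z w' → w = w') :=
    fun k => ((FO.E k 2 1).imp ((FO.E k 2 0).imp (FO.eq 1 0))).all.all.all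
  have e3 : ∀ k, FO (fun M S _ => ∀ z : M, pP S (k + 1) 0 z → ∃ w, pE S k z w) :=
    fun k => ((FO.P (k + 1) 0 0).imp (FO.E k 1 0).ex).all
  have e4 : ∀ k n, FO (fun M S _ => ∀ z w : M, pP S (k + 1) n z → pE S k z w → pP S k n w) :=
    fun k n => ((FO.P (k + 1) n 1).imp ((FO.E k 1 0).imp (FO.P k n 0))).all.all
  have g1 : ∀ k, FO (fun M S _ => ∀ z y : M, pG S k z y →
      pP S (k + 1) 0 z ∧ pU S 0 y ∧ ¬ pU S 1 y) :=
    fun k => ((FO.G k 1 0).imp ((FO.P (k + 1) 0 1).and ((FO.U 0 0).and (FO.U 1 0).not))).all.all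
  have g2 : ∀ k, FO (fun M S _ => ∀ z y y' : M, pG S k z y → pG S k z y' → y = y') :=
    fun k => ((FO.G k 2 1).imp ((FO.G k 2 0).imp (FO.eq 1 0))).all.all.all
  have g3 : ∀ k, FO (fun M S _ => ∀ z : M, pP S (k + 1) 0 z → ∃ y, pG S k z y) :=
    fun k => ((FO.P (k + 1) 0 0).imp (FO.G k 1 0).ex).all
  have g4 : ∀ k, FO (fun M S _ => ∀ z w y y' : M, pE S (k + 1) z w → pG S (k + 1) z y →
      pG S k w y' → pL S y' y) :=
    fun k => ((FO.E (k + 1) 3 2).imp ((FO.G (k + 1) 3 1).imp ((FO.G k 2 0).imp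
      (FO.L 0 1)))).all.all.all.all
  have d1 : ∀ k, FO (fun M S _ => ∀ z w x : M, pD S k z w x →
      pP S (k + 1) 0 z ∧ pP S (k + 1) 0 w ∧ z ≠ w ∧ pU S 1 x) :=
    fun k => ((FO.D k 2 1 0).imp ((FO.P (k + 1) 0 2).and ((FO.P (k + 1) 0 1).and
      ((FO.eq 2 1).not.and (FO.U 1 0))))).all.all.all
  have d2 : ∀ k, FO (fun M S _ => ∀ z w x x' : M, pD S k z w x → pD S k z w x' → x = x') :=
    fun k => ((FO.D k 3 2 1).imp ((FO.D k 3 2 0).imp (FO.eq 1 0))).all.all.all.all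
  have d3 : ∀ k, FO (fun M S _ => ∀ z w : M, pP S (k + 1) 0 z → pP S (k + 1) 0 w → z ≠ w →
      ∃ x, pD S k z w x) :=
    fun k => ((FO.P (k + 1) 0 1).imp ((FO.P (k + 1) 0 0).imp
      ((FO.eq 1 0).not.imp (FO.D k 2 1 0).ex))).all.all
  have d4 : ∀ k, FO (fun M S _ => ∀ z w x : M, pD S k z w x → pD S k w z x) :=
    fun k => ((FO.D k 2 1 0).imp (FO.D k 1 2 0)).all.all.all
  have d5 : ∀ k, FO (fun M S _ => ∀ a b c x y z : M, pD S k a b x → pD S k b c y →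
      pD S k a c z → ¬ (pL S z x ∧ pL S z y)) :=
    fun k => ((FO.D k 5 4 2).imp ((FO.D k 4 3 1).imp ((FO.D k 5 3 0).imp
      ((FO.L 0 2).and (FO.L 0 1)).not))).all.all.all.all.all.all
  have d6 : ∀ k n, FO (fun M S _ => ∀ z w x : M, pD S k z w x → pP S (k + 1) n z →
      (pP S (k + 1) n w ↔ pU S n x)) :=
    fun k n => ((FO.D k 2 1 0).imp ((FO.P (k + 1) n 2).imp
      ((FO.P (k + 1) n 1).iff (FO.U n 0)))).all.all.all
  have d7 : ∀ k, FO (fun M S _ => ∀ z z' x w w' y : M, pD S (k + 1) z z' x →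
      pE S (k + 1) z w → pE S (k + 1) z' w' → pD S k w w' y → ¬ pL S y x) :=
    fun k => ((FO.D (k + 1) 5 4 3).imp ((FO.E (k + 1) 5 2).imp ((FO.E (k + 1) 4 1).imp
      ((FO.D k 2 1 0).imp (FO.L 0 3).not)))).all.all.all.all.all.all
  exact
    { a1 := FO.tr0 a1 S₀ S h m.a1
      a2 := FO.tr0 a2 S₀ S h m.a2
      a3 := FO.tr0 a3 S₀ S h m.a3
      a4 := FO.tr0 a4 S₀ S h m.a4
      a5 := fun n => FO.tr0 (a5 n) S₀ S h (m.a5 n)
      a6 := fun n => FO.tr0 (a6 n) S₀ S h (m.a6 n)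
      a7 := FO.tr0 a7 S₀ S h m.a7
      a8 := fun n => FO.tr0 (a8 n) S₀ S h (m.a8 n)
      a9 := fun n => FO.tr0 (a9 n) S₀ S h (m.a9 n)
      a10 := FO.tr0 a10 S₀ S h m.a10
      a11 := fun n => FO.tr0 (a11 n) S₀ S h (m.a11 n)
      b1 := fun k n => FO.tr0 (b1 k n) S₀ S h (m.b1 k n)
      b2 := fun k => FO.tr0 (b2 k) S₀ S h (m.b2 k)
      b3 := fun k => FO.tr0 (b3 k) S₀ S h (m.b3 k)
      b4 := fun k j hkj => FO.tr0 (b4 k j) S₀ S h (m.b4 k j hkj)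
      b5 := FO.tr0 b5 S₀ S h m.b5
      b6 := fun n => FO.tr0 (b6 n) S₀ S h (m.b6 n)
      b7 := fun k n => FO.tr0 (b7 k n) S₀ S h (m.b7 k n)
      e1 := fun k => FO.tr0 (e1 k) S₀ S h (m.e1 k)
      e2 := fun k => FO.tr0 (e2 k) S₀ S h (m.e2 k)
      e3 := fun k => FO.tr0 (e3 k) S₀ S h (m.e3 k)
      e4 := fun k n => FO.tr0 (e4 k n) S₀ S h (m.e4 k n)
      g1 := fun k => FO.tr0 (g1 k) S₀ S h (m.g1 k)
      g2 := fun k => FO.tr0 (g2 k) S₀ S h (m.g2 k)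
      g3 := fun k => FO.tr0 (g3 k) S₀ S h (m.g3 k)
      g4 := fun k => FO.tr0 (g4 k) S₀ S h (m.g4 k)
      d1 := fun k => FO.tr0 (d1 k) S₀ S h (m.d1 k)
      d2 := fun k => FO.tr0 (d2 k) S₀ S h (m.d2 k)
      d3 := fun k => FO.tr0 (d3 k) S₀ S h (m.d3 k)
      d4 := fun k => FO.tr0 (d4 k) S₀ S h (m.d4 k)
      d5 := fun k => FO.tr0 (d5 k) S₀ S h (m.d5 k)
      d6 := fun k n => FO.tr0 (d6 k n) S₀ S h (m.d6 k n)
      d7 := fun k => FO.tr0 (d7 k) S₀ S h (m.d7 k)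
      x1 := fun k n => FO.tr0 (FO.xax k n) S₀ S h (m.x1 k n) }

end Pool.Agent.Y567.MC
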