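import Pool.Agent.Y567.MC.Ax

/-!
The axioms hold in the standard structures.
-/

set_option autoImplicit false

namespace Pool.Agent.Y567.MC

open Set FirstOrder FirstOrder.Language

variable {H Z : Type} [LinearOrder H] (S : Sys H Z) {W : Type}

theorem pU_str {n : ℕ} {a : H ⊕ Z ⊕ W} :
    pU (str S W) n a ↔ ∃ x, a = .inl x ∧ (n : ℕ∞) ≤ S.c x := Iff.rfl

theorem pP_str {k n : ℕ} {a : H ⊕ Z ⊕ W} :
    pP (str S W) k n a ↔ ∃ z, a = .inr (.inl z) ∧ S.lev z = k ∧ (n : ℕ∞) ≤ S.cz z := Iff.rfl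

theorem pL_str {a b : H ⊕ Z ⊕ W} :
    pL (str S W) a b ↔ ∃ x y, a = .inl x ∧ b = .inl y ∧ x < y := Iff.rfl

theorem pE_str {k : ℕ} {a b : H ⊕ Z ⊕ W} : pE (str S W) k a b ↔
    ∃ z w, a = .inr (.inl z) ∧ b = .inr (.inl w) ∧ S.lev z = k + 1 ∧ S.e z = w := Iff.rfl

theorem pG_str {k : ℕ} {a b : H ⊕ Z ⊕ W} : pG (str S W) k a b ↔
    ∃ z y, a = .inr (.inl z) ∧ b = .inl y ∧ S.lev z = k + 1 ∧ S.h z = y := Iff.rfl

theorem pD_str {k : ℕ} {a b c : H ⊕ Z ⊕ W} : pD (str S W) k a b c ↔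
    ∃ z w x, a = .inr (.inl z) ∧ b = .inr (.inl w) ∧ c = .inl x ∧
      S.lev z = k + 1 ∧ S.lev w = k + 1 ∧ z ≠ w ∧ S.s z w = x := Iff.rfl

/-- The colouring of the heights has convex dense classes without end points. -/
structure FullSys : Prop where
  dens : ∀ x y : H, x < y → ∃ z, x < z ∧ z < y
  nomax : ∀ x : H, ∃ y, x < y
  down : ∀ (n : ℕ) (x : H), (n : ℕ∞) ≤ S.c x → ∃ y, y < x ∧ (n : ℕ∞) ≤ S.c y
  up : ∀ (n : ℕ) (x : H), ¬ ((n + 1 : ℕ) : ℕ∞) ≤ S.c x → ∃ y, x < y ∧ ¬ ((n + 1 : ℕ) : ℕ∞) ≤ S.c y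
  all : ∀ n : ℕ, ∃ x, S.c x = n
  pts : ∀ (k n : ℕ), ∃ z, S.lev z = k ∧ (n : ℕ∞) ≤ S.cz z

variable {S}

theorem TopSys.full {m : ℕ → Z} (h : TopSys S m) : FullSys S := by
  have hup : ∀ (n : ℕ) (x : H), ¬ ((n + 1 : ℕ) : ℕ∞) ≤ S.c x →
      ∃ y, x < y ∧ ¬ ((n + 1 : ℕ) : ℕ∞) ≤ S.c y := by
    intro n x hx
    obtain ⟨y, h1, h2⟩ := (h.col (n + 1) (by omega)).up x (fun h => h)
    refine ⟨y, h1, fun h3 => hx ?_⟩
    change tr (n + 1) (S.c y) = tr (n + 1) (S.c x) at h2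
    rw [tr_of_le h3] at h2
    exact tr_eq_top.1 h2.symm
  refine ⟨?_, ?_, ?_, hup, h.all, fun k n => ⟨m k, h.lev k, by rw [h.cz]; exact le_top⟩⟩
  · intro x y hxy
    obtain ⟨n, hn⟩ := ENat.ne_top_iff_exists.1 (h.fin x)
    have hx : ¬ ((n + 1 : ℕ) : ℕ∞) ≤ S.c x := by
      rw [← hn, Nat.cast_le]; omega
    by_cases hy : ((n + 1 : ℕ) : ℕ∞) ≤ S.c y
    · obtain ⟨t, h1, h2⟩ := hup n x hx
      exact ⟨t, h1, S.lt_of_c ((not_le.1 h2).trans_le hy)⟩
    · obtain ⟨t, h1, h2, -⟩ := (h.col (n + 1) (by omega)).mid x y (fun h => h) (by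
        have h3 : S.c x ≤ S.c y := S.c_mono hxy.le
        have h4 : S.c y = S.c x := by
          refine le_antisymm ?_ h3
          rw [← hn]
          have := not_le.1 hy
          rw [Nat.cast_add, Nat.cast_one] at this
          exact Order.le_of_lt_add_one this
        change tr _ _ = tr _ _
        rw [h4]) hxy
      exact ⟨t, h1, h2⟩
  · intro x
    obtain ⟨y, h1, -⟩ := (h.col 1 le_rfl).up x (fun h => h)
    exact ⟨y, h1⟩
  · intro n x hx
    obtain ⟨y, h1, h2⟩ := (h.col (n + 1) (by omega)).down x (fun h => h)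
    refine ⟨y, h1, ?_⟩
    change tr (n + 1) (S.c y) = tr (n + 1) (S.c x) at h2
    rw [← le_tr_iff (N := n + 1) (by omega), h2, le_tr_iff (by omega)]
    exact hx

theorem FullSys.mdl (h : FullSys S) : Mdl (str S W) where
  a1 := by
    rintro _ _ ⟨x, y, h1, h2, -⟩
    exact ⟨⟨x, h1, by simp⟩, ⟨y, h2, by simp⟩⟩
  a2 := by
    rintro a ⟨x, y, h1, h2, h3⟩
    change a = _ at h1
    change a = _ at h2
    rw [h1] at h2
    cases h2
    exact lt_irrefl _ h3
  a3 := by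
    rintro a b c ⟨x, y, h1, h2, h3⟩ ⟨x', y', h1', h2', h3'⟩
    change a = _ at h1
    change b = _ at h2
    change b = _ at h1'
    change c = _ at h2'
    rw [h2] at h1'
    cases h1'
    exact ⟨x, y', h1, h2', h3.trans h3'⟩
  a4 := by
    rintro a b ⟨x, h1, -⟩ ⟨y, h2, -⟩
    change a = _ at h1
    change b = _ at h2
    rcases lt_trichotomy x y with h3 | h3 | h3
    · exact Or.inl ⟨x, y, h1, h2, h3⟩
    · exact Or.inr (Or.inl (by rw [h1, h2, h3]))
    · exact Or.inr (Or.inr ⟨y, x, h2, h1, h3⟩)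
  a5 := by
    rintro n a ⟨x, h1, h2⟩
    exact ⟨x, h1, le_trans (by exact_mod_cast Nat.le_succ n) h2⟩
  a6 := by
    rintro n a b ⟨x, h1, h2⟩ ⟨x', y, h3, h4, h5⟩
    change a = _ at h1
    change a = _ at h3
    rw [h1] at h3
    cases h3
    exact ⟨y, h4, h2.trans (S.c_mono h5.le)⟩
  a7 := by
    rintro a b ⟨x, y, h1, h2, h3⟩
    obtain ⟨z, h4, h5⟩ := h.dens x y h3
    exact ⟨.inl z, ⟨x, z, h1, rfl, h4⟩, ⟨z, y, rfl, h2, h5⟩⟩
  a8 := by
    rintro n a ⟨x, h1, h2⟩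
    obtain ⟨y, h3, h4⟩ := h.down n x h2
    exact ⟨.inl y, ⟨y, rfl, h4⟩, ⟨y, x, rfl, h1, h3⟩⟩
  a9 := by
    rintro n a ⟨x, h1, -⟩ h2
    change a = _ at h1
    subst h1
    obtain ⟨y, h3, h4⟩ := h.up n x (fun h3 => h2 ⟨x, rfl, h3⟩)
    refine ⟨.inl y, ⟨x, y, rfl, rfl, h3⟩, ?_⟩
    rintro ⟨y', h5, h6⟩
    cases h5
    exact h4 h6
  a10 := by
    rintro a ⟨x, h1, -⟩
    obtain ⟨y, h3⟩ := h.nomax x
    exact ⟨.inl y, ⟨x, y, h1, rfl, h3⟩⟩
  a11 := by
    intro n
    obtain ⟨x, hx⟩ := h.all n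
    refine ⟨.inl x, ⟨x, rfl, by rw [hx]⟩, ?_⟩
    rintro ⟨y, h1, h2⟩
    cases h1
    rw [hx, Nat.cast_le] at h2
    omega
  b1 := by
    rintro k n a ⟨z, h1, h2, h3⟩
    exact ⟨z, h1, h2, le_trans (by exact_mod_cast Nat.le_succ n) h3⟩
  b2 := by
    rintro k a ⟨z, h1, h2, h3⟩
    exact ⟨z, h1, h2, by exact_mod_cast S.cz_pos z⟩
  b3 := by
    rintro k a ⟨z, h1, h2, h3⟩ ⟨x, h4, h5⟩
    change a = _ at h1
    change a = _ at h4
    rw [h1] at h4
    cases h4
  b4 := by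
    rintro k j hkj a ⟨z, h1, h2, h3⟩ ⟨x, h4, h5, h6⟩
    change a = _ at h1
    change a = _ at h4
    rw [h1] at h4
    cases h4
    exact hkj (h2.symm.trans h5)
  b5 := by
    rintro a b ⟨z, h1, h2, h3⟩ ⟨w, h4, h5, h6⟩
    change a = _ at h1
    change b = _ at h4
    rw [h1, h4, S.root_eq z w h2 h5]
  b6 := by
    rintro n a ⟨z, h1, h2, h3⟩
    exact ⟨z, h1, h2, by rw [S.cz_root z h2]; exact le_top⟩
  b7 := by
    intro k n
    obtain ⟨z, h1, h2⟩ := h.pts k n
    exact ⟨.inr (.inl z), ⟨z, rfl, h1, h2⟩⟩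
  e1 := by
    rintro k a b ⟨z, w, h1, h2, h3, h4⟩
    have := S.lev_e z (by omega)
    exact ⟨⟨z, h1, h3, by simp⟩, ⟨w, h2, by rw [← h4]; omega, by simp⟩⟩
  e2 := by
    rintro k a b c ⟨z, w, h1, h2, h3, h4⟩ ⟨z', w', h1', h2', h3', h4'⟩
    change a = _ at h1
    change a = _ at h1'
    change b = _ at h2
    change c = _ at h2'
    rw [h1] at h1'
    cases h1'
    rw [h2, h2', ← h4, ← h4']
  e3 := by
    rintro k a ⟨z, h1, h2, h3⟩
    exact ⟨.inr (.inl (S.e z)), ⟨z, _, h1, rfl, h2, rfl⟩⟩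
  e4 := by
    rintro k n a b ⟨z, h1, h2, h3⟩ ⟨z', w', h1', h2', h3', h4'⟩
    change a = _ at h1
    change a = _ at h1'
    rw [h1] at h1'
    cases h1'
    have := S.lev_e z (by omega)
    have h5 := S.cz_e z (by omega)
    exact ⟨w', h2', by rw [← h4']; omega, by rw [← h4']; exact h3.trans h5⟩
  g1 := by
    rintro k a b ⟨z, w, h1, h2, h3, h4⟩
    change b = _ at h2
    refine ⟨⟨z, h1, h3, by simp⟩, ⟨w, h2, by simp⟩, ?_⟩
    rintro ⟨x, h5, h6⟩
    change b = _ at h5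
    rw [h2] at h5
    cases h5
    have := S.c_h z (by omega)
    rw [h4] at this
    rw [this] at h6
    simp at h6
  g2 := by
    rintro k a b c ⟨z, w, h1, h2, h3, h4⟩ ⟨z', w', h1', h2', h3', h4'⟩
    change a = _ at h1
    change a = _ at h1'
    change b = _ at h2
    change c = _ at h2'
    rw [h1] at h1'
    cases h1'
    rw [h2, h2', ← h4, ← h4']
  g3 := by
    rintro k a ⟨z, h1, h2, h3⟩
    exact ⟨.inl (S.h z), ⟨z, _, h1, rfl, h2, rfl⟩⟩
  g4 := by
    rintro k a b c d ⟨z, w, h1, h2, h3, h4⟩ ⟨z', w', h1', h2', h3', h4'⟩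
      ⟨z'', w'', h1'', h2'', h3'', h4''⟩
    change a = _ at h1
    change a = _ at h1'
    change b = _ at h2
    change b = _ at h1''
    change c = _ at h2'
    change d = _ at h2''
    rw [h1] at h1'
    cases h1'
    rw [h2] at h1''
    cases h1''
    refine ⟨w'', w', h2'', h2', ?_⟩
    rw [← h4', ← h4'', ← h4]
    exact S.h_e z (by omega) (by rw [h4]; omega)
  d1 := by
    rintro k a b c ⟨z, w, x, h1, h2, h3, h4, h5, h6, h7⟩
    change a = _ at h1
    change b = _ at h2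
    refine ⟨⟨z, h1, h4, by simp⟩, ⟨w, h2, h5, by simp⟩, ?_, ⟨x, h3, ?_⟩⟩
    · rw [h1, h2]
      intro h8
      cases h8
      exact h6 rfl
    · rw [← h7]
      exact_mod_cast S.c_s z w (by omega) h6
  d2 := by
    rintro k a b c c' ⟨z, w, x, h1, h2, h3, h4, h5, h6, h7⟩
      ⟨z', w', x', h1', h2', h3', h4', h5', h6', h7'⟩
    change a = _ at h1
    change b = _ at h2
    change a = _ at h1'
    change b = _ at h2'
    change c = _ at h3
    change c' = _ at h3'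
    rw [h1] at h1'
    rw [h2] at h2'
    cases h1'
    cases h2'
    rw [h3, h3', ← h7, ← h7']
  d3 := by
    rintro k a b ⟨z, h1, h2, h3⟩ ⟨w, h1', h2', h3'⟩ hne
    change a = _ at h1
    change b = _ at h1'
    refine ⟨.inl (S.s z w), ⟨z, w, _, h1, h1', rfl, h2, h2', ?_, rfl⟩⟩
    rintro rfl
    exact hne (h1.trans h1'.symm)
  d4 := by
    rintro k a b c ⟨z, w, x, h1, h2, h3, h4, h5, h6, h7⟩
    exact ⟨w, z, x, h2, h1, h3, h5, h4, h6.symm, by rw [S.s_comm w z (by omega) h6.symm]; exact h7⟩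
  d5 := by
    rintro k a b c x y z ⟨a1, b1, x1, h1, h2, h3, h4, h5, h6, h7⟩
      ⟨b2, c2, y2, h1', h2', h3', h4', h5', h6', h7'⟩
      ⟨a3, c3, z3, h1'', h2'', h3'', h4'', h5'', h6'', h7''⟩
    change a = _ at h1
    change b = _ at h2
    change x = _ at h3
    change b = _ at h1'
    change c = _ at h2'
    change y = _ at h3'
    change a = _ at h1''
    change c = _ at h2''
    change z = _ at h3''
    rw [h1] at h1''
    rw [h2] at h1'
    rw [h2'] at h2''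
    cases h1''
    cases h1'
    cases h2''
    rintro ⟨⟨u, v, g1, g2, g3⟩, ⟨u', v', g1', g2', g3'⟩⟩
    change z = _ at g1
    change x = _ at g2
    change z = _ at g1'
    change y = _ at g2'
    rw [h3''] at g1 g1'
    rw [h3] at g2
    rw [h3'] at g2'
    cases g1
    cases g1'
    cases g2
    cases g2'
    have := S.ultra a1 b1 c2 (by omega) (by omega) h6 h6' h6''
    rw [h7, h7', h7''] at this
    exact absurd this (not_le.2 (lt_min g3 g3'))
  d6 := by
    rintro k n a b c ⟨z, w, x, h1, h2, h3, h4, h5, h6, h7⟩ ⟨z', g1, g2, g3⟩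
    change a = _ at h1
    change b = _ at h2
    change c = _ at h3
    change a = _ at g1
    rw [h1] at g1
    cases g1
    have key : (n : ℕ∞) ≤ S.cz w ↔ (n : ℕ∞) ≤ S.c x := by
      rw [← h7]
      constructor
      · intro h8
        exact (le_min g3 h8).trans (S.cs_ge (by omega) h6)
      · intro h8
        by_contra h9
        have h10 : S.cz w < S.cz z := (not_le.1 h9).trans_le g3
        rw [S.s_comm z w (by omega) h6, S.s_eq_d (by omega) h10, S.c_d w (ne_top_of_lt h10)] at h8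
        exact h9 h8
    constructor
    · rintro ⟨w', h8, h9, h10⟩
      change b = _ at h8
      rw [h2] at h8
      cases h8
      exact ⟨x, h3, key.1 h10⟩
    · rintro ⟨x', h8, h9⟩
      change c = _ at h8
      rw [h3] at h8
      cases h8
      exact ⟨w, h2, h5, key.2 h9⟩
  d7 := by
    rintro k a a' x b b' y ⟨a1, a1', x1, h1, h2, h3, h4, h5, h6, h7⟩
      ⟨a2, b2, h1', h2', h3', h4'⟩ ⟨a3, b3, h1'', h2'', h3'', h4''⟩
      ⟨b4, b5, y4, g1, g2, g3, g4, g5, g6, g7⟩ ⟨y5, x5, f1, f2, f3⟩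
    change a = _ at h1
    change a' = _ at h2
    change x = _ at h3
    change a = _ at h1'
    change b = _ at h2'
    change a' = _ at h1''
    change b' = _ at h2''
    change b = _ at g1
    change b' = _ at g2
    change y = _ at g3
    change y = _ at f1
    change x = _ at f2
    rw [h1] at h1'
    rw [h2] at h1''
    rw [h2'] at g1
    rw [h2''] at g2
    rw [g3] at f1
    rw [h3] at f2
    cases h1'
    cases h1''
    cases g1
    cases g2
    cases f1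
    cases f2
    have := S.s_e a1 a1' (by omega) (by omega) (by rw [h4', h4'']; exact g6)
    rw [h4', h4'', h7, g7] at this
    exact absurd this (not_le.2 f3)
  x1 := by
    rintro k m a w q y l - ⟨⟨a0, ha, hla, -⟩, ⟨w0, hw, hlw, -⟩, ⟨q0, hq, hcq⟩, ⟨y0, hy, -⟩, hy1, hG1,
      hE1, hF1⟩
    change a = _ at ha
    change w = _ at hw
    change q = _ at hq
    change y = _ at hy
    subst ha hw hq hy
    have hcy : S.c y0 = 0 := by
      by_contra hne
      refine hy1 ⟨y0, rfl, ?_⟩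
      exact_mod_cast Order.one_le_iff_ne_zero.2 hne
    have hle := S.lev_e a0 (by omega)
    have hFin : {b0 | (.inr (.inl b0) : H ⊕ Z ⊕ W) ∈ l}.Finite := by
      refine Set.Finite.preimage (f := fun b0 => (.inr (.inl b0) : H ⊕ Z ⊕ W)) (s := {b | b ∈ l})
        ?_ l.finite_toSet
      intro b _ b' _ h
      simpa using h
    have hFb : ∀ b ∈ l, ∃ b0, b = .inr (.inl b0) ∧ (b0 = a0 ∨ (S.lev b0 = S.lev a0 ∧
        q0 ≤ S.s b0 a0)) := by
      intro b hb
      rcases hF1 b hb with rfl | ⟨x, ⟨b0, a1, x0, h1, h2, h3, h4, h5, h6, h7⟩, h8⟩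
      · exact ⟨a0, rfl, Or.inl rfl⟩
      · change b = _ at h1
        change Sum.inr (Sum.inl a0) = _ at h2
        change x = _ at h3
        cases h2
        refine ⟨b0, h1, Or.inr ⟨by omega, ?_⟩⟩
        rw [h7]
        by_contra hn
        exact h8 ⟨x0, q0, h3, rfl, not_le.1 hn⟩
    obtain ⟨z, z1, z2, z3, ⟨z4, z5⟩, z6⟩ := S.ext a0 w0 q0 y0 _ hFin (by omega) (by
        rcases hE1 (.inr (.inl (S.e a0))) ⟨a0, _, rfl, rfl, hla, rfl⟩ with h1 | ⟨x, h1, h2⟩
        · left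
          simpa using h1
        · right
          cases k with
          | zero => exact h1.elim
          | succ k =>
            obtain ⟨w1, v1, x1, g1, g2, g3, g4, g5, g6, g7⟩ := h1
            change Sum.inr (Sum.inl w0) = _ at g1
            change Sum.inr (Sum.inl (S.e a0)) = _ at g2
            change x = _ at g3
            cases g1
            cases g2
            rw [g7]
            by_contra hn
            exact h2 ⟨x1, q0, g3, rfl, not_le.1 hn⟩)
      (by exact_mod_cast hcq) hcy (by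
        intro h0
        cases k with
        | zero => exact absurd hlw h0
        | succ k =>
          obtain ⟨x, x', g1, g2, g3⟩ := hG1 (.inl (S.h w0)) ⟨w0, _, rfl, rfl, hlw, rfl⟩
          change Sum.inl (S.h w0) = _ at g1
          change Sum.inl y0 = _ at g2
          cases g1
          cases g2
          exact g3) (by
        intro b0 hb0
        obtain ⟨b1, h1, h2⟩ := hFb _ hb0
        cases h1
        exact h2)
    refine ⟨.inr (.inl z), ⟨z, w0, rfl, rfl, by omega, z1⟩, ⟨z, y0, rfl, rfl, by omega, z3⟩,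
      ⟨a0, z, q0, rfl, rfl, rfl, hla, by omega, z4, z5⟩, ?_⟩
    intro b hb
    obtain ⟨b0, rfl, h2⟩ := hFb b hb
    obtain ⟨h3, h4⟩ := z6 b0 hb
    have hlb : S.lev b0 = S.lev a0 := by
      rcases h2 with rfl | ⟨h5, -⟩
      · rfl
      · exact h5
    exact ⟨b0, z, q0, rfl, rfl, rfl, by omega, by omega, h3, h4⟩

end Pool.Agent.Y567.MC
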