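import Pool.Agent.Y567.MC.Sys

/-!
Back and forth between two towers.
-/

set_option autoImplicit false

namespace Pool.Agent.Y567.MC

open Set

variable {H Z H' Z' ι : Type} [LinearOrder H] [LinearOrder H'] (S : Sys H Z) (S' : Sys H' Z')

/-- The part of a partial isomorphism on the points of the towers. -/
structure BG (A : Set (H × H')) (B : Set (Z × Z')) : Prop where
  inj : ∀ {z z' w w'}, (z, z') ∈ B → (w, w') ∈ B → (z = w ↔ z' = w')
  lev : ∀ {z z'}, (z, z') ∈ B → S.lev z = S'.lev z'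
  cz : ∀ {z z'}, (z, z') ∈ B → S.cz z = S'.cz z'
  e : ∀ {z z'}, (z, z') ∈ B → S.lev z ≠ 0 → (S.e z, S'.e z') ∈ B
  h : ∀ {z z'}, (z, z') ∈ B → S.lev z ≠ 0 → (S.h z, S'.h z') ∈ A
  d : ∀ {z z'}, (z, z') ∈ B → S.cz z ≠ ⊤ → (S.d z, S'.d z') ∈ A
  s : ∀ {z z' w w'}, (z, z') ∈ B → (w, w') ∈ B → S.lev z = S.lev w → z ≠ w →
    (S.s z w, S'.s z' w') ∈ A

theorem BG.swap {A : Set (H × H')} {B : Set (Z × Z')} (hB : BG S S' A B) :
    BG S' S (Prod.swap ⁻¹' A) (Prod.swap ⁻¹' B) where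
  inj := fun h1 h2 => (hB.inj h1 h2).symm
  lev := fun h1 => (hB.lev h1).symm
  cz := fun h1 => (hB.cz h1).symm
  e := fun h1 h2 => hB.e h1 (by rw [hB.lev h1]; exact h2)
  h := fun h1 h2 => hB.h h1 (by rw [hB.lev h1]; exact h2)
  d := fun h1 h2 => hB.d h1 (by rw [hB.cz h1]; exact h2)
  s := fun h1 h2 h3 h4 => hB.s h1 h2 (by rw [hB.lev h1, hB.lev h2]; exact h3)
    (fun h5 => h4 ((hB.inj h1 h2).1 h5))

theorem BG.mono {A A' : Set (H × H')} {B : Set (Z × Z')} (hB : BG S S' A B) (hA : A ⊆ A') :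
    BG S S' A' B :=
  { hB with
    h := fun h1 h2 => hA (hB.h h1 h2)
    d := fun h1 h2 => hA (hB.d h1 h2)
    s := fun h1 h2 h3 h4 => hA (hB.s h1 h2 h3 h4) }

/-- Top points over top points exist, with prescribed label. -/
def TopExt (ρ : H → ι) (ρ' : H' → ι) (L : ℕ∞) : Prop :=
  ∀ (z : Z) (w' : Z') (y' : H'), S.lev z ≠ 0 → (S.lev z : ℕ∞) < L → S.cz z = ⊤ →
    S'.lev w' + 1 = S.lev z → S'.cz w' = ⊤ → ρ (S.h z) = ρ' y' → S'.c y' = 0 →
    (S'.lev w' ≠ 0 → S'.h w' < y') →
    ∃ z', S'.lev z' = S.lev z ∧ S'.cz z' = ⊤ ∧ S'.e z' = w' ∧ S'.h z' = y'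

/-- A point of the second tower that behaves as `z` does. -/
structure Ans (A : Set (H × H')) (B : Set (Z × Z')) (z : Z) (z' : Z') : Prop where
  lev : S.lev z = S'.lev z'
  cz : S.cz z = S'.cz z'
  e : S.lev z ≠ 0 → (S.e z, S'.e z') ∈ B
  h : S.lev z ≠ 0 → (S.h z, S'.h z') ∈ A
  d : S.cz z ≠ ⊤ → (S.d z, S'.d z') ∈ A
  s : ∀ {a a'}, (a, a') ∈ B → S.lev a = S.lev z → a' ≠ z' ∧ (S.s a z, S'.s a' z') ∈ A

theorem BG.insert {A : Set (H × H')} {B : Set (Z × Z')} (hB : BG S S' A B) {z : Z} {z' : Z'}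
    (hz : ∀ w', (z, w') ∉ B) (h : Ans S S' A B z z') :
    BG S S' A (insert (z, z') B) := by
  have hne : ∀ {a a'}, (a, a') ∈ B → a ≠ z := by
    rintro a a' h1 rfl; exact hz _ h1
  have hne' : ∀ {a a'}, (a, a') ∈ B → a' ≠ z' := by
    rintro a a' h1 rfl
    have h2 : S.lev a = S.lev z := (hB.lev h1).trans h.lev.symm
    exact (h.s h1 h2).1 rfl
  refine ⟨?_, ?_, ?_, ?_, ?_, ?_, ?_⟩
  · rintro a a' b b' (h1 | h1) (h2 | h2)
    · cases h1; cases h2; simp
    · cases h1
      exact ⟨fun h3 => absurd h3.symm (hne h2), fun h3 => absurd h3.symm (hne' h2)⟩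
    · cases h2
      exact ⟨fun h3 => absurd h3 (hne h1), fun h3 => absurd h3 (hne' h1)⟩
    · exact hB.inj h1 h2
  · rintro a a' (h1 | h1)
    · cases h1; exact h.lev
    · exact hB.lev h1
  · rintro a a' (h1 | h1)
    · cases h1; exact h.cz
    · exact hB.cz h1
  · rintro a a' (h1 | h1) h2
    · cases h1; exact Or.inr (h.e h2)
    · exact Or.inr (hB.e h1 h2)
  · rintro a a' (h1 | h1) h2
    · cases h1; exact h.h h2
    · exact hB.h h1 h2
  · rintro a a' (h1 | h1) h2
    · cases h1; exact h.d h2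
    · exact hB.d h1 h2
  · rintro a a' b b' (h1 | h1) (h2 | h2) h3 h4
    · cases h1; cases h2; exact absurd rfl h4
    · cases h1
      have h5 := h.s h2 h3.symm
      rw [S.s_comm _ _ h3 h4, S'.s_comm _ _ (by rw [← h.lev, ← hB.lev h2]; exact h3) h5.1.symm]
      exact h5.2
    · cases h2
      exact (h.s h1 h3).2
    · exact hB.s h1 h2 h3 h4

variable {ρ : H → ι} {ρ' : H' → ι} {sg : ι → Prop}

/-- The main step. -/
theorem ans_exists (hρ : ∀ x x', ρ x = ρ' x' → S.c x = S'.c x') {L : ℕ∞}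
    (hT : TopExt S S' ρ ρ' L) {A : Set (H × H')} {B : Set (Z × Z')}
    (hA : AG ρ ρ' A) (hB : BG S S' A B) (hBf : B.Finite) {z w : Z} {w' : Z'} (hl : S.lev z ≠ 0)
    (hzL : (S.lev z : ℕ∞) < L) (hw : S.e z = w) (hww : (w, w') ∈ B) (hz : ∀ w', (z, w') ∉ B)
    {y' : H'} (hy : (S.h z, y') ∈ A) (hd : S.cz z ≠ ⊤ → ∃ x', (S.d z, x') ∈ A)
    (hs : ∀ {a a'}, (a, a') ∈ B → S.lev a = S.lev z → ∃ x', (S.s a z, x') ∈ A) :
    ∃ z', Ans S S' A B z z' := by
  have hc : ∀ {x x'}, (x, x') ∈ A → S.c x = S'.c x' := fun h => hρ _ _ (hA.lab h)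
  have hlw : S.lev w + 1 = S.lev z := by rw [← hw]; exact S.lev_e z hl
  have hlw' : S'.lev w' + 1 = S.lev z := by rw [← hB.lev hww]; exact hlw
  have hcy : S'.c y' = 0 := by rw [← hc hy]; exact S.c_h z hl
  have hhw : S'.lev w' ≠ 0 → S'.h w' < y' := by
    intro h1
    have h2 : S.lev w ≠ 0 := by rw [hB.lev hww]; exact h1
    rw [← hA.ord (hB.h hww h2) hy, ← hw]
    exact S.h_e z hl (by rw [hw]; exact h2)
  have hzne : ∀ {a a'}, (a, a') ∈ B → a ≠ z := by
    rintro a a' h1 rfl; exact hz _ h1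
  -- the finite set of points of the same level
  have hfin : {a | ∃ a', (a, a') ∈ B ∧ S.lev a = S.lev z}.Finite :=
    (hBf.image Prod.fst).subset (by rintro y ⟨y', hy, -⟩; exact ⟨_, hy, rfl⟩)
  by_cases hcase : ∃ a a', (a, a') ∈ B ∧ S.lev a = S.lev z ∧
      ((S.cz z = ⊤ ∧ S.cz a = ⊤) ∨ (S.cz z ≠ ⊤ ∧ S.d z < S.s a z))
  · -- there is a point near `z`
    obtain ⟨a1, a1', ha1, hla1, hca1⟩ := hcase
    obtain ⟨a, ⟨a', haa, hla⟩, hmax⟩ :=
      Set.exists_max_image _ (fun a => S.s a z) hfin ⟨a1, a1', ha1, hla1⟩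
    have hmax' : ∀ {b b'}, (b, b') ∈ B → S.lev b = S.lev z → S.s b z ≤ S.s a z :=
      fun h1 h2 => hmax _ ⟨_, h1, h2⟩
    have haz : a ≠ z := hzne haa
    have hca : (S.cz z = ⊤ ∧ S.cz a = ⊤) ∨ (S.cz z ≠ ⊤ ∧ S.d z < S.s a z) := by
      rcases hca1 with ⟨h1, h2⟩ | ⟨h1, h2⟩
      · refine Or.inl ⟨h1, ?_⟩
        by_contra h3
        have h4 := S.s_top a1 z hla1 (hzne ha1) h2 h1
        have h5 := S.c_mono (hmax' ha1 hla1)
        rw [h4, S.s_d a z hla h3 h1, S.c_d a h3] at h5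
        exact h3 (top_le_iff.1 h5)
      · exact Or.inr ⟨h1, h2.trans_le (hmax' ha1 hla1)⟩
    obtain ⟨q', hq⟩ := hs haa hla
    have hla' : S'.lev a' = S.lev z := by rw [← hB.lev haa]; exact hla
    have hlz0 : S.lev a ≠ 0 := by rw [hla]; exact hl
    have heaa : (S.e a, S'.e a') ∈ B := hB.e haa hlz0
    have hcond : w' = S'.e a' ∨ q' ≤ S'.s w' (S'.e a') := by
      by_cases h1 : w = S.e a
      · exact Or.inl ((hB.inj hww heaa).1 h1)
      · right
        have h2 : S.lev w = S.lev (S.e a) := by have := S.lev_e a hlz0; omega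
        rw [← hA.le_iff hq (hB.s hww heaa h2 h1), S.s_comm a z hla haz, ← hw]
        exact S.s_e z a hla.symm hl (by rw [hw]; exact h1)
    have h1q : 1 ≤ S'.c q' := by rw [← hc hq]; exact S.c_s a z hla haz
    obtain ⟨z', z1, z2, z3, ⟨z4, z5⟩, z6⟩ := S'.ext a' w' q' y'
      {b' | ∃ b, (b, b') ∈ B ∧ S.lev b = S.lev z ∧ (b = a ∨ S.s a z ≤ S.s b a)}
      ((hBf.image Prod.snd).subset (by rintro y ⟨y', hy, -⟩; exact ⟨_, hy, rfl⟩))
      (by omega) hcond h1q hcy hhw (by
        rintro b' ⟨b, hb, hlb, h1⟩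
        by_cases hba : b = a
        · exact Or.inl ((hB.inj hb haa).1 hba)
        · refine Or.inr ⟨by rw [← hB.lev hb, hlb, hla'], ?_⟩
          rw [← hA.le_iff hq (hB.s hb haa (hlb.trans hla.symm) hba)]
          exact h1.resolve_left hba)
    have hlz' : S.lev z = S'.lev z' := by rw [z2, hla']
    have hsb : ∀ {b b'}, (b, b') ∈ B → S.lev b = S.lev z →
        b' ≠ z' ∧ (S.s b z, S'.s b' z') ∈ A := by
      intro b b' hb hlb
      by_cases hF : b = a ∨ S.s a z ≤ S.s b a
      · obtain ⟨h2, h3⟩ := z6 b' ⟨b, hb, hlb, hF⟩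
        refine ⟨h2, ?_⟩
        rw [h3]
        have h4 : S.s b z = S.s a z := by
          rcases hF with rfl | h5
          · rfl
          · refine le_antisymm (hmax' hb hlb) ?_
            by_cases hba : b = a
            · rw [hba]
            · refine le_trans (le_min h5 le_rfl)
                (S.ultra b a z (hlb.trans hla.symm) hla hba haz (hzne hb))
        rw [h4]; exact hq
      · push_neg at hF
        obtain ⟨hba, hlt⟩ := hF
        have hba' : b' ≠ a' := fun h => hba ((hB.inj hb haa).2 h)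
        have hlb' : S'.lev b' = S'.lev a' := by rw [← hB.lev hb, hlb, hla']
        obtain ⟨h5, h6⟩ := S.s_iso (hlb.trans hla.symm) hla hba haz hlt
        have hlt' : S'.s b' a' < S'.s a' z' := by
          rw [z5, ← hA.ord (hB.s hb haa (hlb.trans hla.symm) hba) hq]; exact hlt
        obtain ⟨h7, h8⟩ := S'.s_iso hlb' z2.symm hba' z4 hlt'
        refine ⟨h7, ?_⟩
        rw [h6, h8]
        exact hB.s hb haa (hlb.trans hla.symm) hba
    rcases hca with ⟨hzt, hat⟩ | ⟨hzt, hdz⟩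
    · have hat' : S'.cz a' = ⊤ := by rw [← hB.cz haa]; exact hat
      have hzt' : S'.cz z' = ⊤ := by
        by_contra h1
        have h2 := S'.s_d z' a' z2 h1 hat'
        rw [S'.s_comm z' a' z2 z4.symm, z5] at h2
        have h3 := S'.c_d z' h1
        rw [← h2, ← hc hq, S.s_top a z hla haz hat hzt] at h3
        exact h1 h3.symm
      exact ⟨z', hlz', by rw [hzt, hzt'], fun _ => by rw [hw, z1]; exact hww,
        fun _ => by rw [z3]; exact hy, fun h => absurd hzt h, hsb⟩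
    · have hna : S.cz a ≠ ⊤ := by
        intro h1
        have := S.s_d z a hla.symm hzt h1
        rw [S.s_comm z a hla.symm haz.symm] at this
        rw [this] at hdz
        exact lt_irrefl _ hdz
      rw [S.s_comm a z hla haz] at hdz
      obtain ⟨-, hda⟩ := S.d_eq_of_lt hla.symm haz.symm hzt hdz
      have hna' : S'.cz a' ≠ ⊤ := by rw [← hB.cz haa]; exact hna
      have hlt' : S'.d a' < S'.s a' z' := by
        rw [z5, ← hA.ord (hB.d haa hna) hq, hda, S.s_comm a z hla haz]; exact hdz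
      obtain ⟨h1, h2⟩ := S'.d_eq_of_lt z2.symm z4 hna' hlt'
      have hdd : (S.d z, S'.d z') ∈ A := by rw [h2, ← hda]; exact hB.d haa hna
      refine ⟨z', hlz', ?_, fun _ => by rw [hw, z1]; exact hww,
        fun _ => by rw [z3]; exact hy, fun _ => hdd, hsb⟩
      rw [← S.c_d z hzt, ← S'.c_d z' h1]
      exact hc hdd
  · push_neg at hcase
    by_cases hzt : S.cz z = ⊤
    · -- no top point yet
      have hwt : S'.cz w' = ⊤ := by
        rw [← hB.cz hww, ← hw]
        have := S.cz_e z hl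
        rw [hzt] at this
        exact top_le_iff.1 this
      obtain ⟨z', h1, h2, h3, h4⟩ := hT z w' y' hl hzL hzt hlw' hwt (hA.lab hy) hcy hhw
      refine ⟨z', h1.symm, by rw [hzt, h2], fun _ => by rw [hw, h3]; exact hww,
        fun _ => by rw [h4]; exact hy, fun h => absurd hzt h, ?_⟩
      intro a a' ha hla
      have hna : S.cz a ≠ ⊤ := (hcase a a' ha hla).1 hzt
      have hna' : S'.cz a' ≠ ⊤ := by rw [← hB.cz ha]; exact hna
      refine ⟨by rintro rfl; exact hna' h2, ?_⟩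
      rw [S.s_d a z hla hna hzt, S'.s_d a' z' (by rw [← hB.lev ha, hla, h1]) hna' h2]
      exact hB.d ha hna
    · -- the virtual point is nearest
      obtain ⟨q', hq⟩ := hd hzt
      have hcq : S'.c q' = S.cz z := by rw [← hc hq, S.c_d z hzt]
      have hle : ∀ {a a'}, (a, a') ∈ B → S.lev a = S.lev z → S.s a z ≤ S.d z :=
        fun h1 h2 => (hcase _ _ h1 h2).2 hzt
      have hF : ∀ b', b' ∈ {b' | ∃ b, (b, b') ∈ B ∧ S.lev b = S.lev z ∧ S.cz b ≠ ⊤ ∧
          S.d b = S.d z} → S'.lev b' = S'.lev w' + 1 ∧ S'.cz b' ≠ ⊤ ∧ S'.d b' = q' := by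
        rintro b' ⟨b, hb, hlb, h1, h2⟩
        refine ⟨by rw [← hB.lev hb, hlb, hlw'], by rw [← hB.cz hb]; exact h1, ?_⟩
        exact (hA.eq_iff (hB.d hb h1) hq).1 h2
      obtain ⟨z', z1, z2, z3, z4, z5, z6⟩ := S'.ext1 (w := w') (q := q') (y := y')
        ((hBf.image Prod.snd).subset (by rintro y ⟨y', hy, -⟩; exact ⟨_, hy, rfl⟩))
        (by rw [hcq]; exact S.cz_pos z) (by rw [hcq]; exact hzt) hcy hhw (by
          by_cases h1 : S'.cz w' = ⊤
          · exact Or.inl h1
          · have h2 : S.cz w ≠ ⊤ := by rw [hB.cz hww]; exact h1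
            right
            rw [← hA.le_iff hq (hB.d hww h2), ← hw]
            exact S.d_e z hl hzt (by rw [hw]; exact h2)) hF
      have hlz' : S.lev z = S'.lev z' := by rw [z2, hlw']
      have hczz : S.cz z = S'.cz z' := by rw [← S'.c_d z' z4, z5, hcq]
      refine ⟨z', hlz', hczz, fun _ => by rw [hw, z1]; exact hww,
        fun _ => by rw [z3]; exact hy, fun _ => by rw [z5]; exact hq, ?_⟩
      intro a a' ha hla
      have hla' : S'.lev a' = S'.lev z' := by rw [← hB.lev ha, hla, hlz']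
      have haz : a ≠ z := hzne ha
      by_cases hat : S.cz a = ⊤
      · have hat' : S'.cz a' = ⊤ := by rw [← hB.cz ha]; exact hat
        have hne : a' ≠ z' := by rintro rfl; exact z4 hat'
        refine ⟨hne, ?_⟩
        rw [S.s_comm a z hla haz, S'.s_comm a' z' hla' hne, S.s_d z a hla.symm hzt hat,
          S'.s_d z' a' hla'.symm z4 hat', z5]
        exact hq
      · have hat' : S'.cz a' ≠ ⊤ := by rw [← hB.cz ha]; exact hat
        have hdA := hB.d ha hat
        have g1 := S.d2 a z hla haz hat hzt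
        have g2 := S.d1 z a hla.symm haz.symm hzt hat
        have g3 := S.d1 a z hla haz hat hzt
        rw [S.s_comm z a hla.symm haz.symm] at g2
        have g4 := hle ha hla
        rcases lt_trichotomy (S.d a) (S.d z) with h1 | h1 | h1
        · -- `d a < d z`
          have h2 : S'.d a' < S'.d z' := by rw [z5, ← hA.ord hdA hq]; exact h1
          have hne : a' ≠ z' := by rintro rfl; exact lt_irrefl _ h2
          refine ⟨hne, ?_⟩
          have g1' := S'.d2 a' z' hla' hne hat' z4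
          have g2' := S'.d1 z' a' hla'.symm hne.symm z4 hat'
          rw [S'.s_comm z' a' hla'.symm hne.symm] at g2'
          rw [min_eq_left h1.le] at g1
          rw [min_eq_left h2.le] at g1'
          have e1 : S.s a z = S.d a := by
            rcases min_le_iff.1 g2 with h3 | h3
            · exact absurd h3 (not_le.2 h1)
            · exact le_antisymm h3 g1
          have e2 : S'.s a' z' = S'.d a' := by
            rcases min_le_iff.1 g2' with h3 | h3
            · exact absurd h3 (not_le.2 h2)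
            · exact le_antisymm h3 g1'
          rw [e1, e2]; exact hdA
        · obtain ⟨h3, h4⟩ := z6 a' ⟨a, ha, hla, hat, h1⟩
          refine ⟨h3, ?_⟩
          rw [h1, min_self] at g1
          rw [h4, le_antisymm g4 g1]
          exact hq
        · have h2 : S'.d z' < S'.d a' := by rw [z5, ← hA.ord hq hdA]; exact h1
          have hne : a' ≠ z' := by rintro rfl; exact lt_irrefl _ h2
          refine ⟨hne, ?_⟩
          have g1' := S'.d2 a' z' hla' hne hat' z4
          have g3' := S'.d1 a' z' hla' hne hat' z4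
          rw [min_eq_right h1.le] at g1
          rw [min_eq_right h2.le] at g1'
          have e1 : S.s a z = S.d z := le_antisymm g4 g1
          have e2 : S'.s a' z' = S'.d z' := by
            rcases min_le_iff.1 g3' with h3 | h3
            · exact absurd h3 (not_le.2 h2)
            · exact le_antisymm h3 g1'
          rw [e1, e2, z5]; exact hq

/-- One-point extension for points of the towers. -/
theorem extendZ (m : Match ρ ρ' sg) (hρ : ∀ x x', ρ x = ρ' x' → S.c x = S'.c x') {L : ℕ∞}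
    (hT : TopExt S S' ρ ρ' L) : ∀ (n : ℕ) (A : Set (H × H')) (B : Set (Z × Z')),
    AG ρ ρ' A → A.Finite → BG S S' A B → B.Finite → ∀ z, S.lev z = n → (n : ℕ∞) < L →
    ∃ A' B', A ⊆ A' ∧ B ⊆ B' ∧ A'.Finite ∧ B'.Finite ∧ AG ρ ρ' A' ∧ BG S S' A' B' ∧
      ∃ z', (z, z') ∈ B' := by
  intro n
  induction n with
  | zero =>
    intro A B hA hAf hB hBf z hz hL
    by_cases hin : ∃ z', (z, z') ∈ B
    · exact ⟨A, B, subset_rfl, subset_rfl, hAf, hBf, hA, hB, hin⟩
    push_neg at hin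
    obtain ⟨z', hz'⟩ := S'.root_ex
    refine ⟨A, insert (z, z') B, subset_rfl, Set.subset_insert _ _, hAf, hBf.insert _, hA,
      hB.insert S S' hin ⟨by rw [hz, hz'], by rw [S.cz_root z hz, S'.cz_root z' hz'],
        fun h => absurd hz h, fun h => absurd hz h, fun h => absurd (S.cz_root z hz) h, ?_⟩,
      z', Set.mem_insert _ _⟩
    intro a a' ha hla
    have := S.root_eq a z (hla.trans hz) hz
    subst this
    exact absurd ha (hin _)
  | succ n ih =>
    intro A B hA hAf hB hBf z hz hL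
    have hl : S.lev z ≠ 0 := by omega
    have hle : S.lev (S.e z) = n := by have := S.lev_e z hl; omega
    obtain ⟨A1, B1, hA1, hB1, hA1f, hB1f, hA1g, hB1g, w', hw'⟩ := ih A B hA hAf hB hBf (S.e z) hle
      (lt_of_le_of_lt (by exact_mod_cast Nat.le_succ n) hL)
    by_cases hin : ∃ z', (z, z') ∈ B1
    · exact ⟨A1, B1, hA1, hB1, hA1f, hB1f, hA1g, hB1g, hin⟩
    push_neg at hin
    obtain ⟨A2, h1, h2, h3, h4⟩ := hA1g.extendSet m hA1f
      (X := insert (S.h z) (insert (S.d z) ((fun p : Z × Z' => S.s p.1 z) '' B1)))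
      (((hB1f.image _).insert _).insert _)
    obtain ⟨y', hy'⟩ := h4 (S.h z) (by simp)
    have hB2 := hB1g.mono S S' h1
    obtain ⟨z', hz'⟩ := ans_exists S S' hρ hT h3 hB2 hB1f hl (by rw [hz]; exact hL) rfl hw' hin hy'
      (fun _ => h4 _ (by simp))
      (fun {a a'} ha _ => h4 _ (Set.mem_insert_of_mem _ (Set.mem_insert_of_mem _
        ⟨(a, a'), ha, rfl⟩)))
    exact ⟨A2, insert (z, z') B1, hA1.trans h1, hB1.trans (Set.subset_insert _ _), h2,
      hB1f.insert _, h3, hB2.insert S S' hin hz', z', Set.mem_insert _ _⟩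

end Pool.Agent.Y567.MC
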