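import Pool.Agent.Y567.MC.BF

/-!
The limit of the back and forth construction.
-/

set_option autoImplicit false

namespace Pool.Agent.Y567.MC

open Set

/-- A chain of conditions, meeting countably many requirements. -/
theorem exists_chain {X : Type} (P : X → Prop) (le : X → X → Prop) (hrefl : ∀ x, le x x)
    (htrans : ∀ x y z, le x y → le y z → le x z) (R : ℕ → X → Prop)
    (hR : ∀ n x, P x → ∃ y, P y ∧ le x y ∧ R n y) (x0 : X) (h0 : P x0) :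
    ∃ f : ℕ → X, f 0 = x0 ∧ (∀ n, P (f n)) ∧ (∀ m n, m ≤ n → le (f m) (f n)) ∧
      ∀ n, R n (f (n + 1)) := by
  classical
  choose g hg1 hg2 hg3 using hR
  let F : ℕ → {x // P x} := fun n =>
    Nat.rec ⟨x0, h0⟩ (fun n x => ⟨g n x.1 x.2, hg1 n x.1 x.2⟩) n
  refine ⟨fun n => (F n).1, rfl, fun n => (F n).2, ?_, fun n => hg3 n _ _⟩
  intro m n hmn
  induction n, hmn using Nat.le_induction with
  | base => exact hrefl _
  | succ n _ ih => exact htrans _ _ _ ih (hg2 n _ _)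

variable {H Z H' Z' ι : Type} [LinearOrder H] [LinearOrder H'] (S : Sys H Z) (S' : Sys H' Z')
variable {ρ : H → ι} {ρ' : H' → ι} {sg : ι → Prop}

/-- The two towers are isomorphic below level `L`, by an isomorphism extending a given finite one. -/
theorem back_forth [Countable H] [Countable Z] [Countable H'] [Countable Z']
    (m : Match ρ ρ' sg) (hρ : ∀ x x', ρ x = ρ' x' → S.c x = S'.c x') {L : ℕ∞}
    (hT : TopExt S S' ρ ρ' L) (hT' : TopExt S' S ρ' ρ L)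
    {A : Set (H × H')} {B : Set (Z × Z')} (hA : AG ρ ρ' A) (hAf : A.Finite)
    (hB : BG S S' A B) (hBf : B.Finite) :
    ∃ (A' : Set (H × H')) (B' : Set (Z × Z')), A ⊆ A' ∧ B ⊆ B' ∧ AG ρ ρ' A' ∧ BG S S' A' B' ∧
      (∀ x, ∃ x', (x, x') ∈ A') ∧ (∀ x', ∃ x, (x, x') ∈ A') ∧
      (∀ z, (S.lev z : ℕ∞) < L → ∃ z', (z, z') ∈ B') ∧
      (∀ z', (S'.lev z' : ℕ∞) < L → ∃ z, (z, z') ∈ B') := by
  classical
  obtain ⟨r, hr⟩ := S.root_ex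
  haveI : Nonempty (H ⊕ H' ⊕ Z ⊕ Z') := ⟨Sum.inr (Sum.inr (Sum.inl r))⟩
  obtain ⟨task, htask⟩ := exists_surjective_nat (H ⊕ H' ⊕ Z ⊕ Z')
  let P : Set (H × H') × Set (Z × Z') → Prop := fun p =>
    p.1.Finite ∧ p.2.Finite ∧ AG ρ ρ' p.1 ∧ BG S S' p.1 p.2
  let le : Set (H × H') × Set (Z × Z') → Set (H × H') × Set (Z × Z') → Prop := fun p q =>
    p.1 ⊆ q.1 ∧ p.2 ⊆ q.2
  let Rt : (H ⊕ H' ⊕ Z ⊕ Z') → Set (H × H') × Set (Z × Z') → Prop := fun t p => match t with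
    | Sum.inl x => ∃ x', (x, x') ∈ p.1
    | Sum.inr (Sum.inl x') => ∃ x, (x, x') ∈ p.1
    | Sum.inr (Sum.inr (Sum.inl z)) => (S.lev z : ℕ∞) < L → ∃ z', (z, z') ∈ p.2
    | Sum.inr (Sum.inr (Sum.inr z')) => (S'.lev z' : ℕ∞) < L → ∃ z, (z, z') ∈ p.2
  have hstep : ∀ t p, P p → ∃ q, P q ∧ le p q ∧ Rt t q := by
    rintro t ⟨A1, B1⟩ ⟨p1, p2, p3, p4⟩
    rcases t with x | x' | z | z'
    · obtain ⟨x', hx'⟩ := p3.extend m p1 x
      exact ⟨(insert (x, x') A1, B1), ⟨p1.insert _, p2, hx', p4.mono S S' (subset_insert _ _)⟩,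
        ⟨subset_insert _ _, subset_rfl⟩, x', mem_insert _ _⟩
    · obtain ⟨x, hx⟩ := p3.swap.extend m.symm (p1.preimage Prod.swap_injective.injOn) x'
      have h5 : Prod.swap ⁻¹' (insert (x', x) (Prod.swap ⁻¹' A1)) = insert (x, x') A1 := by
        ext ⟨a, b⟩
        simp [Prod.ext_iff, and_comm]
      have hx2 := hx.swap
      rw [h5] at hx2
      exact ⟨(insert (x, x') A1, B1), ⟨p1.insert _, p2, hx2, p4.mono S S' (subset_insert _ _)⟩,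
        ⟨subset_insert _ _, subset_rfl⟩, x, mem_insert _ _⟩
    · by_cases hL : (S.lev z : ℕ∞) < L
      · obtain ⟨A2, B2, q1, q2, q3, q4, q5, q6, q7⟩ :=
          extendZ S S' m hρ hT _ A1 B1 p3 p1 p4 p2 z rfl hL
        exact ⟨(A2, B2), ⟨q3, q4, q5, q6⟩, ⟨q1, q2⟩, fun _ => q7⟩
      · exact ⟨(A1, B1), ⟨p1, p2, p3, p4⟩, ⟨subset_rfl, subset_rfl⟩, fun h => absurd h hL⟩
    · by_cases hL : (S'.lev z' : ℕ∞) < L
      · obtain ⟨A2, B2, q1, q2, q3, q4, q5, q6, ⟨z, q7⟩⟩ :=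
          extendZ S' S m.symm (fun x x' h => (hρ x' x h.symm).symm) hT' _
            (Prod.swap ⁻¹' A1) (Prod.swap ⁻¹' B1) p3.swap
            (p1.preimage Prod.swap_injective.injOn) (p4.swap S S')
            (p2.preimage Prod.swap_injective.injOn) z' rfl hL
        exact ⟨(Prod.swap ⁻¹' A2, Prod.swap ⁻¹' B2),
          ⟨q3.preimage Prod.swap_injective.injOn, q4.preimage Prod.swap_injective.injOn,
            q5.swap, q6.swap S' S⟩,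
          ⟨fun p hp => q1 (by simpa using hp), fun p hp => q2 (by simpa using hp)⟩,
          fun _ => ⟨z, q7⟩⟩
      · exact ⟨(A1, B1), ⟨p1, p2, p3, p4⟩, ⟨subset_rfl, subset_rfl⟩, fun h => absurd h hL⟩
  obtain ⟨f, f0, fP, fle, fR⟩ := exists_chain P le (fun _ => ⟨subset_rfl, subset_rfl⟩)
    (fun _ _ _ h1 h2 => ⟨h1.1.trans h2.1, h1.2.trans h2.2⟩) (fun n => Rt (task n))
    (fun n p hp => hstep _ p hp) (A, B) ⟨hAf, hBf, hA, hB⟩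
  have hdir : ∀ {i j : ℕ}, le (f i) (f (max i j)) ∧ le (f j) (f (max i j)) :=
    ⟨fle _ _ (le_max_left _ _), fle _ _ (le_max_right _ _)⟩
  have hmem : ∀ t, ∃ n, Rt t (f n) := fun t => by
    obtain ⟨n, hn⟩ := htask t
    exact ⟨n + 1, hn ▸ fR n⟩
  refine ⟨⋃ n, (f n).1, ⋃ n, (f n).2, ?_, ?_, ⟨?_, ?_⟩, ⟨?_, ?_, ?_, ?_, ?_, ?_, ?_⟩, ?_, ?_, ?_, ?_⟩
  · have : A = (f 0).1 := by rw [f0]
    rw [this]; exact subset_iUnion (fun n => (f n).1) 0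
  · have : B = (f 0).2 := by rw [f0]
    rw [this]; exact subset_iUnion (fun n => (f n).2) 0
  · intro x x' y y' h1 h2
    obtain ⟨i, hi⟩ := mem_iUnion.1 h1
    obtain ⟨j, hj⟩ := mem_iUnion.1 h2
    exact (fP (max i j)).2.2.1.ord (hdir.1.1 hi) (hdir.2.1 hj)
  · intro x x' h1
    obtain ⟨i, hi⟩ := mem_iUnion.1 h1
    exact (fP i).2.2.1.lab hi
  · intro z z' w w' h1 h2
    obtain ⟨i, hi⟩ := mem_iUnion.1 h1
    obtain ⟨j, hj⟩ := mem_iUnion.1 h2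
    exact (fP (max i j)).2.2.2.inj (hdir.1.2 hi) (hdir.2.2 hj)
  · intro z z' h1
    obtain ⟨i, hi⟩ := mem_iUnion.1 h1
    exact (fP i).2.2.2.lev hi
  · intro z z' h1
    obtain ⟨i, hi⟩ := mem_iUnion.1 h1
    exact (fP i).2.2.2.cz hi
  · intro z z' h1 h2
    obtain ⟨i, hi⟩ := mem_iUnion.1 h1
    exact mem_iUnion.2 ⟨i, (fP i).2.2.2.e hi h2⟩
  · intro z z' h1 h2
    obtain ⟨i, hi⟩ := mem_iUnion.1 h1
    exact mem_iUnion.2 ⟨i, (fP i).2.2.2.h hi h2⟩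
  · intro z z' h1 h2
    obtain ⟨i, hi⟩ := mem_iUnion.1 h1
    exact mem_iUnion.2 ⟨i, (fP i).2.2.2.d hi h2⟩
  · intro z z' w w' h1 h2 h3 h4
    obtain ⟨i, hi⟩ := mem_iUnion.1 h1
    obtain ⟨j, hj⟩ := mem_iUnion.1 h2
    exact mem_iUnion.2 ⟨_, (fP (max i j)).2.2.2.s (hdir.1.2 hi) (hdir.2.2 hj) h3 h4⟩
  · intro x
    obtain ⟨n, x', hn⟩ := hmem (Sum.inl x)
    exact ⟨x', mem_iUnion.2 ⟨n, hn⟩⟩
  · intro x'
    obtain ⟨n, x, hn⟩ := hmem (Sum.inr (Sum.inl x'))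
    exact ⟨x, mem_iUnion.2 ⟨n, hn⟩⟩
  · intro z hz
    obtain ⟨n, hn⟩ := hmem (Sum.inr (Sum.inr (Sum.inl z)))
    obtain ⟨z', hz'⟩ := hn hz
    exact ⟨z', mem_iUnion.2 ⟨n, hz'⟩⟩
  · intro z' hz'
    obtain ⟨n, hn⟩ := hmem (Sum.inr (Sum.inr (Sum.inr z')))
    obtain ⟨z, hz⟩ := hn hz'
    exact ⟨z, mem_iUnion.2 ⟨n, hz⟩⟩

/-- A bijection from its graph. -/
theorem equiv_of_graph {X Y : Type} (R : Set (X × Y)) (h1 : ∀ x, ∃ y, (x, y) ∈ R)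
    (h2 : ∀ y, ∃ x, (x, y) ∈ R)
    (h3 : ∀ {x y x' y'}, (x, y) ∈ R → (x', y') ∈ R → (x = x' ↔ y = y')) :
    ∃ f : X ≃ Y, ∀ x y, f x = y ↔ (x, y) ∈ R := by
  choose f hf using h1
  choose g hg using h2
  refine ⟨⟨f, g, fun x => (h3 (hg (f x)) (hf x)).2 rfl, fun y => (h3 (hf (g y)) (hg y)).1 rfl⟩,
    fun x y => ⟨?_, fun h => (h3 (hf x) h).1 rfl⟩⟩
  rintro rfl
  exact hf x

/-- Isomorphism of two towers. -/
structure Iso (f : H ≃ H') (g : Z ≃ Z') (L : ℕ∞) : Prop where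
  ord : ∀ x y, x < y ↔ f x < f y
  c : ∀ x, S.c x = S'.c (f x)
  low : ∀ z, (S.lev z : ℕ∞) < L ↔ (S'.lev (g z) : ℕ∞) < L
  lev : ∀ z, (S.lev z : ℕ∞) < L → S.lev z = S'.lev (g z)
  cz : ∀ z, (S.lev z : ℕ∞) < L → S.cz z = S'.cz (g z)
  e : ∀ z, (S.lev z : ℕ∞) < L → S.lev z ≠ 0 → g (S.e z) = S'.e (g z)
  h : ∀ z, (S.lev z : ℕ∞) < L → S.lev z ≠ 0 → f (S.h z) = S'.h (g z)
  s : ∀ z w, (S.lev z : ℕ∞) < L → S.lev z = S.lev w → z ≠ w → f (S.s z w) = S'.s (g z) (g w)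

/-- The isomorphism as a pair of bijections. -/
theorem exists_iso [Countable H] [Countable Z] [Countable H'] [Countable Z']
    (m : Match ρ ρ' sg) (hρ : ∀ x x', ρ x = ρ' x' → S.c x = S'.c x') {L : ℕ∞}
    (hT : TopExt S S' ρ ρ' L) (hT' : TopExt S' S ρ' ρ L)
    (hW : Nonempty ({z : Z // ¬ (S.lev z : ℕ∞) < L} ≃ {z : Z' // ¬ (S'.lev z : ℕ∞) < L}))
    {A : Set (H × H')} {B : Set (Z × Z')} (hA : AG ρ ρ' A) (hAf : A.Finite)
    (hB : BG S S' A B) (hBf : B.Finite) :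
    ∃ (f : H ≃ H') (g : Z ≃ Z'), Iso S S' f g L ∧ (∀ x x', (x, x') ∈ A → f x = x') ∧
      ∀ z z', (z, z') ∈ B → (S.lev z : ℕ∞) < L → g z = z' := by
  classical
  obtain ⟨A', B', h1, h2, h3, h4, h5, h6, h7, h8⟩ := back_forth S S' m hρ hT hT' hA hAf hB hBf
  obtain ⟨f, hf⟩ := equiv_of_graph A' h5 h6 (fun a b => h3.eq_iff a b)
  obtain ⟨w⟩ := hW
  obtain ⟨g0, hg0⟩ := equiv_of_graph
    (X := {z : Z // (S.lev z : ℕ∞) < L}) (Y := {z : Z' // (S'.lev z : ℕ∞) < L})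
    {p | (p.1.1, p.2.1) ∈ B'}
    (fun z => by
      obtain ⟨z', hz'⟩ := h7 z.1 z.2
      exact ⟨⟨z', by rw [← h4.lev hz']; exact z.2⟩, hz'⟩)
    (fun z' => by
      obtain ⟨z, hz⟩ := h8 z'.1 z'.2
      exact ⟨⟨z, by rw [h4.lev hz]; exact z'.2⟩, hz⟩)
    (fun {x y x' y'} a b => by
      rw [Subtype.ext_iff, Subtype.ext_iff]; exact h4.inj a b)
  let g : Z ≃ Z' := (Equiv.sumCompl (fun z : Z => (S.lev z : ℕ∞) < L)).symm.trans
    ((Equiv.sumCongr g0 w).trans (Equiv.sumCompl (fun z : Z' => (S'.lev z : ℕ∞) < L)))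
  have hg : ∀ z (hz : (S.lev z : ℕ∞) < L), g z = (g0 ⟨z, hz⟩).1 := by
    intro z hz
    simp [g, Equiv.sumCompl_symm_apply_of_pos, hz]
  have hg' : ∀ z (hz : ¬ (S.lev z : ℕ∞) < L), g z = (w ⟨z, hz⟩).1 := by
    intro z hz
    simp [g, Equiv.sumCompl_symm_apply_of_neg, hz]
  have hgB : ∀ z, (S.lev z : ℕ∞) < L → (z, g z) ∈ B' := by
    intro z hz
    rw [hg z hz]
    exact (hg0 ⟨z, hz⟩ (g0 ⟨z, hz⟩)).1 rfl
  have hBg : ∀ z z', (S.lev z : ℕ∞) < L → (z, z') ∈ B' → g z = z' := fun z z' hz hzz =>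
    (h4.inj (hgB z hz) hzz).1 rfl
  have hAf' : ∀ x x', (x, x') ∈ A' → f x = x' := fun x x' h => (hf x x').2 h
  have hfA : ∀ x, (x, f x) ∈ A' := fun x => (hf x (f x)).1 rfl
  refine ⟨f, g, ⟨fun x y => h3.ord (hfA x) (hfA y), fun x => hρ _ _ (h3.lab (hfA x)), ?_,
    fun z hz => h4.lev (hgB z hz), fun z hz => h4.cz (hgB z hz), ?_, ?_, ?_⟩,
    fun x x' h => hAf' x x' (h1 h), fun z z' h hz => hBg z z' hz (h2 h)⟩
  · intro z
    constructor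
    · intro hz
      rw [hg z hz]
      exact (g0 ⟨z, hz⟩).2
    · intro hz
      by_contra hn
      rw [hg' z hn] at hz
      exact (w ⟨z, hn⟩).2 hz
  · intro z hz hl
    refine hBg _ _ ?_ (h4.e (hgB z hz) hl)
    have := S.lev_e z hl
    exact lt_of_le_of_lt (by exact_mod_cast (by omega : S.lev (S.e z) ≤ S.lev z)) hz
  · intro z hz hl
    exact hAf' _ _ (h4.h (hgB z hz) hl)
  · intro z w' hz hl hne
    exact hAf' _ _ (h4.s (hgB z hz) (hgB w' (by rw [← hl]; exact hz)) hl hne)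

end Pool.Agent.Y567.MC
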