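import Pool.Agent.Y567.MC.Mark

/-!
The classification of the countable towers.
-/

set_option autoImplicit false

namespace Pool.Agent.Y567.MC

open Set

variable {H Z : Type} [LinearOrder H] (S : Sys H Z)

/-- there is a top point of level `k` -/
def TopL (k : ℕ) : Prop := ∃ z, S.lev z = k ∧ S.cz z = ⊤

/-- there is a height of infinite colour -/
def CInf : Prop := ∃ x, S.c x = ⊤

/-- least height of infinite colour -/
def CLeast (x : H) : Prop := S.c x = ⊤ ∧ ∀ y, S.c y = ⊤ → x ≤ y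

/-- the marked heights -/
def XS (k : ℕ) (u : H) : Prop := k ≠ 0 ∧ ∃ z, S.lev z = k ∧ S.cz z = ⊤ ∧ S.h z = u

variable {S}

theorem TopL.pred {k : ℕ} (h : TopL S (k + 1)) : TopL S k := by
  obtain ⟨z, h1, h2⟩ := h
  have h3 := S.lev_e z (by omega)
  have h4 := S.cz_e z (by omega)
  rw [h2] at h4
  exact ⟨S.e z, by omega, top_le_iff.1 h4⟩

theorem TopL.mono {k j : ℕ} (h : TopL S k) (hj : j ≤ k) : TopL S j := by
  induction k, hj using Nat.le_induction with
  | base => exact h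
  | succ k _ ih => exact ih h.pred

theorem top_unique (hC : ¬ CInf S) {z w : Z} (hl : S.lev z = S.lev w) (hz : S.cz z = ⊤)
    (hw : S.cz w = ⊤) : z = w := by
  by_contra hne
  exact hC ⟨_, S.s_top z w hl hne hz hw⟩

theorem top_below : ∀ (j i : ℕ) (z : Z), S.lev z = j → S.cz z = ⊤ → i ≠ 0 → i < j →
    ∃ w, S.lev w = i ∧ S.cz w = ⊤ ∧ S.h w < S.h z := by
  intro j
  induction j with
  | zero => intro i z _ _ _ h; omega
  | succ j ih =>
    intro i z hl hz hi hij
    have h3 := S.lev_e z (by omega)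
    have h4 := S.cz_e z (by omega)
    rw [hz] at h4
    have h5 := top_le_iff.1 h4
    have h6 := S.h_e z (by omega) (by omega)
    rcases Nat.lt_succ_iff_lt_or_eq.1 hij with h | h
    · obtain ⟨w, g1, g2, g3⟩ := ih i (S.e z) (by omega) h5 hi h
      exact ⟨w, g1, g2, g3.trans h6⟩
    · exact ⟨S.e z, by omega, h5, h6⟩

theorem mo_of (hF : FullSys S) (hC : ¬ CInf S) : MO S.c (XS S) where
  mono := fun x y h => S.c_mono h
  fin := fun x h => hC ⟨x, h⟩
  dens := hF.dens
  down := hF.down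
  up := hF.up
  all := hF.all
  x0 := by
    rintro k u ⟨hk, z, h1, h2, rfl⟩
    exact ⟨hk, S.c_h z (by omega)⟩
  xu := by
    rintro k u v ⟨hk, z, h1, h2, rfl⟩ ⟨_, w, h3, h4, rfl⟩
    rw [top_unique hC (h1.trans h3.symm) h2 h4]
  xm := by
    rintro i j u v ⟨hi, z, h1, h2, rfl⟩ ⟨hj, w, h3, h4, rfl⟩ hij
    obtain ⟨w', g1, g2, g3⟩ := top_below j i w h3 h4 hi hij
    rw [top_unique hC (h1.trans g1.symm) h2 g2]
    exact g3
  xi := by
    rintro i j v ⟨hj, w, h3, h4, rfl⟩ hi hij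
    obtain ⟨w', g1, g2, g3⟩ := top_below j i w h3 h4 hi hij
    exact ⟨_, hi, w', g1, g2, rfl⟩

variable {H' Z' : Type} [LinearOrder H'] {S' : Sys H' Z'}

theorem topExt_fin (hF : FullSys S) (hC : ¬ CInf S) (hF' : FullSys S') (hC' : ¬ CInf S')
    (hT : ∀ k, TopL S k → TopL S' k) :
    TopExt S S' (lab S.c (XS S)) (lab S'.c (XS S')) ⊤ := by
  have o := mo_of hF hC
  have o' := mo_of hF' hC'
  intro z w' y' hl _ hz hlw hw hρ hy hhw
  obtain ⟨z', h1, h2⟩ := hT (S.lev z) ⟨z, rfl, hz⟩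
  have h3 := S'.lev_e z' (by omega)
  have h4 := S'.cz_e z' (by omega)
  rw [h2] at h4
  refine ⟨z', h1, h2, top_unique hC' (by omega) (top_le_iff.1 h4) hw, ?_⟩
  simp only [lab, Prod.mk.injEq] at hρ
  obtain ⟨-, hA, hN⟩ := hρ
  have hX : XS S (S.lev z) (S.h z) := ⟨hl, z, rfl, hz, rfl⟩
  have hX' : XS S' (S.lev z) (S'.h z') := ⟨hl, z', h1, h2, rfl⟩
  have hnm : Nm S'.c (XS S') y' := by rw [← hN]; exact Or.inl ⟨_, hX⟩
  have hmem : ∀ k, k ∈ As (XS S) (S.h z) → k ≤ S.lev z := by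
    rintro k ⟨u, h5, h6⟩
    by_contra hn
    exact absurd (o.xm _ _ _ _ hX h5 (not_le.1 hn)) (not_lt.2 h6)
  have hk' : S.lev z ∈ As (XS S') y' := by rw [← hA]; exact ⟨_, hX, le_rfl⟩
  refine le_antisymm (o'.le_of_nm hX' hk') ?_
  rcases hnm with ⟨j, hj⟩ | h
  · have : j ≤ S.lev z := hmem j (by rw [hA]; exact ⟨_, hj, le_rfl⟩)
    exact o'.xle hj hX' this
  · exfalso
    obtain ⟨u, h5, h6⟩ := h.1.2 (S.lev z + 1) (by omega)
    have := hmem (S.lev z + 1) (by rw [hA]; exact ⟨_, h5, h6.le⟩)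
    omega

/-- labels in the case of heights of infinite colour -/
def lab0 (S : Sys H Z) (x : H) : ℕ∞ × Prop := (S.c x, CLeast S x)

theorem col0 (hF : FullSys S) : Col (lab0 S) (fun i => i.2) where
  single := by
    intro x y hx hxy
    simp only [lab0, Prod.mk.injEq] at hx hxy
    have hy : CLeast S y := by rw [hxy.2]; exact hx
    exact le_antisymm (hy.2 x hx.1) (hx.2 y hy.1)
  down := by
    intro x hx
    change ¬ CLeast S x at hx
    by_cases hc : S.c x = ⊤
    · have : ∃ y, S.c y = ⊤ ∧ y < x := by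
        by_contra hn
        push Not at hn
        exact hx ⟨hc, hn⟩
      obtain ⟨y, h1, h2⟩ := this
      obtain ⟨t, h3, h4⟩ := hF.dens y x h2
      have hct : S.c t = ⊤ := top_le_iff.1 (by rw [← h1]; exact S.c_mono h3.le)
      have hn : ¬ CLeast S t := fun h => absurd (h.2 y h1) (not_le.2 h3)
      exact ⟨t, h4, by simp only [lab0, hct, hc, hn, hx]⟩
    · obtain ⟨n, hn⟩ := ENat.ne_top_iff_exists.1 hc
      obtain ⟨y, h1, h2⟩ := hF.down n x hn.le
      have hcy : S.c y = S.c x := le_antisymm (S.c_mono h1.le) (by rw [← hn]; exact h2)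
      have hny : ¬ CLeast S y := fun h => hc (by rw [← hcy]; exact h.1)
      exact ⟨y, h1, by simp only [lab0, hcy, hny, hx]⟩
  up := by
    intro x hx
    change ¬ CLeast S x at hx
    by_cases hc : S.c x = ⊤
    · obtain ⟨y, h1⟩ := hF.nomax x
      have hcy : S.c y = ⊤ := top_le_iff.1 (by rw [← hc]; exact S.c_mono h1.le)
      have hn : ¬ CLeast S y := fun h => absurd (h.2 x hc) (not_le.2 h1)
      exact ⟨y, h1, by simp only [lab0, hcy, hc, hn, hx]⟩
    · obtain ⟨n, hn⟩ := ENat.ne_top_iff_exists.1 hc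
      obtain ⟨y, h1, h2⟩ := hF.up n x (by rw [← hn, Nat.cast_le]; omega)
      have hcy : S.c y = S.c x := by
        refine le_antisymm ?_ (S.c_mono h1.le)
        rw [← hn]
        have := not_le.1 h2
        rw [Nat.cast_add, Nat.cast_one] at this
        exact Order.le_of_lt_add_one this
      have hny : ¬ CLeast S y := fun h => hc (by rw [← hcy]; exact h.1)
      exact ⟨y, h1, by simp only [lab0, hcy, hny, hx]⟩
  mid := by
    intro x y hx hxy hlt
    change ¬ CLeast S x at hx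
    simp only [lab0, Prod.mk.injEq] at hxy
    obtain ⟨t, h1, h2⟩ := hF.dens x y hlt
    have hct : S.c t = S.c x :=
      le_antisymm ((S.c_mono h2.le).trans hxy.1.le) (S.c_mono h1.le)
    have hn : ¬ CLeast S t := fun h => absurd (h.2 x (by rw [← hct]; exact h.1)) (not_le.2 h1)
    exact ⟨t, h1, h2, by simp only [lab0, hct, hn, hx]⟩

theorem lab0_exists (hF' : FullSys S') (hC' : CInf S') (hM : (∃ x, CLeast S x) → ∃ x, CLeast S' x)
    (x : H) : ∃ x', lab0 S' x' = lab0 S x := by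
  by_cases hc : S.c x = ⊤
  · by_cases hx : CLeast S x
    · obtain ⟨x', hx'⟩ := hM ⟨x, hx⟩
      exact ⟨x', by simp only [lab0, hx'.1, hx.1, hx, hx']⟩
    · obtain ⟨y', hy'⟩ := hC'
      obtain ⟨x', h1⟩ := hF'.nomax y'
      have hcx : S'.c x' = ⊤ := top_le_iff.1 (by rw [← hy']; exact S'.c_mono h1.le)
      have hn : ¬ CLeast S' x' := fun h => absurd (h.2 y' hy') (not_le.2 h1)
      exact ⟨x', by simp only [lab0, hcx, hc, hn, hx]⟩
  · obtain ⟨n, hn⟩ := ENat.ne_top_iff_exists.1 hc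
    obtain ⟨x', hx'⟩ := hF'.all n
    have hcx : S'.c x' = S.c x := by rw [hx', hn]
    have h1 : ¬ CLeast S x := fun h => hc h.1
    have h2 : ¬ CLeast S' x' := fun h => hc (by rw [← hcx]; exact h.1)
    exact ⟨x', by simp only [lab0, hcx, h1, h2]⟩

theorem sep0_half {x y : H} {x' y' : H'} (h1 : lab0 S x = lab0 S' x') (h2 : lab0 S y = lab0 S' y')
    (h3 : lab0 S x ≠ lab0 S y) (hlt : x < y) : x' < y' := by
  simp only [lab0, Prod.mk.injEq] at h1 h2
  rcases (S.c_mono hlt.le).eq_or_lt with hc | hc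
  · have hN : CLeast S x ≠ CLeast S y := by
      intro h
      exact h3 (by simp only [lab0, hc, h])
    by_cases hx : CLeast S x
    · have hy : ¬ CLeast S y := fun h => hN (by rw [eq_iff_iff]; exact ⟨fun _ => h, fun _ => hx⟩)
      have hx' : CLeast S' x' := by rw [← h1.2]; exact hx
      have hy' : ¬ CLeast S' y' := by rw [← h2.2]; exact hy
      refine lt_of_le_of_ne (hx'.2 y' (by rw [← h2.1, ← hc]; exact hx.1)) ?_
      rintro rfl
      exact hy' hx'
    · exfalso
      have hy : CLeast S y := by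
        by_contra h
        exact hN (by rw [eq_iff_iff]; exact ⟨fun h' => absurd h' hx, fun h' => absurd h' h⟩)
      exact absurd (hy.2 x (by rw [hc]; exact hy.1)) (not_le.2 hlt)
  · rw [h1.1, h2.1] at hc
    exact S'.lt_of_c hc

theorem match0 (hF : FullSys S) (hC : CInf S) (hF' : FullSys S') (hC' : CInf S')
    (hM : (∃ x, CLeast S x) ↔ ∃ x, CLeast S' x) :
    Match (lab0 S) (lab0 S') (fun i => i.2) where
  col := col0 hF
  col' := col0 hF'
  lab := lab0_exists hF' hC' hM.1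
  lab' := lab0_exists hF hC hM.2
  sep := fun x x' y y' h1 h2 h3 => ⟨sep0_half h1 h2 h3, sep0_half h1.symm h2.symm
    (by rw [← h1, ← h2]; exact h3)⟩

theorem topExt0 (hC' : CInf S') (hT : ∀ k, TopL S k → TopL S' k) (ρ : H → ℕ∞ × Prop)
    (ρ' : H' → ℕ∞ × Prop) : TopExt S S' ρ ρ' ⊤ := by
  intro z w' y' hl _ hz hlw hw _ hy hhw
  obtain ⟨a, ha, ha'⟩ := hT (S.lev z) ⟨z, rfl, hz⟩
  have h3 := S'.lev_e a (by omega)
  have h4 := S'.cz_e a (by omega)
  rw [ha'] at h4
  obtain ⟨q, hq1, hq2⟩ : ∃ q, S'.c q = ⊤ ∧ (w' = S'.e a ∨ q ≤ S'.s w' (S'.e a)) := by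
    by_cases h : w' = S'.e a
    · obtain ⟨x, hx⟩ := hC'
      exact ⟨x, hx, Or.inl h⟩
    · exact ⟨_, S'.s_top w' (S'.e a) (by omega) h hw (top_le_iff.1 h4), Or.inr le_rfl⟩
  obtain ⟨z', z1, z2, z3, ⟨z4, z5⟩, -⟩ := S'.ext a w' q y' ∅ Set.finite_empty (by omega) hq2
    (by rw [hq1]; exact le_top) hy hhw (by simp)
  refine ⟨z', by omega, ?_, z1, z3⟩
  by_contra h6
  have h7 := S'.s_d z' a z2 h6 ha'
  rw [S'.s_comm _ _ z2 z4.symm, z5] at h7
  have h8 := S'.c_d z' h6
  rw [← h7, hq1] at h8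
  exact h6 h8.symm

/-- the invariants agree -/
structure SameInv (S : Sys H Z) (S' : Sys H' Z') : Prop where
  top : ∀ k, TopL S k ↔ TopL S' k
  inf : CInf S ↔ CInf S'
  least : (∃ x, CLeast S x) ↔ ∃ x, CLeast S' x
  dp : (∃ y, Dp S.c (XS S) y) ↔ ∃ y, Dp S'.c (XS S') y
  dm : (∃ y, Dm S.c (XS S) y) ↔ ∃ y, Dm S'.c (XS S') y

/-- The classification. -/
theorem classify [Countable H] [Countable Z] [Countable H'] [Countable Z'] (hF : FullSys S)
    (hF' : FullSys S') (hI : SameInv S S') {W W' : Type} (w : W ≃ W') :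
    ∃ F : H ⊕ Z ⊕ W ≃ H' ⊕ Z' ⊕ W', ∀ N, IsoN (str S W) (str S' W') N F := by
  have hW : Nonempty ({z : Z // ¬ (S.lev z : ℕ∞) < ⊤} ≃ {z : Z' // ¬ (S'.lev z : ℕ∞) < ⊤}) := by
    have h1 : IsEmpty {z : Z // ¬ (S.lev z : ℕ∞) < ⊤} := ⟨fun z => z.2 (ENat.natCast_lt_top _)⟩
    have h2 : IsEmpty {z : Z' // ¬ (S'.lev z : ℕ∞) < ⊤} := ⟨fun z => z.2 (ENat.natCast_lt_top _)⟩
    exact ⟨Equiv.equivOfIsEmpty _ _⟩
  suffices h : ∃ (f : H ≃ H') (g : Z ≃ Z'), Iso S S' f g ⊤ by
    obtain ⟨f, g, hi⟩ := h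
    exact ⟨bij f g w, fun N n R v _ => hi.rIso.rel_iff w R v le_top⟩
  by_cases hC : CInf S
  · have hC' := hI.inf.1 hC
    obtain ⟨f, g, hi, -⟩ := exists_iso S S' (match0 hF hC hF' hC' hI.least)
      (fun x x' h => congrArg Prod.fst h) (topExt0 hC' (fun k => (hI.top k).1) _ _)
      (topExt0 hC (fun k => (hI.top k).2) _ _) hW (A := ∅) (B := ∅)
      ⟨fun h => h.elim, fun h => h.elim⟩ Set.finite_empty
      ⟨fun h => h.elim, fun h => h.elim, fun h => h.elim, fun h => h.elim, fun h => h.elim,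
        fun h => h.elim, fun h => h.elim⟩ Set.finite_empty
    exact ⟨f, g, hi⟩
  · have hC' : ¬ CInf S' := fun h => hC (hI.inf.2 h)
    have o := mo_of hF hC
    have o' := mo_of hF' hC'
    have hE : ∀ k, (∃ u, XS S k u) ↔ ∃ u, XS S' k u := by
      intro k
      constructor
      · rintro ⟨u, hk, z, h1, h2, -⟩
        obtain ⟨z', h3, h4⟩ := (hI.top k).1 ⟨z, h1, h2⟩
        exact ⟨_, hk, z', h3, h4, rfl⟩
      · rintro ⟨u, hk, z, h1, h2, -⟩
        obtain ⟨z', h3, h4⟩ := (hI.top k).2 ⟨z, h1, h2⟩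
        exact ⟨_, hk, z', h3, h4, rfl⟩
    obtain ⟨f, g, hi, -⟩ := exists_iso S S' (o.match o' hE hI.dp hI.dm)
      (fun x x' h => congrArg Prod.fst h)
      (topExt_fin hF hC hF' hC' (fun k => (hI.top k).1))
      (topExt_fin hF' hC' hF hC (fun k => (hI.top k).2)) hW (A := ∅) (B := ∅)
      ⟨fun h => h.elim, fun h => h.elim⟩ Set.finite_empty
      ⟨fun h => h.elim, fun h => h.elim, fun h => h.elim, fun h => h.elim, fun h => h.elim,
        fun h => h.elim, fun h => h.elim⟩ Set.finite_empty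
    exact ⟨f, g, hi⟩

/-- the number of levels with top points -/
noncomputable def nTop (S : Sys H Z) : Option ℕ := by
  classical exact if h : ∃ k, ¬ TopL S k then some (Nat.find h) else none

theorem topL_iff (S : Sys H Z) (k : ℕ) : TopL S k ↔ ∀ n, nTop S = some n → k < n := by
  classical
  constructor
  · intro hk n hn
    unfold nTop at hn
    split_ifs at hn with h
    simp only [Option.some.injEq] at hn
    by_contra hlt
    exact Nat.find_spec h (by rw [hn]; exact hk.mono (not_lt.1 hlt))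
  · intro h
    by_contra hk
    have hex : ∃ k, ¬ TopL S k := ⟨k, hk⟩
    have := h (Nat.find hex) (by unfold nTop; rw [dif_pos hex])
    exact absurd (Nat.find_min' hex hk) (not_le.2 this)

/-- the invariant -/
noncomputable def inv (S : Sys H Z) (W : Type) : Option ℕ × Prop × Prop × Prop × Prop × ℕ∞ :=
  (nTop S, CInf S, (∃ x, CLeast S x), (∃ y, Dp S.c (XS S) y), (∃ y, Dm S.c (XS S) y), ENat.card W)

theorem classify_inv [Countable H] [Countable Z] [Countable H'] [Countable Z'] (hF : FullSys S)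
    (hF' : FullSys S') {W W' : Type} [Countable W] [Countable W']
    (h : inv S W = inv S' W') :
    ∃ F : H ⊕ Z ⊕ W ≃ H' ⊕ Z' ⊕ W', ∀ N, IsoN (str S W) (str S' W') N F := by
  simp only [inv, Prod.mk.injEq] at h
  obtain ⟨h1, h2, h3, h4, h5, h6⟩ := h
  have hw : Nonempty (W ≃ W') := by
    rcases finite_or_infinite W with hW | hW
    · have hW' : Finite W' := by
        rw [← ENat.card_lt_top, ← h6]
        exact ENat.card_lt_top.2 hW
      have := Fintype.ofFinite W
      have := Fintype.ofFinite W'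
      rw [ENat.card_eq_coe_fintype_card, ENat.card_eq_coe_fintype_card] at h6
      exact Fintype.card_eq.1 (by exact_mod_cast h6)
    · have hW' : Infinite W' := by
        rw [← ENat.card_eq_top, ← h6]
        exact ENat.card_eq_top.2 hW
      exact nonempty_equiv_of_countable
  obtain ⟨w⟩ := hw
  exact classify hF hF' ⟨fun k => by rw [topL_iff, topL_iff, h1], h2.to_iff, h3.to_iff, h4.to_iff,
    h5.to_iff⟩ w

end Pool.Agent.Y567.MC
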