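import Pool.Agent.Y567.MC.AxStd

/-!
Every model of the axioms is the structure of a tower with isolated points.
-/

set_option autoImplicit false

namespace Pool.Agent.Y567.MC

open Set FirstOrder FirstOrder.Language

theorem exists_col (p : ℕ → Prop) (p0 : p 0) (pd : ∀ n, p (n + 1) → p n) :
    ∃ c : ℕ∞, ∀ n : ℕ, (n : ℕ∞) ≤ c ↔ p n := by
  classical
  by_cases h : ∃ n, ¬ p n
  · have h1 : Nat.find h ≠ 0 := by
      intro h0
      exact Nat.find_spec h (by rw [h0]; exact p0)
    obtain ⟨k, hk⟩ : ∃ k, Nat.find h = k + 1 := ⟨_, (Nat.succ_pred_eq_of_ne_zero h1).symm⟩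
    refine ⟨(k : ℕ∞), fun n => ?_⟩
    rw [Nat.cast_le]
    constructor
    · intro hn
      by_contra hp
      have := Nat.find_min' h hp
      omega
    · intro hp
      by_contra hn
      have h2 : ∀ j, p (k + 1 + j) → p (k + 1) := by
        intro j
        induction j with
        | zero => exact id
        | succ j ih => exact fun h3 => ih (pd _ h3)
      have h3 : k + 1 + (n - (k + 1)) = n := by omega
      exact (hk ▸ Nat.find_spec h) (h2 (n - (k + 1)) (by rw [h3]; exact hp))
  · push Not at h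
    exact ⟨⊤, fun n => ⟨fun _ => h n, fun _ => le_top⟩⟩

theorem le_of_nat {c c' : ℕ∞} (h : ∀ n : ℕ, (n : ℕ∞) ≤ c → (n : ℕ∞) ≤ c') : c ≤ c' := by
  rw [← ENat.forall_natCast_le_iff_le]
  exact h

section conv

variable {M : Type} {S : Lg.Structure M} (m : Mdl S)

/-- heights -/
abbrev HS (S : Lg.Structure M) : Type := {x : M // pU S 0 x}

/-- points -/
abbrev ZS (S : Lg.Structure M) : Type := {x : M // ∃ k, pP S k 0 x}

/-- the rest -/
abbrev WS (S : Lg.Structure M) : Type := {x : M // ¬ pU S 0 x ∧ ¬ ∃ k, pP S k 0 x}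

include m

theorem Mdl.le_trans' {x y z : M} (hx : pU S 0 x) (hy : pU S 0 y) (h1 : ¬ pL S y x)
    (h2 : ¬ pL S z y) (hz : pU S 0 z) : ¬ pL S z x := by
  intro h3
  rcases m.a4 x y hx hy with h4 | h4 | h4
  · exact h2 (m.a3 _ _ _ h3 h4)
  · subst h4; exact h2 h3
  · exact h1 h4

/-- the linear order of the heights -/
@[instance_reducible] noncomputable def Mdl.lo : LinearOrder (HS S) where
  le a b := ¬ pL S b.1 a.1
  lt a b := pL S a.1 b.1
  le_refl a := m.a2 a.1
  le_trans a b c h1 h2 := m.le_trans' a.2 b.2 h1 h2 c.2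
  lt_iff_le_not_ge a b := by
    constructor
    · intro h
      exact ⟨fun h1 => m.a2 _ (m.a3 _ _ _ h h1), fun h1 => h1 h⟩
    · rintro ⟨-, h⟩
      by_contra h1
      exact h h1
  le_antisymm a b h1 h2 := by
    rcases m.a4 a.1 b.1 a.2 b.2 with h3 | h3 | h3
    · exact absurd h3 h2
    · exact Subtype.ext h3
    · exact absurd h3 h1
  le_total a b := by
    by_cases h : pL S b.1 a.1
    · right
      exact fun h1 => m.a2 _ (m.a3 _ _ _ h h1)
    · exact Or.inl h
  toDecidableLE := Classical.decRel _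

theorem Mdl.U0 {n : ℕ} {x : M} (h : pU S n x) : pU S 0 x := by
  induction n with
  | zero => exact h
  | succ n ih => exact ih (m.a5 n x h)

theorem Mdl.P0 {k n : ℕ} {x : M} (h : pP S k n x) : pP S k 0 x := by
  induction n with
  | zero => exact h
  | succ n ih => exact ih (m.b1 k n x h)

theorem Mdl.Pmono {k n n' : ℕ} {x : M} (h : pP S k n x) (hn : n' ≤ n) : pP S k n' x := by
  induction n, hn using Nat.le_induction with
  | base => exact h
  | succ n _ ih => exact ih (m.b1 k n x h)

theorem Mdl.exists_tower : ∃ (_ : LinearOrder (HS S)) (T : Sys (HS S) (ZS S)), FullSys T ∧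
    ∃ F : HS S ⊕ ZS S ⊕ WS S ≃ M, ∀ N, IsoN (str T (WS S)) S N F := by
  classical
  letI lo := m.lo
  have lt_iff : ∀ x y : HS S, x < y ↔ pL S x.1 y.1 := fun _ _ => Iff.rfl
  -- levels
  have hlev : ∀ z : ZS S, ∃ k, pP S k 0 z.1 := fun z => z.2
  choose lev hlev using hlev
  have lev_eq : ∀ (z : ZS S) (k n : ℕ), pP S k n z.1 → lev z = k := by
    intro z k n h
    by_contra hne
    exact m.b4 _ _ hne _ (hlev z) (m.P0 h)
  -- colours
  have hc : ∀ x : HS S, ∃ c : ℕ∞, ∀ n : ℕ, (n : ℕ∞) ≤ c ↔ pU S n x.1 := fun x =>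
    exists_col _ x.2 (fun n => m.a5 n x.1)
  choose c hc using hc
  have hcz : ∀ z : ZS S, ∃ c : ℕ∞, ∀ n : ℕ, (n : ℕ∞) ≤ c ↔ pP S (lev z) n z.1 := fun z =>
    exists_col _ (hlev z) (fun n => m.b1 _ n z.1)
  choose cz hcz using hcz
  -- the root is the only point of level `0`
  have hroot : ∀ z w : ZS S, lev z = 0 → lev w = 0 → z = w := by
    intro z w h1 h2
    have h3 := hlev z
    have h4 := hlev w
    rw [h1] at h3
    rw [h2] at h4
    exact Subtype.ext (m.b5 _ _ h3 h4)
  obtain ⟨x00, hx00⟩ := m.a11 0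
  -- predecessors
  have he : ∀ z : ZS S, ∃ w : ZS S, ∀ k, lev z = k + 1 → pE S k z.1 w.1 := by
    intro z
    rcases Nat.eq_zero_or_eq_succ_pred (lev z) with h | h
    · exact ⟨z, fun k hk => by omega⟩
    · obtain ⟨w, hw⟩ := m.e3 (lev z).pred z.1 (by rw [← Nat.succ_eq_add_one, ← h]; exact hlev z)
      refine ⟨⟨w, _, (m.e1 _ _ _ hw).2⟩, fun k hk => ?_⟩
      have : k = (lev z).pred := by rw [hk]; rfl
      rw [this]; exact hw
  choose e he using he
  have hh : ∀ z : ZS S, ∃ y : HS S, ∀ k, lev z = k + 1 → pG S k z.1 y.1 := by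
    intro z
    rcases Nat.eq_zero_or_eq_succ_pred (lev z) with h | h
    · exact ⟨⟨x00, hx00.1⟩, fun k hk => by omega⟩
    · obtain ⟨w, hw⟩ := m.g3 (lev z).pred z.1 (by rw [← Nat.succ_eq_add_one, ← h]; exact hlev z)
      refine ⟨⟨w, (m.g1 _ _ _ hw).2.1⟩, fun k hk => ?_⟩
      have : k = (lev z).pred := by rw [hk]; rfl
      rw [this]; exact hw
  choose hf hh using hh
  have hs : ∀ z w : ZS S, ∃ x : HS S, ∀ k, lev z = k + 1 → lev w = k + 1 → z ≠ w →
      pD S k z.1 w.1 x.1 := by
    intro z w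
    by_cases hcond : ∃ k, lev z = k + 1 ∧ lev w = k + 1 ∧ z ≠ w
    · obtain ⟨k, h1, h2, h3⟩ := hcond
      have h4 := hlev z
      have h5 := hlev w
      rw [h1] at h4
      rw [h2] at h5
      obtain ⟨x, hx⟩ := m.d3 k z.1 w.1 h4 h5 (fun h => h3 (Subtype.ext h))
      refine ⟨⟨x, m.U0 (m.d1 _ _ _ _ hx).2.2.2⟩, fun k' hk' _ _ => ?_⟩
      have : k' = k := by omega
      rw [this]; exact hx
    · exact ⟨⟨x00, hx00.1⟩, fun k h1 h2 h3 => absurd ⟨k, h1, h2, h3⟩ hcond⟩
  choose s hs using hs
  -- `s` in terms of levels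
  have hsk : ∀ z w : ZS S, lev z = lev w → z ≠ w → ∃ k, lev z = k + 1 ∧ lev w = k + 1 ∧
      pD S k z.1 w.1 (s z w).1 := by
    intro z w hl hne
    rcases Nat.eq_zero_or_eq_succ_pred (lev z) with h | h
    · exact absurd (hroot z w h (by omega)) hne
    · exact ⟨(lev z).pred, h, by omega, hs z w _ h (by omega) hne⟩
  have s_comm : ∀ z w : ZS S, lev z = lev w → z ≠ w → s z w = s w z := by
    intro z w hl hne
    obtain ⟨k, h1, h2, h3⟩ := hsk z w hl hne
    exact Subtype.ext (m.d2 k _ _ _ _ h3 (m.d4 k _ _ _ (hs w z k h2 h1 hne.symm)))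
  have ultra : ∀ x y z : ZS S, lev x = lev y → lev y = lev z → x ≠ y → y ≠ z → x ≠ z →
      min (s x y) (s y z) ≤ s x z := by
    intro x y z h1 h2 n1 n2 n3
    obtain ⟨k, h3, h4, h5⟩ := hsk x y h1 n1
    have h6 := hs y z k h4 (by omega) n2
    have h7 := hs x z k h3 (by omega) n3
    by_contra hn
    exact m.d5 k _ _ _ _ _ _ h5 h6 h7 (lt_min_iff.1 (not_le.1 hn))
  -- colours of distances
  have d6 : ∀ z w : ZS S, lev z = lev w → z ≠ w → ∀ n : ℕ, (n : ℕ∞) ≤ cz z →
      ((n : ℕ∞) ≤ cz w ↔ (n : ℕ∞) ≤ c (s z w)) := by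
    intro z w hl hne n hn
    obtain ⟨k, h1, h2, h3⟩ := hsk z w hl hne
    rw [hcz, hc, h2]
    rw [hcz, h1] at hn
    exact m.d6 k n _ _ _ h3 hn
  have cs : ∀ z w : ZS S, lev z = lev w → cz z < cz w → c (s z w) = cz z := by
    intro z w hl hlt
    have hne : z ≠ w := by rintro rfl; exact lt_irrefl _ hlt
    refine le_antisymm (le_of_nat fun n hn => ?_) (le_of_nat fun n hn => ?_)
    · by_contra hcon
      obtain ⟨j, hj⟩ := ENat.ne_top_iff_exists.1 (ne_top_of_lt hlt)
      rw [← hj] at hlt hcon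
      have h1 : ((j + 1 : ℕ) : ℕ∞) ≤ cz w := by
        rw [Nat.cast_add, Nat.cast_one]; exact Order.add_one_le_of_lt hlt
      have h2 : ((j + 1 : ℕ) : ℕ∞) ≤ n := by
        rw [Nat.cast_add, Nat.cast_one]; exact Order.add_one_le_of_lt (not_le.1 hcon)
      have h3 := (d6 w z hl.symm hne.symm (j + 1) h1).2 (by
        rw [← s_comm z w hl hne]; exact h2.trans hn)
      rw [← hj, Nat.cast_le] at h3
      omega
    · exact (d6 z w hl hne n hn).1 (hn.trans hlt.le)
  have cs2 : ∀ z w : ZS S, lev z = lev w → z ≠ w → ∀ n : ℕ, (n : ℕ∞) ≤ cz z → (n : ℕ∞) ≤ cz w →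
      (n : ℕ∞) ≤ c (s z w) := fun z w hl hne n h1 h2 => (d6 z w hl hne n h1).1 h2
  have c_mono : ∀ x y : HS S, x ≤ y → c x ≤ c y := by
    intro x y hxy
    refine le_of_nat fun n hn => ?_
    rcases hxy.eq_or_lt with h | h
    · rw [← h]; exact hn
    · rw [hc] at hn ⊢
      exact m.a6 n _ _ hn h
  have lt_of_c : ∀ x y : HS S, c x < c y → x < y := by
    intro x y h
    by_contra hn
    exact absurd (c_mono _ _ (not_lt.1 hn)) (not_le.2 h)
  -- points of large colour
  have hbig : ∀ (k : ℕ) (c0 : ℕ∞), c0 ≠ ⊤ → ∃ z : ZS S, lev z = k ∧ c0 < cz z := by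
    intro k c0 h0
    obtain ⟨j, rfl⟩ := ENat.ne_top_iff_exists.1 h0
    obtain ⟨x, hx⟩ := m.b7 k (j + 1)
    have hl : lev ⟨x, k, m.P0 hx⟩ = k := lev_eq _ k _ hx
    refine ⟨⟨x, k, m.P0 hx⟩, hl, ?_⟩
    have : ((j + 1 : ℕ) : ℕ∞) ≤ cz ⟨x, k, m.P0 hx⟩ := by rw [hcz, hl]; exact hx
    exact lt_of_lt_of_le (by exact_mod_cast Nat.lt_succ_self j) this
  -- distance to larger colours
  have hconst : ∀ z b b' : ZS S, lev b = lev z → lev b' = lev z → cz z < cz b → cz z < cz b' →
      s z b = s z b' := by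
    have half : ∀ z b b' : ZS S, lev b = lev z → lev b' = lev z → cz z < cz b → cz z < cz b' →
        b ≠ b' → s z b ≤ s z b' := by
      intro z b b' h1 h2 h3 h4 hne
      have n1 : z ≠ b := by rintro rfl; exact lt_irrefl _ h3
      have n2 : z ≠ b' := by rintro rfl; exact lt_irrefl _ h4
      have h5 := ultra z b b' h1.symm (h1.trans h2.symm) n1 hne n2
      obtain ⟨j, hj⟩ := ENat.ne_top_iff_exists.1 (ne_top_of_lt h3)
      have h6 : s z b < s b b' := by
        refine lt_of_c _ _ ?_
        rw [cs z b h1.symm h3, ← hj]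
        have h7 : ((j + 1 : ℕ) : ℕ∞) ≤ c (s b b') := by
          refine cs2 b b' (h1.trans h2.symm) hne (j + 1) ?_ ?_
          · rw [← hj] at h3
            rw [Nat.cast_add, Nat.cast_one]; exact Order.add_one_le_of_lt h3
          · rw [← hj] at h4
            rw [Nat.cast_add, Nat.cast_one]; exact Order.add_one_le_of_lt h4
        exact lt_of_lt_of_le (by exact_mod_cast Nat.lt_succ_self j) h7
      rwa [min_eq_left h6.le] at h5
    intro z b b' h1 h2 h3 h4
    by_cases hne : b = b'
    · rw [hne]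
    · exact le_antisymm (half z b b' h1 h2 h3 h4 hne) (half z b' b h2 h1 h4 h3 (Ne.symm hne))
  have hd : ∀ z : ZS S, ∃ x : HS S, ∀ b : ZS S, lev b = lev z → cz z < cz b → s z b = x := by
    intro z
    by_cases h : ∃ b : ZS S, lev b = lev z ∧ cz z < cz b
    · obtain ⟨b, h1, h2⟩ := h
      exact ⟨s z b, fun b' h3 h4 => hconst z b' b h3 h1 h4 h2⟩
    · exact ⟨⟨x00, hx00.1⟩, fun b h1 h2 => absurd ⟨b, h1, h2⟩ h⟩
  choose d hd using hd
  have lev_e : ∀ z, lev z ≠ 0 → lev (e z) + 1 = lev z := by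
    intro z hz
    obtain ⟨k, hk⟩ : ∃ k, lev z = k + 1 := ⟨_, (Nat.succ_pred_eq_of_ne_zero hz).symm⟩
    have h1 := he z k hk
    rw [lev_eq (e z) k 0 (m.e1 _ _ _ h1).2, hk]
  have cz_e : ∀ z, lev z ≠ 0 → cz z ≤ cz (e z) := by
    intro z hz
    obtain ⟨k, hk⟩ : ∃ k, lev z = k + 1 := ⟨_, (Nat.succ_pred_eq_of_ne_zero hz).symm⟩
    have h1 := he z k hk
    have h2 := lev_e z hz
    refine le_of_nat fun n hn => ?_
    rw [hcz] at hn ⊢
    rw [hk] at hn
    rw [show lev (e z) = k by omega]
    exact m.e4 k n _ _ hn h1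
  have cz_root : ∀ z, lev z = 0 → cz z = ⊤ := by
    intro z hz
    rw [← top_le_iff]
    refine le_of_nat fun n _ => ?_
    rw [hcz, hz]
    have := hlev z
    rw [hz] at this
    exact m.b6 n _ this
  have s_e : ∀ z w, lev z = lev w → lev z ≠ 0 → e z ≠ e w → s z w ≤ s (e z) (e w) := by
    intro z w hl hz hne
    have hzw : z ≠ w := fun h => hne (by rw [h])
    obtain ⟨k, h1, h2, h3⟩ := hsk z w hl hzw
    have g1 := lev_e z hz
    have g2 := lev_e w (by omega)
    obtain ⟨j, h4, h5, h6⟩ := hsk (e z) (e w) (by omega) hne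
    have hkj : k = j + 1 := by omega
    subst hkj
    exact m.d7 j _ _ _ _ _ _ h3 (he z _ h1) (he w _ h2) h6
  have s_top : ∀ z w, lev z = lev w → z ≠ w → cz z = ⊤ → cz w = ⊤ → c (s z w) = ⊤ := by
    intro z w hl hne h1 h2
    rw [← top_le_iff]
    exact le_of_nat fun n _ => cs2 z w hl hne n (by rw [h1]; exact le_top) (by rw [h2]; exact le_top)
  have hexb : ∀ z w : ZS S, lev z = lev w → cz z ≠ ⊤ → cz w ≠ ⊤ → ∃ b, lev b = lev z ∧
      cz z < cz b ∧ cz w < cz b := by
    intro z w hl h1 h2
    obtain ⟨b, h3, h4⟩ := hbig (lev z) (max (cz z) (cz w)) (by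
      rcases max_choice (cz z) (cz w) with h | h <;> rw [h] <;> assumption)
    exact ⟨b, h3, (le_max_left _ _).trans_lt h4, (le_max_right _ _).trans_lt h4⟩
  let T : Sys (HS S) (ZS S) :=
    { c := c, lev := lev, e := e, cz := cz, h := hf, s := s, d := d
      c_mono := fun x y => c_mono x y
      lev_e := lev_e
      root_ex := by
        obtain ⟨x, hx⟩ := m.b7 0 0
        exact ⟨⟨x, 0, hx⟩, lev_eq _ 0 _ hx⟩
      root_eq := hroot
      cz_root := cz_root
      cz_pos := fun z => by
        have : ((1 : ℕ) : ℕ∞) ≤ cz z := by rw [hcz]; exact m.b2 _ _ (hlev z)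
        exact_mod_cast this
      cz_e := cz_e
      c_h := by
        intro z hz
        obtain ⟨k, hk⟩ : ∃ k, lev z = k + 1 := ⟨_, (Nat.succ_pred_eq_of_ne_zero hz).symm⟩
        have h1 := (m.g1 _ _ _ (hh z k hk)).2.2
        by_contra hne
        apply h1
        rw [← hc]
        exact_mod_cast Order.one_le_iff_ne_zero.2 hne
      h_e := by
        intro z hz hz'
        have h1 := lev_e z hz
        obtain ⟨k, hk⟩ : ∃ k, lev (e z) = k + 1 := ⟨_, (Nat.succ_pred_eq_of_ne_zero hz').symm⟩
        exact m.g4 k _ _ _ _ (he z (k + 1) (by omega)) (hh z (k + 1) (by omega)) (hh (e z) k hk)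
      s_comm := s_comm
      ultra := ultra
      c_s := by
        intro z w hl hne
        obtain ⟨k, h1, h2, h3⟩ := hsk z w hl hne
        have : ((1 : ℕ) : ℕ∞) ≤ c (s z w) := by rw [hc]; exact (m.d1 _ _ _ _ h3).2.2.2
        exact_mod_cast this
      s_top := s_top
      s_d := by
        intro z w hl h1 h2
        exact hd z w hl.symm (by rw [h2]; exact lt_top_iff_ne_top.2 h1)
      c_d := by
        intro z hz
        obtain ⟨b, h1, h2, -⟩ := hexb z z rfl hz hz
        rw [← hd z b h1 h2, cs z b h1.symm h2]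
      d1 := by
        intro z w hl hne h1 h2
        obtain ⟨b, h3, h4, h5⟩ := hexb z w hl h1 h2
        have n1 : z ≠ b := by rintro rfl; exact lt_irrefl _ h4
        have n2 : w ≠ b := by rintro rfl; exact lt_irrefl _ h5
        rw [← hd z b h3 h4, ← hd w b (by omega) h5, min_comm, s_comm z w hl hne]
        exact ultra w z b hl.symm h3.symm hne.symm n1 n2
      d2 := by
        intro z w hl hne h1 h2
        obtain ⟨b, h3, h4, h5⟩ := hexb z w hl h1 h2
        have n1 : z ≠ b := by rintro rfl; exact lt_irrefl _ h4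
        have n2 : w ≠ b := by rintro rfl; exact lt_irrefl _ h5
        rw [← hd z b h3 h4, ← hd w b (by omega) h5, s_comm w b (by omega) n2]
        exact ultra z b w h3.symm (by omega) n1 n2.symm hne
      s_e := s_e
      d_e := by
        intro z hz h1 h2
        have g0 := lev_e z hz
        obtain ⟨b, h3, h4⟩ := hbig (lev z) (max (cz z) (cz (e z))) (by
          rcases max_choice (cz z) (cz (e z)) with h | h <;> rw [h] <;> assumption)
        have h5 := (le_max_left _ _).trans_lt h4
        have h6 := (le_max_right _ _).trans_lt h4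
        have g1 := lev_e b (by omega)
        have h7 : cz (e z) < cz (e b) := h6.trans_le (cz_e b (by omega))
        have hne : e z ≠ e b := by
          intro h
          rw [h] at h7
          exact lt_irrefl _ h7
        rw [← hd z b h3 h5, ← hd (e z) (e b) (by omega) h7]
        exact s_e z b h3.symm hz hne
      unb := fun k _ x hx => hbig k (c x) hx
      ext := by
        intro a w q y F hF hlw hcond hq hy hhw hFa
        obtain ⟨k, hk⟩ : ∃ k, lev a = k + 1 := ⟨lev w, hlw.symm⟩
        have hlwk : lev w = k := by omega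
        obtain ⟨z, z1, z2, z3, z4⟩ := m.x1 k _ a.1 w.1 q.1 y.1
          (hF.toFinset.toList.map Subtype.val) rfl
          ⟨by rw [← hk]; exact hlev a, by rw [← hlwk]; exact hlev w,
            by rw [← hc]; exact_mod_cast hq, y.2, by
              rw [← hc, hy]
              simp, by
              intro y' hy'
              cases k with
              | zero => exact hy'.elim
              | succ k =>
                have h1 := hh w k hlwk
                have h2 : y' = (hf w).1 := m.g2 k _ _ _ hy' h1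
                rw [h2]
                exact hhw (by omega), by
              intro v hv
              have h1 : v = (e a).1 := m.e2 k _ _ _ hv (he a k hk)
              rw [h1]
              rcases hcond with h2 | h2
              · exact Or.inl (by rw [h2])
              · by_cases h3 : w = e a
                · exact Or.inl (by rw [h3])
                · right
                  have h4 := lev_e a (by omega)
                  obtain ⟨j, h5, h6, h7⟩ := hsk w (e a) (by omega) h3
                  have hkj : k = j + 1 := by omega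
                  subst hkj
                  exact ⟨_, h7, h2⟩, by
              intro b hb
              simp only [List.mem_map, Finset.mem_toList, Set.Finite.mem_toFinset] at hb
              obtain ⟨b0, hb0, rfl⟩ := hb
              rcases hFa b0 hb0 with h1 | ⟨h1, h2⟩
              · exact Or.inl (by rw [h1])
              · by_cases h3 : b0 = a
                · exact Or.inl (by rw [h3])
                · exact Or.inr ⟨_, hs b0 a k (by omega) hk h3, h2⟩⟩
        have hz0 := (m.e1 _ _ _ z1).1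
        have hlz : lev ⟨z, k + 1, hz0⟩ = k + 1 := lev_eq _ (k + 1) 0 hz0
        have hsD : ∀ b : ZS S, pD S k b.1 z q.1 → b ≠ ⟨z, k + 1, hz0⟩ ∧ s b ⟨z, k + 1, hz0⟩ = q := by
          intro b hb
          obtain ⟨h1, h2, h3, h4⟩ := m.d1 _ _ _ _ hb
          have hne : b ≠ ⟨z, k + 1, hz0⟩ := fun h => h3 (by rw [h])
          exact ⟨hne, Subtype.ext (m.d2 k _ _ _ _ (hs b _ k (lev_eq b _ _ h1) hlz hne) hb)⟩
        refine ⟨⟨z, k + 1, hz0⟩, Subtype.ext (m.e2 k _ _ _ (he _ k hlz) z1), by rw [hlz, hk],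
          Subtype.ext (m.g2 k _ _ _ (hh _ k hlz) z2), hsD a z3, fun b hb => hsD b (z4 b.1 ?_)⟩
        simp only [List.mem_map, Finset.mem_toList, Set.Finite.mem_toFinset]
        exact ⟨b, hb, rfl⟩ }
  refine ⟨lo, T, ⟨?_, ?_, ?_, ?_, ?_, ?_⟩, ?_⟩
  · intro x y hxy
    obtain ⟨z, h1, h2⟩ := m.a7 x.1 y.1 hxy
    exact ⟨⟨z, (m.a1 _ _ h1).2⟩, h1, h2⟩
  · intro x
    obtain ⟨y, h1⟩ := m.a10 x.1 x.2
    exact ⟨⟨y, (m.a1 _ _ h1).2⟩, h1⟩
  · intro n x hx
    obtain ⟨y, h1, h2⟩ := m.a8 n x.1 ((hc x n).1 hx)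
    exact ⟨⟨y, m.U0 h1⟩, h2, (hc _ n).2 h1⟩
  · intro n x hx
    obtain ⟨y, h1, h2⟩ := m.a9 n x.1 x.2 (fun h => hx ((hc x (n + 1)).2 h))
    exact ⟨⟨y, (m.a1 _ _ h1).2⟩, h1, fun h => h2 ((hc _ (n + 1)).1 h)⟩
  · intro n
    obtain ⟨x, h1, h2⟩ := m.a11 n
    refine ⟨⟨x, m.U0 h1⟩, le_antisymm ?_ ((hc _ n).2 h1)⟩
    by_contra hn
    apply h2
    rw [← hc ⟨x, m.U0 h1⟩]
    rw [Nat.cast_add, Nat.cast_one]
    exact Order.add_one_le_of_lt (not_le.1 hn)
  · intro k n
    obtain ⟨x, hx⟩ := m.b7 k n
    have hl : lev ⟨x, k, m.P0 hx⟩ = k := lev_eq _ k _ hx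
    exact ⟨⟨x, k, m.P0 hx⟩, hl, (hcz _ n).2 (by rw [hl]; exact hx)⟩
  · -- the bijection
    have hZU : ∀ z : ZS S, ¬ pU S 0 z.1 := fun z => m.b3 _ _ (hlev z)
    have g1 : ∀ {n : ℕ} {x : M}, pU S n x → pU S 0 x := fun h => m.U0 h
    let G : HS S ⊕ ZS S ⊕ WS S → M := Sum.elim Subtype.val (Sum.elim Subtype.val Subtype.val)
    have hG : Function.Bijective G := by
      constructor
      · rintro (x | z | w) (x' | z' | w') h
        · exact congrArg _ (Subtype.ext h)
        · change x.1 = z'.1 at h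
          exact absurd x.2 (by rw [h]; exact hZU z')
        · change x.1 = w'.1 at h
          exact absurd x.2 (by rw [h]; exact w'.2.1)
        · change z.1 = x'.1 at h
          exact absurd x'.2 (by rw [← h]; exact hZU z)
        · exact congrArg (fun t => Sum.inr (Sum.inl t)) (Subtype.ext h)
        · change z.1 = w'.1 at h
          exact absurd z.2 (by rw [h]; exact w'.2.2)
        · change w.1 = x'.1 at h
          exact absurd x'.2 (by rw [← h]; exact w.2.1)
        · change w.1 = z'.1 at h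
          exact absurd z'.2 (by rw [← h]; exact w.2.2)
        · exact congrArg (fun t => Sum.inr (Sum.inr t)) (Subtype.ext h)
      · intro x
        by_cases h1 : pU S 0 x
        · exact ⟨.inl ⟨x, h1⟩, rfl⟩
        · by_cases h2 : ∃ k, pP S k 0 x
          · exact ⟨.inr (.inl ⟨x, h2⟩), rfl⟩
          · exact ⟨.inr (.inr ⟨x, h1, h2⟩), rfl⟩
    refine ⟨Equiv.ofBijective G hG, ?_⟩
    intro N n R v _
    change rm (str T (WS S)) R v ↔ rm S R (G ∘ v)
    have v1 : ∀ (u : Fin 1 → M), u = ![u 0] := fun u => by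
      ext i; fin_cases i; rfl
    have v2 : ∀ (u : Fin 2 → M), u = ![u 0, u 1] := fun u => by
      ext i; fin_cases i <;> rfl
    have v3 : ∀ (u : Fin 3 → M), u = ![u 0, u 1, u 2] := fun u => by
      ext i; fin_cases i <;> rfl
    cases R with
    | U n =>
      rw [v1 (G ∘ v), rm_U]
      change _ ↔ pU S n (G (v 0))
      rcases v 0 with x | z | w
      · constructor
        · rintro ⟨x', h1, h2⟩
          cases h1
          exact (hc x n).1 h2
        · intro h
          exact ⟨x, rfl, (hc x n).2 h⟩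
      · exact ⟨fun ⟨x, h, _⟩ => by simp at h, fun h => absurd (g1 h) (hZU z)⟩
      · exact ⟨fun ⟨x, h, _⟩ => by simp at h, fun h => absurd (g1 h) w.2.1⟩
    | P k n =>
      rw [v1 (G ∘ v), rm_P]
      change _ ↔ pP S k n (G (v 0))
      rcases v 0 with x | z | w
      · exact ⟨fun ⟨x, h, _⟩ => by simp at h, fun h => absurd x.2 (m.b3 _ _ (m.P0 h))⟩
      · constructor
        · rintro ⟨x', h1, h2, h3⟩
          cases h1
          change lev z = k at h2
          change (n : ℕ∞) ≤ cz z at h3
          rw [hcz, h2] at h3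
          exact h3
        · intro h
          have hl : lev z = k := lev_eq z k n h
          exact ⟨z, rfl, hl, (hcz z n).2 (by rw [hl]; exact h)⟩
      · exact ⟨fun ⟨x, h, _⟩ => by simp at h, fun h => absurd ⟨k, m.P0 h⟩ w.2.2⟩
    | Lt =>
      rw [v2 (G ∘ v), rm_Lt]
      change _ ↔ pL S (G (v 0)) (G (v 1))
      have key : ∀ a b : HS S ⊕ ZS S ⊕ WS S, pL S (G a) (G b) →
          ∃ x y, a = .inl x ∧ b = .inl y ∧ x < y := by
        intro a b h
        obtain ⟨h1, h2⟩ := m.a1 _ _ h
        rcases a with x | z | w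
        · rcases b with x' | z' | w'
          · exact ⟨x, x', rfl, rfl, h⟩
          · exact absurd h2 (hZU z')
          · exact absurd h2 w'.2.1
        · exact absurd h1 (hZU z)
        · exact absurd h1 w.2.1
      constructor
      · rintro ⟨x, y, h1, h2, h3⟩
        rw [h1, h2]; exact h3
      · exact key _ _
    | E k =>
      rw [v2 (G ∘ v), rm_E]
      change _ ↔ pE S k (G (v 0)) (G (v 1))
      constructor
      · rintro ⟨z, w, h1, h2, h3, h4⟩
        rw [h1, h2]
        change pE S k z.1 w.1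
        rw [← h4]
        exact he z k h3
      · intro h
        obtain ⟨h1, h2⟩ := m.e1 _ _ _ h
        rcases hv0 : v 0 with x | z | w
        · rw [hv0] at h1
          exact absurd x.2 (m.b3 _ _ h1)
        · rcases hv1 : v 1 with x' | z' | w'
          · rw [hv1] at h2
            exact absurd x'.2 (m.b3 _ _ h2)
          · rw [hv0] at h1
            rw [hv0, hv1] at h
            have hl : lev z = k + 1 := lev_eq z _ _ h1
            exact ⟨z, z', rfl, rfl, hl, Subtype.ext (m.e2 k _ _ _ (he z k hl) h)⟩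
          · rw [hv1] at h2
            exact absurd ⟨_, h2⟩ w'.2.2
        · rw [hv0] at h1
          exact absurd ⟨_, h1⟩ w.2.2
    | G k =>
      rw [v2 (G ∘ v), rm_G]
      change _ ↔ pG S k (G (v 0)) (G (v 1))
      constructor
      · rintro ⟨z, w, h1, h2, h3, h4⟩
        rw [h1, h2]
        change pG S k z.1 w.1
        rw [← h4]
        exact hh z k h3
      · intro h
        obtain ⟨h1, h2, -⟩ := m.g1 _ _ _ h
        rcases hv0 : v 0 with x | z | w
        · rw [hv0] at h1
          exact absurd x.2 (m.b3 _ _ h1)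
        · rcases hv1 : v 1 with x' | z' | w'
          · rw [hv0] at h1
            rw [hv0, hv1] at h
            have hl : lev z = k + 1 := lev_eq z _ _ h1
            exact ⟨z, x', rfl, rfl, hl, Subtype.ext (m.g2 k _ _ _ (hh z k hl) h)⟩
          · rw [hv1] at h2
            exact absurd h2 (hZU z')
          · rw [hv1] at h2
            exact absurd h2 w'.2.1
        · rw [hv0] at h1
          exact absurd ⟨_, h1⟩ w.2.2
    | D k =>
      rw [v3 (G ∘ v), rm_D]
      change _ ↔ pD S k (G (v 0)) (G (v 1)) (G (v 2))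
      constructor
      · rintro ⟨z, w, x, h1, h2, h3, h4, h5, h6, h7⟩
        rw [h1, h2, h3]
        change pD S k z.1 w.1 x.1
        rw [← h7]
        exact hs z w k h4 h5 h6
      · intro h
        obtain ⟨h1, h2, hne, h3⟩ := m.d1 _ _ _ _ h
        have h3' := m.U0 h3
        rcases hv0 : v 0 with x | z | w
        · rw [hv0] at h1
          exact absurd x.2 (m.b3 _ _ h1)
        · rcases hv1 : v 1 with x' | z' | w'
          · rw [hv1] at h2
            exact absurd x'.2 (m.b3 _ _ h2)
          · rcases hv2 : v 2 with x'' | z'' | w''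
            · rw [hv0] at h1
              rw [hv1] at h2
              rw [hv0, hv1] at hne
              rw [hv0, hv1, hv2] at h
              have hl : lev z = k + 1 := lev_eq z _ _ h1
              have hl' : lev z' = k + 1 := lev_eq z' _ _ h2
              have hne' : z ≠ z' := fun h5 => hne (by rw [h5])
              exact ⟨z, z', x'', rfl, rfl, rfl, hl, hl', hne',
                Subtype.ext (m.d2 k _ _ _ _ (hs z z' k hl hl' hne') h)⟩
            · rw [hv2] at h3'
              exact absurd h3' (hZU z'')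
            · rw [hv2] at h3'
              exact absurd h3' w''.2.1
          · rw [hv1] at h2
            exact absurd ⟨_, h2⟩ w'.2.2
        · rw [hv0] at h1
          exact absurd ⟨_, h1⟩ w.2.2

end conv

end Pool.Agent.Y567.MC
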