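import Pool.Agent.Y567.MC.Lang

/-!
First-order properties of structures and valuations.
-/

set_option autoImplicit false

namespace Pool.Agent.Y567.MC

open Set FirstOrder FirstOrder.Language

/-- put a new value in front of a valuation -/
def cn {M : Type} (x : M) (v : ℕ → M) : ℕ → M
  | 0 => x
  | n + 1 => v n

/-- first-order expressible properties -/
def FO (P : ∀ M : Type, Lg.Structure M → (ℕ → M) → Prop) : Prop :=
  ∃ φ : Lg.Formula ℕ, ∀ (M : Type) (S : Lg.Structure M) (v : ℕ → M),
    @Formula.Realize Lg M S ℕ φ v ↔ P M S v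

namespace FO

variable {P Q : ∀ M : Type, Lg.Structure M → (ℕ → M) → Prop}

theorem congr (h : FO P) (hPQ : ∀ M S v, Q M S v ↔ P M S v) : FO Q := by
  obtain ⟨φ, hφ⟩ := h
  exact ⟨φ, fun M S v => (hφ M S v).trans (hPQ M S v).symm⟩

theorem fls : FO (fun _ _ _ => False) := ⟨⊥, fun _ _ _ => Iff.rfl⟩

theorem imp (hP : FO P) (hQ : FO Q) : FO (fun M S v => P M S v → Q M S v) := by
  obtain ⟨φ, hφ⟩ := hP
  obtain ⟨ψ, hψ⟩ := hQ
  exact ⟨φ.imp ψ, fun M S v => imp_congr (hφ M S v) (hψ M S v)⟩

theorem not (hP : FO P) : FO (fun M S v => ¬ P M S v) := hP.imp fls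

theorem tru : FO (fun _ _ _ => True) := fls.not.congr (by simp)

theorem and (hP : FO P) (hQ : FO Q) : FO (fun M S v => P M S v ∧ Q M S v) :=
  (hP.imp hQ.not).not.congr (by intro M S v; tauto)

theorem or (hP : FO P) (hQ : FO Q) : FO (fun M S v => P M S v ∨ Q M S v) :=
  (hP.not.imp hQ).congr (by intro M S v; tauto)

theorem iff (hP : FO P) (hQ : FO Q) : FO (fun M S v => P M S v ↔ Q M S v) :=
  ((hP.imp hQ).and (hQ.imp hP)).congr (by intro M S v; tauto)

theorem all (hP : FO P) : FO (fun M S v => ∀ x : M, P M S (cn x v)) := by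
  obtain ⟨φ, hφ⟩ := hP
  let g : ℕ → ℕ ⊕ Fin 1 := fun n => Nat.casesOn n (Sum.inr 0) Sum.inl
  refine ⟨((BoundedFormula.relabel g φ : Lg.BoundedFormula ℕ 1).all : Lg.BoundedFormula ℕ 0),
    fun M S v => ?_⟩
  change (∀ x : M, _) ↔ _
  refine forall_congr' fun x => ?_
  rw [← hφ]
  let _ := S
  have h := BoundedFormula.realize_relabel (M := M) (φ := φ) (g := g) (v := v)
    (xs := (Fin.snoc default x : Fin (1 + 0) → M))
  refine h.trans ?_
  have h1 : (Sum.elim v ((Fin.snoc default x : Fin (1 + 0) → M) ∘ Fin.castAdd 0) ∘ g) = cn x v := by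
    ext n
    cases n with
    | zero => rfl
    | succ n => rfl
  rw [h1]
  unfold Formula.Realize
  have h2 : ((Fin.snoc default x : Fin (1 + 0) → M) ∘ Fin.natAdd 1 : Fin 0 → M) = default :=
    Subsingleton.elim _ _
  rw [h2]

theorem ex (hP : FO P) : FO (fun M S v => ∃ x : M, P M S (cn x v)) :=
  hP.not.all.not.congr (by intro M S v; push Not; rfl)

theorem sub (hP : FO P) (g : ℕ → ℕ) : FO (fun M S v => P M S (fun n => v (g n))) := by
  obtain ⟨φ, hφ⟩ := hP
  refine ⟨Formula.relabel g φ, fun M S v => ?_⟩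
  let _ := S
  rw [Formula.realize_relabel]
  exact hφ M S _

theorem eq (i j : ℕ) : FO (fun _ _ v => v i = v j) := by
  refine ⟨Term.equal (var i) (var j), fun M S v => ?_⟩
  let _ := S
  rw [Formula.realize_equal]
  rfl

theorem relg {n : ℕ} (R : Lg.Relations n) (f : Fin n → ℕ) :
    FO (fun M S v => @Structure.RelMap Lg M S n R (fun i => v (f i))) := by
  refine ⟨Relations.formula R (fun i => var (f i)), fun M S v => ?_⟩
  let _ := S
  rw [Formula.realize_rel]
  rfl

theorem rel1 (R : Rl 1) (i : ℕ) : FO (fun _ S v => rm S R ![v i]) := by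
  refine (relg (R : Lg.Relations 1) ![i]).congr fun M S v => ?_
  have : (fun k => v ((![i] : Fin 1 → ℕ) k)) = ![v i] := by
    ext k; fin_cases k; rfl
  rw [this]

theorem rel2 (R : Rl 2) (i j : ℕ) : FO (fun _ S v => rm S R ![v i, v j]) := by
  refine (relg (R : Lg.Relations 2) ![i, j]).congr fun M S v => ?_
  have : (fun k => v ((![i, j] : Fin 2 → ℕ) k)) = ![v i, v j] := by
    ext k; fin_cases k <;> rfl
  rw [this]

theorem rel3 (R : Rl 3) (i j l : ℕ) : FO (fun _ S v => rm S R ![v i, v j, v l]) := by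
  refine (relg (R : Lg.Relations 3) ![i, j, l]).congr fun M S v => ?_
  have : (fun k => v ((![i, j, l] : Fin 3 → ℕ) k)) = ![v i, v j, v l] := by
    ext k; fin_cases k <;> rfl
  rw [this]

theorem ball {Q : ℕ → ∀ M : Type, Lg.Structure M → (ℕ → M) → Prop} (h : ∀ i, FO (Q i)) (m : ℕ) :
    FO (fun M S v => ∀ i < m, Q i M S v) := by
  induction m with
  | zero => exact tru.congr (by intro M S v; simp)
  | succ m ih =>
    refine (ih.and (h m)).congr ?_
    intro M S v
    constructor
    · exact fun h1 => ⟨fun i hi => h1 i (by omega), h1 m (by omega)⟩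
    · rintro ⟨h1, h2⟩ i hi
      rcases Nat.lt_succ_iff_lt_or_eq.1 hi with h3 | rfl
      · exact h1 i h3
      · exact h2

/-- several values in front of a valuation -/
theorem blk (hP : FO P) (m : ℕ) :
    FO (fun M S v => ∀ l : List M, l.length = m → P M S (l.foldr cn v)) := by
  induction m generalizing P with
  | zero => exact hP.congr (by
      intro M S v
      constructor
      · exact fun h => h [] rfl
      · intro h l hl
        rw [List.length_eq_zero_iff.1 hl]
        exact h)
  | succ m ih =>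
    refine (ih hP.all).congr ?_
    intro M S v
    constructor
    · intro h l hl x
      exact h (x :: l) (by simp [hl])
    · intro h l hl
      cases l with
      | nil => simp at hl
      | cons x l => exact h l (by simpa using hl) x

/-- Transfer from a structure to the models of its theory. -/
theorem transfer (hP : FO P) {M₀ : Type} (S₀ : Lg.Structure M₀) [Nonempty M₀]
    {M : Type} (S : Lg.Structure M)
    (h : @Theory.Model Lg M S (@completeTheory Lg M₀ S₀))
    (h0 : ∀ x, P M₀ S₀ (fun _ => x)) (x : M) : P M S (fun _ => x) := by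
  obtain ⟨φ, hφ⟩ := hP
  let g : ℕ → Empty ⊕ Fin 1 := fun _ => Sum.inr 0
  let σ : Lg.Sentence := ((BoundedFormula.relabel g φ : Lg.BoundedFormula Empty 1).all :
    Lg.BoundedFormula Empty 0)
  have key : ∀ (M : Type) (S : Lg.Structure M), @Sentence.Realize Lg M S σ ↔
      ∀ x : M, P M S (fun _ => x) := by
    intro M S
    change (∀ x : M, _) ↔ _
    refine forall_congr' fun x => ?_
    rw [← hφ]
    let _ := S
    have h := BoundedFormula.realize_relabel (M := M) (φ := φ) (g := g) (v := default)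
      (xs := (Fin.snoc default x : Fin (1 + 0) → M))
    refine h.trans ?_
    have h1 : (Sum.elim default ((Fin.snoc default x : Fin (1 + 0) → M) ∘ Fin.castAdd 0) ∘ g) =
        fun _ => x := by
      ext n
      rfl
    rw [h1]
    unfold Formula.Realize
    have h2 : ((Fin.snoc default x : Fin (1 + 0) → M) ∘ Fin.natAdd 1 : Fin 0 → M) = default :=
      Subsingleton.elim _ _
    rw [h2]
  have hσ : σ ∈ @completeTheory Lg M₀ S₀ := (key M₀ S₀).2 h0
  exact (key M S).1 (@Theory.Model.realize_of_mem Lg M S _ h σ hσ) x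

/-- First-order properties depend only on the type. -/
theorem type_eq (hP : FO P) {k : ℕ} (hk : 0 < k) {M M' : Type} (S : Lg.Structure M)
    (S' : Lg.Structure M') (a : Fin k → M) (a' : Fin k → M')
    (h : ∀ φ : Lg.BoundedFormula Empty k, @BoundedFormula.Realize Lg M S Empty k φ Empty.elim a ↔
      @BoundedFormula.Realize Lg M' S' Empty k φ Empty.elim a') :
    P M S (fun i => a (if h : i < k then ⟨i, h⟩ else ⟨0, hk⟩)) ↔
      P M' S' (fun i => a' (if h : i < k then ⟨i, h⟩ else ⟨0, hk⟩)) := by
  obtain ⟨φ, hφ⟩ := hP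
  let g : ℕ → Empty ⊕ Fin k := fun i => Sum.inr (if h : i < k then ⟨i, h⟩ else ⟨0, hk⟩)
  have key : ∀ (M : Type) (S : Lg.Structure M) (a : Fin k → M),
      @BoundedFormula.Realize Lg M S Empty k
        (BoundedFormula.relabel g φ : Lg.BoundedFormula Empty k) Empty.elim a ↔
      P M S (fun i => a (if h : i < k then ⟨i, h⟩ else ⟨0, hk⟩)) := by
    intro M S a
    rw [← hφ]
    let _ := S
    have h := BoundedFormula.realize_relabel (M := M) (φ := φ) (g := g) (v := Empty.elim)
      (xs := (a : Fin (k + 0) → M))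
    refine h.trans ?_
    have h1 : (Sum.elim Empty.elim ((a : Fin (k + 0) → M) ∘ Fin.castAdd 0) ∘ g) =
        fun i => a (if h : i < k then ⟨i, h⟩ else ⟨0, hk⟩) := by
      ext n
      rfl
    rw [h1]
    unfold Formula.Realize
    have h2 : ((a : Fin (k + 0) → M) ∘ Fin.natAdd k : Fin 0 → M) = default :=
      Subsingleton.elim _ _
    rw [h2]
  rw [← key, ← key]
  exact h _

end FO

end Pool.Agent.Y567.MC
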