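import Pool.Agent.Y567.MC.Std

/-!
The language of towers, structures, and maps preserving the first `N` symbols.
-/

set_option autoImplicit false

namespace Pool.Agent.Y567.MC

open Set FirstOrder FirstOrder.Language

/-- Relation symbols. -/
inductive Rl : ℕ → Type
  | U (n : ℕ) : Rl 1
  | P (k n : ℕ) : Rl 1
  | Lt : Rl 2
  | E (k : ℕ) : Rl 2
  | G (k : ℕ) : Rl 2
  | D (k : ℕ) : Rl 3

/-- The language. -/
def Lg : FirstOrder.Language.{0, 0} := ⟨fun _ => Empty, Rl⟩

/-- The number of a symbol. -/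
def idx : {n : ℕ} → Rl n → ℕ
  | _, .U n => n
  | _, .P k n => max k n
  | _, .Lt => 0
  | _, .E k => k + 1
  | _, .G k => k + 1
  | _, .D k => k + 1

instance : Lg.IsRelational := fun _ => inferInstanceAs (IsEmpty Empty)

/-- an injection of the symbols into a countable type -/
def codeRl : (Σ n, Rl n) → ℕ × ℕ × ℕ
  | ⟨_, .U n⟩ => (0, n, 0)
  | ⟨_, .P k n⟩ => (1, k, n)
  | ⟨_, .Lt⟩ => (2, 0, 0)
  | ⟨_, .E k⟩ => (3, k, 0)
  | ⟨_, .G k⟩ => (4, k, 0)
  | ⟨_, .D k⟩ => (5, k, 0)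

theorem codeRl_inj : Function.Injective codeRl := by
  rintro ⟨n, r⟩ ⟨m, q⟩ h
  cases r <;> cases q <;> simp_all [codeRl]

instance : Countable Lg.Symbols := by
  have : Countable (Σ n, Lg.Relations n) := codeRl_inj.countable
  have : Countable (Σ n, Lg.Functions n) := by
    have : IsEmpty (Σ n, Lg.Functions n) := ⟨fun ⟨_, f⟩ => (f : Empty).elim⟩
    infer_instance
  unfold FirstOrder.Language.Symbols
  infer_instance

/-- interpretation of a relation symbol in a structure -/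
abbrev rm {M : Type} (S : Lg.Structure M) {n : ℕ} (R : Rl n) (v : Fin n → M) : Prop :=
  @Structure.RelMap Lg M S n R v

/-- The bijection preserves the symbols of number at most `N`. -/
def IsoN {M M' : Type} (S : Lg.Structure M) (S' : Lg.Structure M') (N : ℕ) (F : M ≃ M') : Prop :=
  ∀ (n : ℕ) (R : Rl n) (v : Fin n → M), idx R ≤ N → (rm S R v ↔ rm S' R (F ∘ v))

theorem IsoN.mono {M M' : Type} {S : Lg.Structure M} {S' : Lg.Structure M'} {N K : ℕ}
    {F : M ≃ M'} (h : IsoN S S' N F) (hK : K ≤ N) : IsoN S S' K F :=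
  fun n R v hR => h n R v (hR.trans hK)

theorem IsoN.symm {M M' : Type} {S : Lg.Structure M} {S' : Lg.Structure M'} {N : ℕ}
    {F : M ≃ M'} (h : IsoN S S' N F) : IsoN S' S N F.symm := by
  intro n R v hR
  rw [h n R (F.symm ∘ v) hR]
  have : F ∘ (F.symm ∘ v) = v := by ext i; simp
  rw [this]

theorem term_realize {M M' : Type} (S : Lg.Structure M) (S' : Lg.Structure M') (F : M ≃ M')
    {α : Type} (t : Lg.Term α) (v : α → M) :
    F (@Term.realize Lg M S α v t) = @Term.realize Lg M' S' α (F ∘ v) t := by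
  induction t with
  | var a => rfl
  | func f ts ih => exact (f : Empty).elim

/-- A formula is preserved by the bijections which preserve sufficiently many symbols. -/
theorem fo_pres {α : Type} {n : ℕ} (φ : Lg.BoundedFormula α n) : ∃ N : ℕ,
    ∀ (M M' : Type) (S : Lg.Structure M) (S' : Lg.Structure M') (F : M ≃ M'), IsoN S S' N F →
      ∀ (v : α → M) (xs : Fin n → M), (@BoundedFormula.Realize Lg M S α n φ v xs ↔
        @BoundedFormula.Realize Lg M' S' α n φ (F ∘ v) (F ∘ xs)) := by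
  induction φ with
  | falsum => exact ⟨0, fun _ _ _ _ _ _ _ _ => Iff.rfl⟩
  | equal t₁ t₂ =>
    refine ⟨0, fun M M' S S' F _ v xs => ?_⟩
    have h := fun t => term_realize S S' F (α := α ⊕ Fin _) t (Sum.elim v xs)
    change (_ = _) ↔ (_ = _)
    rw [← F.injective.eq_iff, h, h, Sum.comp_elim]
  | rel R ts =>
    refine ⟨idx R, fun M M' S S' F hF v xs => ?_⟩
    have h := hF _ R (fun i => @Term.realize Lg M S _ (Sum.elim v xs) (ts i)) le_rfl
    change rm S R _ ↔ rm S' R _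
    rw [h]
    have h2 : (F ∘ fun i => @Term.realize Lg M S _ (Sum.elim v xs) (ts i)) =
        fun i => @Term.realize Lg M' S' _ (Sum.elim (F ∘ v) (F ∘ xs)) (ts i) := by
      ext i
      simp only [Function.comp]
      rw [term_realize S S' F, Sum.comp_elim]
    rw [h2]
  | imp φ ψ ih1 ih2 =>
    obtain ⟨N1, h1⟩ := ih1
    obtain ⟨N2, h2⟩ := ih2
    refine ⟨max N1 N2, fun M M' S S' F hF v xs => ?_⟩
    exact imp_congr (h1 _ _ _ _ F (hF.mono (le_max_left _ _)) v xs)
      (h2 _ _ _ _ F (hF.mono (le_max_right _ _)) v xs)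
  | all φ ih =>
    obtain ⟨N, h⟩ := ih
    refine ⟨N, fun M M' S S' F hF v xs => ?_⟩
    have h1 : ∀ x, (F ∘ (Fin.snoc xs x : Fin (_ + 1) → M)) =
        (Fin.snoc (F ∘ xs) (F x) : Fin (_ + 1) → M') := fun x => Fin.comp_snoc _ _ _
    change (∀ x, _) ↔ (∀ x, _)
    constructor
    · intro h2 y
      have h3 := (h _ _ _ _ F hF v _).1 (h2 (F.symm y))
      rwa [h1, Equiv.apply_symm_apply] at h3
    · intro h2 x
      refine (h _ _ _ _ F hF v _).2 ?_
      rw [h1]
      exact h2 (F x)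

variable {H Z H' Z' : Type} [LinearOrder H] [LinearOrder H']

/-- relations of the structure of a tower, with isolated points `W` -/
def rel (S : Sys H Z) (W : Type) : {n : ℕ} → Rl n → (Fin n → H ⊕ Z ⊕ W) → Prop
  | _, .U n, v => ∃ x, v 0 = .inl x ∧ (n : ℕ∞) ≤ S.c x
  | _, .P k n, v => ∃ z, v 0 = .inr (.inl z) ∧ S.lev z = k ∧ (n : ℕ∞) ≤ S.cz z
  | _, .Lt, v => ∃ x y, v 0 = .inl x ∧ v 1 = .inl y ∧ x < y
  | _, .E k, v => ∃ z w, v 0 = .inr (.inl z) ∧ v 1 = .inr (.inl w) ∧ S.lev z = k + 1 ∧ S.e z = w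
  | _, .G k, v => ∃ z y, v 0 = .inr (.inl z) ∧ v 1 = .inl y ∧ S.lev z = k + 1 ∧ S.h z = y
  | _, .D k, v => ∃ z w x, v 0 = .inr (.inl z) ∧ v 1 = .inr (.inl w) ∧ v 2 = .inl x ∧
      S.lev z = k + 1 ∧ S.lev w = k + 1 ∧ z ≠ w ∧ S.s z w = x

/-- the structure of a tower -/
@[instance_reducible] def str (S : Sys H Z) (W : Type) : Lg.Structure (H ⊕ Z ⊕ W) where
  funMap := fun f _ => (f : Empty).elim
  RelMap := fun R v => rel S W R v

/-- truncation of colours -/
noncomputable def tr (N : ℕ) (c : ℕ∞) : ℕ∞ := by classical exact if c < N then c else ⊤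

theorem tr_of_lt {N : ℕ} {c : ℕ∞} (h : c < N) : tr N c = c := by unfold tr; rw [if_pos h]

theorem tr_of_le {N : ℕ} {c : ℕ∞} (h : (N : ℕ∞) ≤ c) : tr N c = ⊤ := by
  unfold tr; rw [if_neg (not_lt.2 h)]

theorem tr_eq_top {N : ℕ} {c : ℕ∞} : tr N c = ⊤ ↔ (N : ℕ∞) ≤ c := by
  refine ⟨fun h => ?_, tr_of_le⟩
  by_contra hn
  rw [tr_of_lt (not_le.1 hn)] at h
  rw [h] at hn
  exact hn le_top

theorem le_tr {N : ℕ} {c : ℕ∞} : c ≤ tr N c := by
  unfold tr; split_ifs
  · exact le_rfl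
  · exact le_top

theorem tr_mono {N : ℕ} : Monotone (tr N) := by
  intro c c' h
  by_cases h1 : c' < N
  · rw [tr_of_lt h1, tr_of_lt (h.trans_lt h1)]; exact h
  · rw [tr_of_le (not_lt.1 h1)]; exact le_top

theorem le_tr_iff {N n : ℕ} {c : ℕ∞} (h : n ≤ N) : (n : ℕ∞) ≤ tr N c ↔ (n : ℕ∞) ≤ c := by
  refine ⟨fun h1 => ?_, fun h1 => h1.trans le_tr⟩
  by_cases h2 : c < N
  · rwa [tr_of_lt h2] at h1
  · exact le_trans (by exact_mod_cast h) (not_lt.1 h2)

theorem tr_zero {N : ℕ} {c : ℕ∞} (h : 1 ≤ N) : tr N c = 0 ↔ c = 0 := by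
  constructor
  · intro h1
    have := le_tr (N := N) (c := c)
    rw [h1] at this
    exact le_antisymm this (zero_le)
  · rintro rfl
    exact tr_of_lt (by exact_mod_cast h)

/-- Truncated tower: the colours `≥ N` are identified with `⊤`. -/
noncomputable def Sys.trunc (S : Sys H Z) (N : ℕ) (hN : 1 ≤ N) : Sys H Z where
  c := fun x => tr N (S.c x)
  lev := S.lev
  e := S.e
  cz := fun z => tr N (S.cz z)
  h := S.h
  s := S.s
  d := S.d
  c_mono := fun x y h => tr_mono (S.c_mono h)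
  lev_e := S.lev_e
  root_ex := S.root_ex
  root_eq := S.root_eq
  cz_root := fun z h => by rw [S.cz_root z h]; exact tr_of_le le_top
  cz_pos := fun z => (S.cz_pos z).trans le_tr
  cz_e := fun z h => tr_mono (S.cz_e z h)
  c_h := fun z h => (tr_zero hN).2 (S.c_h z h)
  h_e := S.h_e
  s_comm := S.s_comm
  ultra := S.ultra
  c_s := fun z w h1 h2 => (S.c_s z w h1 h2).trans le_tr
  s_top := fun z w h1 h2 h3 h4 => by
    rw [tr_eq_top] at h3 h4 ⊢
    exact (le_min h3 h4).trans (S.cs_ge h1 h2)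
  s_d := fun z w h1 h2 h3 => by
    refine S.s_eq_d h1 (lt_of_lt_of_le ?_ (tr_eq_top.1 h3))
    by_contra hn
    exact h2 (tr_of_le (not_lt.1 hn))
  c_d := fun z h => by
    have : S.cz z ≠ ⊤ := fun h1 => h (by rw [h1]; exact tr_of_le le_top)
    rw [S.c_d z this]
  d1 := fun z w h1 h2 h3 h4 => by
    refine S.d1 z w h1 h2 (fun h => h3 ?_) (fun h => h4 ?_) <;> rw [h] <;> exact tr_of_le le_top
  d2 := fun z w h1 h2 h3 h4 => by
    refine S.d2 z w h1 h2 (fun h => h3 ?_) (fun h => h4 ?_) <;> rw [h] <;> exact tr_of_le le_top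
  s_e := S.s_e
  d_e := fun z h1 h2 h3 => by
    refine S.d_e z h1 (fun h => h2 ?_) (fun h => h3 ?_) <;> rw [h] <;> exact tr_of_le le_top
  unb := fun k hk x hx => by
    have h1 : S.c x < N := by
      by_contra hn
      exact hx (tr_of_le (not_lt.1 hn))
    obtain ⟨z, h2, h3⟩ := S.unb k hk x (ne_top_of_lt h1)
    exact ⟨z, h2, by rw [tr_of_lt h1]; exact h3.trans_le le_tr⟩
  ext := fun a w q y F hF h1 h2 h3 h4 h5 h6 =>
    S.ext a w q y F hF h1 h2 (by
      have : ((1 : ℕ) : ℕ∞) ≤ tr N (S.c q) := by exact_mod_cast h3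
      exact_mod_cast (le_tr_iff hN).1 this) ((tr_zero hN).1 h4) h5 h6

/-- What is needed for preservation of the symbols of number at most `N`. -/
structure RIso (S : Sys H Z) (S' : Sys H' Z') (f : H ≃ H') (g : Z ≃ Z') (N : ℕ∞) : Prop where
  ord : ∀ x y, x < y ↔ f x < f y
  c : ∀ x (n : ℕ), (n : ℕ∞) ≤ N → ((n : ℕ∞) ≤ S.c x ↔ (n : ℕ∞) ≤ S'.c (f x))
  lev : ∀ z (k : ℕ), (k : ℕ∞) ≤ N → (S.lev z = k ↔ S'.lev (g z) = k)
  cz : ∀ z (n : ℕ), (n : ℕ∞) ≤ N → (S.lev z : ℕ∞) ≤ N →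
    ((n : ℕ∞) ≤ S.cz z ↔ (n : ℕ∞) ≤ S'.cz (g z))
  e : ∀ z, (S.lev z : ℕ∞) ≤ N → S.lev z ≠ 0 → g (S.e z) = S'.e (g z)
  h : ∀ z, (S.lev z : ℕ∞) ≤ N → S.lev z ≠ 0 → f (S.h z) = S'.h (g z)
  s : ∀ z w, (S.lev z : ℕ∞) ≤ N → S.lev z = S.lev w → z ≠ w → f (S.s z w) = S'.s (g z) (g w)

/-- the bijection of the universes -/
def bij {W W' : Type} (f : H ≃ H') (g : Z ≃ Z') (w : W ≃ W') : H ⊕ Z ⊕ W ≃ H' ⊕ Z' ⊕ W' :=
  Equiv.sumCongr f (Equiv.sumCongr g w)

theorem RIso.rel_iff {S : Sys H Z} {S' : Sys H' Z'} {f : H ≃ H'} {g : Z ≃ Z'} {N : ℕ∞}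
    (r : RIso S S' f g N) {W W' : Type} (w : W ≃ W') {n : ℕ} (R : Rl n)
    (v : Fin n → H ⊕ Z ⊕ W) (hR : (idx R : ℕ∞) ≤ N) :
    rel S W R v ↔ rel S' W' R (bij f g w ∘ v) := by
  cases R with
  | U n =>
    simp only [rel, Function.comp]
    rcases v 0 with x | z | x <;> simp [bij]
    exact r.c x n hR
  | P k n =>
    have hk : (k : ℕ∞) ≤ N := le_trans (by exact_mod_cast le_max_left k n) hR
    have hn : (n : ℕ∞) ≤ N := le_trans (by exact_mod_cast le_max_right k n) hR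
    simp only [rel, Function.comp]
    rcases v 0 with x | z | x <;> simp [bij]
    rw [← r.lev z k hk]
    refine and_congr_right fun h => ?_
    exact r.cz z n hn (by rw [h]; exact hk)
  | Lt =>
    simp only [rel, Function.comp]
    rcases v 0 with x | z | x <;> rcases v 1 with y | z' | y <;> simp [bij]
    exact r.ord x y
  | E k =>
    simp only [idx] at hR
    simp only [rel, Function.comp]
    rcases v 0 with x | z | x <;> rcases v 1 with y | z' | y <;> simp [bij]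
    rw [← r.lev z (k + 1) hR]
    refine and_congr_left fun h => ?_
    rw [← r.e z (by rw [h]; exact hR) (by omega), g.injective.eq_iff]
  | G k =>
    simp only [idx] at hR
    simp only [rel, Function.comp]
    rcases v 0 with x | z | x <;> rcases v 1 with y | z' | y <;> simp [bij]
    rw [← r.lev z (k + 1) hR]
    refine and_congr_left fun h => ?_
    rw [← r.h z (by rw [h]; exact hR) (by omega), f.injective.eq_iff]
  | D k =>
    simp only [idx] at hR
    simp only [rel, Function.comp]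
    rcases v 0 with x | z | x <;> rcases v 1 with y | z' | y <;> rcases v 2 with x' | z'' | x' <;>
      simp [bij]
    rw [← r.lev z (k + 1) hR, ← r.lev z' (k + 1) hR]
    refine and_congr_left fun ⟨h, h', hne⟩ => ?_
    rw [← r.s z z' (by rw [h]; exact hR) (h.trans h'.symm) hne, f.injective.eq_iff]

theorem Iso.rIso {S : Sys H Z} {S' : Sys H' Z'} {f : H ≃ H'} {g : Z ≃ Z'}
    (i : Iso S S' f g ⊤) : RIso S S' f g ⊤ where
  ord := i.ord
  c := fun x n _ => by rw [i.c x]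
  lev := fun z k _ => by rw [i.lev z (ENat.natCast_lt_top _)]
  cz := fun z n _ _ => by rw [i.cz z (ENat.natCast_lt_top _)]
  e := fun z _ h => i.e z (ENat.natCast_lt_top _) h
  h := fun z _ h => i.h z (ENat.natCast_lt_top _) h
  s := fun z w _ h => i.s z w (ENat.natCast_lt_top _) h

theorem Iso.rIso_trunc {S : Sys H Z} {S' : Sys H' Z'} {f : H ≃ H'} {g : Z ≃ Z'} {N : ℕ}
    {hN : 1 ≤ N} (i : Iso (S.trunc N hN) (S'.trunc N hN) f g (N + 1 : ℕ)) :
    RIso S S' f g N where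
  ord := i.ord
  c := fun x n hn => by
    have hn' : n ≤ N := by exact_mod_cast hn
    rw [← le_tr_iff hn', ← le_tr_iff (c := S'.c (f x)) hn']
    have := i.c x
    change tr N (S.c x) = tr N (S'.c (f x)) at this
    rw [this]
  lev := fun z k hk => by
    have hk' : k ≤ N := by exact_mod_cast hk
    have h1 := i.low z
    have h2 := i.lev z
    change ((S.lev z : ℕ∞) < (N + 1 : ℕ) ↔ (S'.lev (g z) : ℕ∞) < (N + 1 : ℕ)) at h1
    change ((S.lev z : ℕ∞) < (N + 1 : ℕ) → S.lev z = S'.lev (g z)) at h2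
    rw [Nat.cast_lt, Nat.cast_lt] at h1
    rw [Nat.cast_lt] at h2
    constructor
    · intro h; rw [← h2 (by omega)]; exact h
    · intro h; rw [h2 (h1.2 (by omega))]; exact h
  cz := fun z n hn hz => by
    have hn' : n ≤ N := by exact_mod_cast hn
    have hz' : S.lev z ≤ N := by exact_mod_cast hz
    rw [← le_tr_iff hn', ← le_tr_iff (c := S'.cz (g z)) hn']
    have := i.cz z (by change (S.lev z : ℕ∞) < _; rw [Nat.cast_lt]; omega)
    change tr N (S.cz z) = tr N (S'.cz (g z)) at this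
    rw [this]
  e := fun z hz h => i.e z (by
    have hz' : S.lev z ≤ N := by exact_mod_cast hz
    change (S.lev z : ℕ∞) < _; rw [Nat.cast_lt]; omega) h
  h := fun z hz h => i.h z (by
    have hz' : S.lev z ≤ N := by exact_mod_cast hz
    change (S.lev z : ℕ∞) < _; rw [Nat.cast_lt]; omega) h
  s := fun z w hz h => i.s z w (by
    have hz' : S.lev z ≤ N := by exact_mod_cast hz
    change (S.lev z : ℕ∞) < _; rw [Nat.cast_lt]; omega) h

end Pool.Agent.Y567.MC
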