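import Mathlib
import Pool.Agent.Y567.MC.Conv

/-!
Labelled orders: the heights with a marked sequence.
-/

set_option autoImplicit false

namespace Pool.Agent.Y567.MC

open Set

/-- A coloured order with a marked increasing sequence (`X k u` means: the `k`-th marked point is
`u`) in the lowest class; no colour is infinite. -/
structure MO {H : Type} [LinearOrder H] (c : H → ℕ∞) (X : ℕ → H → Prop) : Prop where
  mono : ∀ x y, x ≤ y → c x ≤ c y
  fin : ∀ x, c x ≠ ⊤
  dens : ∀ x y : H, x < y → ∃ z, x < z ∧ z < y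
  down : ∀ (n : ℕ) (x : H), (n : ℕ∞) ≤ c x → ∃ y, y < x ∧ (n : ℕ∞) ≤ c y
  up : ∀ (n : ℕ) (x : H), ¬ ((n + 1 : ℕ) : ℕ∞) ≤ c x → ∃ y, x < y ∧ ¬ ((n + 1 : ℕ) : ℕ∞) ≤ c y
  all : ∀ n : ℕ, ∃ x, c x = n
  x0 : ∀ k u, X k u → k ≠ 0 ∧ c u = 0
  xu : ∀ k u v, X k u → X k v → u = v
  xm : ∀ i j u v, X i u → X j v → i < j → u < v
  xi : ∀ i j v, X j v → i ≠ 0 → i < j → ∃ u, X i u

section

variable {H : Type} [LinearOrder H] (c : H → ℕ∞) (X : ℕ → H → Prop)

/-- marked points below `y` -/
def As (y : H) : Set ℕ := {k | ∃ u, X k u ∧ u ≤ y}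

/-- points of the lowest class above all marked points, of which there are infinitely many -/
def Dp (y : H) : Prop := c y = 0 ∧ ∀ k, k ≠ 0 → ∃ u, X k u ∧ u < y

/-- the least of these -/
def Dm (y : H) : Prop := Dp c X y ∧ ∀ y', Dp c X y' → y ≤ y'

/-- named points -/
def Nm (y : H) : Prop := (∃ k, X k y) ∨ Dm c X y

/-- labels -/
def lab (y : H) : ℕ∞ × Set ℕ × Prop := (c y, As X y, Nm c X y)

end

namespace MO

variable {H : Type} [LinearOrder H] {c : H → ℕ∞} {X : ℕ → H → Prop} (o : MO c X)

include o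

theorem xle {i j : ℕ} {u v : H} (hu : X i u) (hv : X j v) (h : i ≤ j) : u ≤ v := by
  rcases h.eq_or_lt with rfl | h
  · exact (o.xu _ _ _ hu hv).le
  · exact (o.xm _ _ _ _ hu hv h).le

theorem xlt {i j : ℕ} {u v : H} (hu : X i u) (hv : X j v) (h : u < v) : i < j := by
  by_contra hn
  exact absurd (o.xle hv hu (not_lt.1 hn)) (not_le.2 h)

theorem as_mono {x y : H} (h : x ≤ y) : As X x ⊆ As X y := by
  rintro k ⟨u, h1, h2⟩
  exact ⟨u, h1, h2.trans h⟩

theorem as_of_pos {x : H} (h : c x ≠ 0) : As X x = {k | ∃ u, X k u} := by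
  ext k
  constructor
  · rintro ⟨u, h1, -⟩; exact ⟨u, h1⟩
  · rintro ⟨u, h1⟩
    refine ⟨u, h1, ?_⟩
    by_contra hn
    have h2 := o.mono _ _ (not_le.1 hn).le
    rw [(o.x0 k u h1).2] at h2
    exact h (le_antisymm h2 zero_le)

theorem nm_pos {x : H} (h : Nm c X x) : c x = 0 := by
  rcases h with ⟨k, h⟩ | h
  · exact (o.x0 k x h).2
  · exact h.1.1

theorem le_of_nm {x : H} {k : ℕ} (h : X k x) {y : H} (hk : k ∈ As X y) : x ≤ y := by
  obtain ⟨u, h1, h2⟩ := hk
  rw [o.xu k x u h h1]; exact h2

/-- an unnamed point with all marks below is in `Dp` -/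
theorem dp_of {x y : H} (hx : ¬ Nm c X x) (hc : c x = 0) (hy : Dp c X y)
    (hA : As X y ⊆ As X x) : Dp c X x := by
  refine ⟨hc, fun k hk => ?_⟩
  obtain ⟨u, h1, h2⟩ := hy.2 k hk
  obtain ⟨v, h3, h4⟩ := hA ⟨u, h1, h2.le⟩
  refine ⟨v, h3, lt_of_le_of_ne h4 ?_⟩
  rintro rfl
  exact hx (Or.inl ⟨k, h3⟩)

theorem not_x_of_dp {x : H} (h : Dp c X x) (k : ℕ) : ¬ X k x := by
  intro hk
  obtain ⟨u, h1, h2⟩ := h.2 (k + 1) (by omega)
  exact absurd (o.xm k (k + 1) _ _ hk h1 (by omega)) (not_lt.2 h2.le)

/-- between two points of the same label, the first unnamed -/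
theorem unnamed_above {x t : H} (hx : ¬ Nm c X x) (hxt : x < t) (hA : As X t = As X x)
    (hc : c x = 0) : ¬ Nm c X t := by
  rintro (⟨k, hk⟩ | h)
  · have : k ∈ As X x := by rw [← hA]; exact ⟨t, hk, le_rfl⟩
    exact absurd (o.le_of_nm hk this) (not_le.2 hxt)
  · exact absurd (h.2 x (o.dp_of hx hc h.1 hA.subset)) (not_le.2 hxt)

theorem eq_of_between {x t y : H} (h1 : x ≤ t) (h2 : t ≤ y) (h : c y = c x) : c t = c x :=
  le_antisymm ((o.mono _ _ h2).trans h.le) (o.mono _ _ h1)

theorem col : Col (lab c X) (fun i => i.2.2) where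
  single := by
    intro x y hx hxy
    simp only [lab, Prod.mk.injEq] at hx hxy
    obtain ⟨-, hA, hN⟩ := hxy
    have hy : Nm c X y := by rw [hN]; exact hx
    rcases hx with ⟨k, hk⟩ | hx
    · rcases hy with ⟨j, hj⟩ | hy
      · refine le_antisymm (o.le_of_nm hj ?_) (o.le_of_nm hk ?_)
        · rw [← hA]; exact ⟨y, hj, le_rfl⟩
        · rw [hA]; exact ⟨x, hk, le_rfl⟩
      · exfalso
        obtain ⟨v, h1, h2⟩ := hy.1.2 (k + 1) (by omega)
        have h3 : k + 1 ∈ As X x := by rw [← hA]; exact ⟨v, h1, h2.le⟩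
        exact absurd (o.le_of_nm h1 h3) (not_le.2 (o.xm k (k + 1) _ _ hk h1 (by omega)))
    · rcases hy with ⟨j, hj⟩ | hy
      · exfalso
        obtain ⟨v, h1, h2⟩ := hx.1.2 (j + 1) (by omega)
        have h3 : j + 1 ∈ As X y := by rw [hA]; exact ⟨v, h1, h2.le⟩
        exact absurd (o.le_of_nm h1 h3) (not_le.2 (o.xm j (j + 1) _ _ hj h1 (by omega)))
      · exact le_antisymm (hy.2 x hx.1) (hx.2 y hy.1)
  down := by
    intro x hx
    change ¬ Nm c X x at hx
    by_cases hc0 : c x = 0
    · by_cases hA0 : As X x = ∅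
      · obtain ⟨y, h1, -⟩ := o.down 0 x (by simp)
        have hA : As X y = ∅ := by
          rw [Set.eq_empty_iff_forall_notMem] at hA0 ⊢
          exact fun k hk => hA0 k (o.as_mono h1.le hk)
        have hcy : c y = c x := by
          rw [hc0]
          exact le_antisymm (by rw [← hc0]; exact o.mono _ _ h1.le) zero_le
        refine ⟨y, h1, ?_⟩
        have hn : ¬ Nm c X y := by
          rintro (⟨k, hk⟩ | h)
          · have : k ∈ As X y := ⟨y, hk, le_rfl⟩
            rw [hA] at this
            exact this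
          · obtain ⟨u, h2, h3⟩ := h.1.2 1 one_ne_zero
            have : 1 ∈ As X y := ⟨u, h2, h3.le⟩
            rw [hA] at this
            exact this
        simp only [lab, hcy, hA, hA0, hn, hx]
      · by_cases hmax : ∃ k ∈ As X x, ∀ j ∈ As X x, j ≤ k
        · obtain ⟨k, ⟨u, hu, hux⟩, hk⟩ := hmax
          have hux' : u < x := lt_of_le_of_ne hux (by rintro rfl; exact hx (Or.inl ⟨k, hu⟩))
          obtain ⟨y, h1, h2⟩ := o.dens u x hux'
          have hcy : c y = c x := by
            rw [hc0]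
            exact le_antisymm (by rw [← hc0]; exact o.mono _ _ h2.le) zero_le
          have hA : As X y = As X x := by
            refine subset_antisymm (o.as_mono h2.le) ?_
            rintro j ⟨v, h3, h4⟩
            exact ⟨v, h3, (o.xle h3 hu (hk j ⟨v, h3, h4⟩)).trans h1.le⟩
          refine ⟨y, h2, ?_⟩
          have hn : ¬ Nm c X y := by
            rintro (⟨j, hj⟩ | h)
            · have : j ∈ As X x := by rw [← hA]; exact ⟨y, hj, le_rfl⟩
              exact absurd (o.xle hj hu (hk j this)) (not_le.2 h1)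
            · obtain ⟨v, h3, h4⟩ := h.1.2 (k + 1) (by omega)
              have : k + 1 ∈ As X x := by rw [← hA]; exact ⟨v, h3, h4.le⟩
              have := hk _ this
              omega
          simp only [lab, hcy, hA, hn, hx]
        · push Not at hmax
          have hall : ∀ k, k ≠ 0 → ∃ u, X k u ∧ u ≤ x := by
            intro k hk
            by_contra hn
            have hbd : ∀ j ∈ As X x, j < k := by
              rintro j ⟨v, h3, h4⟩
              by_contra hjk
              rcases (not_lt.1 hjk).eq_or_lt with rfl | h5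
              · exact hn ⟨v, h3, h4⟩
              · obtain ⟨u, hu⟩ := o.xi k j v h3 hk h5
                exact hn ⟨u, hu, (o.xle hu h3 h5.le).trans h4⟩
            -- a nonempty bounded set of numbers has a maximum
            obtain ⟨j0, hj0⟩ := Set.nonempty_iff_ne_empty.2 hA0
            have hfin : (As X x).Finite := (Set.finite_Iio k).subset (fun j hj => hbd j hj)
            obtain ⟨j1, hj1, hj1m⟩ := Set.exists_max_image (As X x) id hfin ⟨j0, hj0⟩
            obtain ⟨j2, hj2, hlt⟩ := hmax j1 hj1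
            exact absurd (hj1m j2 hj2) (not_le.2 hlt)
          have hD : Dp c X x := by
            refine ⟨hc0, fun k hk => ?_⟩
            obtain ⟨u, h1, h2⟩ := hall k hk
            exact ⟨u, h1, lt_of_le_of_ne h2 (by rintro rfl; exact hx (Or.inl ⟨k, h1⟩))⟩
          have hnm : ∃ y', Dp c X y' ∧ y' < x := by
            by_contra hcon
            push Not at hcon
            exact hx (Or.inr ⟨hD, hcon⟩)
          obtain ⟨y', hy', hlt⟩ := hnm
          obtain ⟨y, h1, h2⟩ := o.dens y' x hlt
          have hcy : c y = 0 :=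
            le_antisymm (by rw [← hc0]; exact o.mono _ _ h2.le) zero_le
          have hDy : Dp c X y := ⟨hcy, fun k hk => by
            obtain ⟨u, h3, h4⟩ := hy'.2 k hk
            exact ⟨u, h3, h4.trans h1⟩⟩
          have hA : As X y = As X x := by
            refine subset_antisymm (o.as_mono h2.le) ?_
            rintro j ⟨v, h3, h4⟩
            obtain ⟨w, h5, h6⟩ := hDy.2 j (o.x0 j v h3).1
            exact ⟨w, h5, h6.le⟩
          have hn : ¬ Nm c X y := by
            rintro (⟨j, hj⟩ | h)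
            · exact o.not_x_of_dp hDy j hj
            · exact absurd (h.2 y' hy') (not_le.2 h1)
          exact ⟨y, h2, by simp only [lab, hcy, hc0, hA, hn, hx]⟩
    · obtain ⟨n, hn⟩ := ENat.ne_top_iff_exists.1 (o.fin x)
      obtain ⟨y, h1, h2⟩ := o.down n x hn.le
      have hcy : c y = c x := le_antisymm (o.mono _ _ h1.le) (by rw [← hn]; exact h2)
      have hny : ¬ Nm c X y := fun h => hc0 (by rw [← hcy]; exact o.nm_pos h)
      refine ⟨y, h1, ?_⟩
      simp only [lab, hcy, hny, hx, o.as_of_pos hc0, o.as_of_pos (x := y) (by rw [hcy]; exact hc0)]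
  up := by
    intro x hx
    change ¬ Nm c X x at hx
    by_cases hc0 : c x = 0
    · by_cases hex : ∃ k v, X k v ∧ x < v
      · classical
        obtain ⟨v, hv, hxv⟩ := Nat.find_spec hex
        obtain ⟨y, h1, h2⟩ := o.dens x v hxv
        have hcy : c y = 0 :=
          le_antisymm (by rw [← (o.x0 _ v hv).2]; exact o.mono _ _ h2.le) zero_le
        have hA : As X y = As X x := by
          refine subset_antisymm ?_ (o.as_mono h1.le)
          rintro j ⟨w, h3, h4⟩
          have hj : j < Nat.find hex := o.xlt h3 hv (h4.trans_lt h2)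
          refine ⟨w, h3, ?_⟩
          by_contra hn
          exact Nat.find_min hex hj ⟨w, h3, not_le.1 hn⟩
        have hn := o.unnamed_above hx h1 hA hc0
        exact ⟨y, h1, by simp only [lab, hcy, hc0, hA, hn, hx]⟩
      · push Not at hex
        obtain ⟨y, h1, h2⟩ := o.up 0 x (by rw [hc0]; simp)
        have hcy : c y = 0 := by
          by_contra hne
          apply h2
          have := Order.one_le_iff_ne_zero.2 hne
          exact_mod_cast this
        have hA : As X y = As X x := by
          refine subset_antisymm ?_ (o.as_mono h1.le)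
          rintro j ⟨w, h3, h4⟩
          exact ⟨w, h3, hex j w h3⟩
        have hn := o.unnamed_above hx h1 hA hc0
        exact ⟨y, h1, by simp only [lab, hcy, hc0, hA, hn, hx]⟩
    · obtain ⟨n, hn⟩ := ENat.ne_top_iff_exists.1 (o.fin x)
      obtain ⟨y, h1, h2⟩ := o.up n x (by rw [← hn, Nat.cast_le]; omega)
      have hcy : c y = c x := by
        refine le_antisymm ?_ (o.mono _ _ h1.le)
        rw [← hn]
        have := not_le.1 h2
        rw [Nat.cast_add, Nat.cast_one] at this
        exact Order.le_of_lt_add_one this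
      have hny : ¬ Nm c X y := fun h => hc0 (by rw [← hcy]; exact o.nm_pos h)
      refine ⟨y, h1, ?_⟩
      simp only [lab, hcy, hny, hx, o.as_of_pos hc0, o.as_of_pos (x := y) (by rw [hcy]; exact hc0)]
  mid := by
    intro x y hx hxy hlt
    change ¬ Nm c X x at hx
    simp only [lab, Prod.mk.injEq] at hxy
    obtain ⟨hc, hA, hN⟩ := hxy
    obtain ⟨t, h1, h2⟩ := o.dens x y hlt
    have hct : c t = c x := o.eq_of_between h1.le h2.le hc
    have hAt : As X t = As X x :=
      subset_antisymm ((o.as_mono h2.le).trans hA.subset) (o.as_mono h1.le)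
    have hn : ¬ Nm c X t := by
      by_cases hc0 : c x = 0
      · exact o.unnamed_above hx h1 hAt hc0
      · exact fun h => hc0 (by rw [← hct]; exact o.nm_pos h)
    exact ⟨t, h1, h2, by simp only [lab, hct, hAt, hn, hx]⟩

variable {H' : Type} [LinearOrder H'] {c' : H' → ℕ∞} {X' : ℕ → H' → Prop} (o' : MO c' X')

include o'

/-- Labels occur in both. -/
theorem exists_lab (hE : ∀ k, (∃ u, X k u) ↔ ∃ u, X' k u)
    (hD : (∃ y, Dp c X y) → ∃ y, Dp c' X' y) (hM : (∃ y, Dm c X y) → ∃ y, Dm c' X' y) (x : H) :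
    ∃ x', lab c' X' x' = lab c X x := by
  by_cases hc0 : c x = 0
  · by_cases hx : Nm c X x
    · rcases hx with ⟨k, hk⟩ | hx
      · obtain ⟨x', hx'⟩ := (hE k).1 ⟨x, hk⟩
        have hA : As X' x' = As X x := by
          ext j
          constructor
          · rintro ⟨u', h1, h2⟩
            obtain ⟨u, hu⟩ := (hE j).2 ⟨u', h1⟩
            refine ⟨u, hu, o.xle hu hk ?_⟩
            by_contra hn
            exact absurd (o'.xm _ _ _ _ hx' h1 (not_le.1 hn)) (not_lt.2 h2)
          · rintro ⟨u, h1, h2⟩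
            obtain ⟨u', hu'⟩ := (hE j).1 ⟨u, h1⟩
            refine ⟨u', hu', o'.xle hu' hx' ?_⟩
            by_contra hn
            exact absurd (o.xm _ _ _ _ hk h1 (not_le.1 hn)) (not_lt.2 h2)
        have h1 : Nm c' X' x' := Or.inl ⟨k, hx'⟩
        have h2 : Nm c X x := Or.inl ⟨k, hk⟩
        exact ⟨x', by simp only [lab, (o'.x0 _ _ hx').2, hc0, hA, h1, h2]⟩
      · obtain ⟨x', hx'⟩ := hM ⟨x, hx⟩
        have hA : As X' x' = As X x := by
          ext j
          constructor
          · rintro ⟨u', h1, h2⟩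
            obtain ⟨u, h3, h4⟩ := hx.1.2 j (o'.x0 _ _ h1).1
            exact ⟨u, h3, h4.le⟩
          · rintro ⟨u', h1, h2⟩
            obtain ⟨u, h3, h4⟩ := hx'.1.2 j (o.x0 _ _ h1).1
            exact ⟨u, h3, h4.le⟩
        have h1 : Nm c' X' x' := Or.inr hx'
        have h2 : Nm c X x := Or.inr hx
        exact ⟨x', by simp only [lab, hx'.1.1, hc0, hA, h1, h2]⟩
    · -- unnamed points of the lowest class
      suffices h : ∃ x', c' x' = 0 ∧ As X' x' = As X x ∧ ¬ Nm c' X' x' by
        obtain ⟨x', h1, h2, h3⟩ := h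
        exact ⟨x', by simp only [lab, h1, hc0, h2, h3, hx]⟩
      have up0 : ∀ y' : H', c' y' = 0 → ∃ x', y' < x' ∧ c' x' = 0 := by
        intro y' hy'
        obtain ⟨x', h1, h2⟩ := o'.up 0 y' (by rw [hy']; simp)
        refine ⟨x', h1, ?_⟩
        by_contra hne
        apply h2
        have := Order.one_le_iff_ne_zero.2 hne
        exact_mod_cast this
      by_cases hA0 : As X x = ∅
      · by_cases hE1 : ∃ u', X' 1 u'
        · obtain ⟨u', hu'⟩ := hE1
          obtain ⟨x', h1, -⟩ := o'.down 0 u' (by simp)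
          refine ⟨x', le_antisymm (by rw [← (o'.x0 _ _ hu').2]; exact o'.mono _ _ h1.le)
            zero_le, ?_, ?_⟩
          · rw [hA0, Set.eq_empty_iff_forall_notMem]
            rintro k ⟨v, h2, h3⟩
            have : 1 ≤ k := Nat.one_le_iff_ne_zero.2 (o'.x0 _ _ h2).1
            exact absurd ((o'.xle hu' h2 this).trans h3) (not_le.2 h1)
          · rintro (⟨k, hk⟩ | h)
            · have : 1 ≤ k := Nat.one_le_iff_ne_zero.2 (o'.x0 _ _ hk).1
              exact absurd (o'.xle hu' hk this) (not_le.2 h1)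
            · obtain ⟨v, h2, h3⟩ := h.1.2 1 one_ne_zero
              rw [o'.xu 1 v u' h2 hu'] at h3
              exact lt_asymm h1 h3
        · obtain ⟨x', hx'⟩ := o'.all 0
          have hno : ∀ k u, ¬ X' k u := by
            intro k u hk
            have hk0 := (o'.x0 _ _ hk).1
            rcases Nat.lt_or_ge 1 k with h | h
            · exact hE1 (o'.xi 1 k u hk one_ne_zero h)
            · have : k = 1 := by omega
              subst this
              exact hE1 ⟨u, hk⟩
          refine ⟨x', by rw [hx']; rfl, ?_, ?_⟩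
          · rw [hA0, Set.eq_empty_iff_forall_notMem]
            rintro k ⟨v, h2, h3⟩
            exact hno k v h2
          · rintro (⟨k, hk⟩ | h)
            · exact hno k _ hk
            · obtain ⟨v, h2, h3⟩ := h.1.2 1 one_ne_zero
              exact hno 1 v h2
      · by_cases hmax : ∃ k ∈ As X x, ∀ j ∈ As X x, j ≤ k
        · obtain ⟨k, ⟨u, hu, hux⟩, hk⟩ := hmax
          obtain ⟨u', hu'⟩ := (hE k).1 ⟨u, hu⟩
          have hAk : ∀ j, j ∈ As X x ↔ j ≤ k ∧ ∃ v', X' j v' := by
            intro j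
            constructor
            · intro hj
              refine ⟨hk j hj, ?_⟩
              obtain ⟨v, h1, -⟩ := hj
              exact (hE j).1 ⟨v, h1⟩
            · rintro ⟨h1, h2⟩
              obtain ⟨v, hv⟩ := (hE j).2 h2
              exact ⟨v, hv, (o.xle hv hu h1).trans hux⟩
          obtain ⟨x', h1, h2, h3⟩ : ∃ x', u' < x' ∧ c' x' = 0 ∧ ∀ v', X' (k + 1) v' → x' < v' := by
            by_cases hE1 : ∃ v', X' (k + 1) v'
            · obtain ⟨v', hv'⟩ := hE1
              obtain ⟨x', h1, h2⟩ := o'.dens u' v' (o'.xm _ _ _ _ hu' hv' (by omega))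
              refine ⟨x', h1, le_antisymm (by rw [← (o'.x0 _ _ hv').2]; exact o'.mono _ _ h2.le)
                zero_le, fun w hw => ?_⟩
              rw [o'.xu _ w v' hw hv']; exact h2
            · obtain ⟨x', h1, h2⟩ := up0 u' (o'.x0 _ _ hu').2
              exact ⟨x', h1, h2, fun w hw => absurd ⟨w, hw⟩ hE1⟩
          have hle : ∀ j v', X' j v' → v' ≤ x' → j ≤ k := by
            intro j v' hj hv'
            by_contra hn
            obtain ⟨w, hw⟩ : ∃ w, X' (k + 1) w := by
              rcases (Nat.succ_le_of_lt (not_le.1 hn)).eq_or_lt with h | h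
              · exact ⟨v', by rw [← Nat.succ_eq_add_one, h]; exact hj⟩
              · exact o'.xi (k + 1) j v' hj (by omega) h
            exact absurd ((o'.xle hw hj (by omega)).trans hv') (not_le.2 (h3 w hw))
          refine ⟨x', h2, ?_, ?_⟩
          · ext j
            rw [hAk]
            constructor
            · rintro ⟨v', h4, h5⟩
              exact ⟨hle j v' h4 h5, v', h4⟩
            · rintro ⟨h4, v', h5⟩
              exact ⟨v', h5, (o'.xle h5 hu' h4).trans h1.le⟩
          · rintro (⟨j, hj⟩ | h)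
            · exact absurd (o'.xle hj hu' (hle j x' hj le_rfl)) (not_le.2 h1)
            · obtain ⟨v, h4, h5⟩ := h.1.2 (k + 1) (by omega)
              exact lt_asymm (h3 v h4) h5
        · push Not at hmax
          have hall : ∀ k, k ≠ 0 → ∃ u, X k u ∧ u ≤ x := by
            intro k hk
            by_contra hn
            have hbd : ∀ j ∈ As X x, j < k := by
              rintro j ⟨v, h3, h4⟩
              by_contra hjk
              rcases (not_lt.1 hjk).eq_or_lt with rfl | h5
              · exact hn ⟨v, h3, h4⟩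
              · obtain ⟨u, hu⟩ := o.xi k j v h3 hk h5
                exact hn ⟨u, hu, (o.xle hu h3 h5.le).trans h4⟩
            obtain ⟨j0, hj0⟩ := Set.nonempty_iff_ne_empty.2 hA0
            have hfin : (As X x).Finite := (Set.finite_Iio k).subset (fun j hj => hbd j hj)
            obtain ⟨j1, hj1, hj1m⟩ := Set.exists_max_image (As X x) id hfin ⟨j0, hj0⟩
            obtain ⟨j2, hj2, hlt⟩ := hmax j1 hj1
            exact absurd (hj1m j2 hj2) (not_le.2 hlt)
          have hDx : Dp c X x := by
            refine ⟨hc0, fun k hk => ?_⟩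
            obtain ⟨u, h1, h2⟩ := hall k hk
            exact ⟨u, h1, lt_of_le_of_ne h2 (by rintro rfl; exact hx (Or.inl ⟨k, h1⟩))⟩
          obtain ⟨y', hy'⟩ := hD ⟨x, hDx⟩
          obtain ⟨x', h1, h2⟩ := up0 y' hy'.1
          have hDx' : Dp c' X' x' := ⟨h2, fun k hk => by
            obtain ⟨u, h3, h4⟩ := hy'.2 k hk
            exact ⟨u, h3, h4.trans h1⟩⟩
          refine ⟨x', h2, ?_, ?_⟩
          · ext j
            constructor
            · rintro ⟨v', h4, h5⟩
              exact hall j (o'.x0 _ _ h4).1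
            · rintro ⟨v', h4, h5⟩
              obtain ⟨u, h6, h7⟩ := hDx'.2 j (o.x0 _ _ h4).1
              exact ⟨u, h6, h7.le⟩
          · rintro (⟨j, hj⟩ | h)
            · exact o'.not_x_of_dp hDx' j hj
            · exact absurd (h.2 y' hy') (not_le.2 h1)
  · obtain ⟨n, hn⟩ := ENat.ne_top_iff_exists.1 (o.fin x)
    obtain ⟨x', hx'⟩ := o'.all n
    have hcx' : c' x' = c x := by rw [hx', hn]
    have h1 : ¬ Nm c' X' x' := fun h => hc0 (by rw [← hcx']; exact o'.nm_pos h)
    have h2 : ¬ Nm c X x := fun h => hc0 (o.nm_pos h)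
    refine ⟨x', ?_⟩
    simp only [lab, hcx', h1, h2, o.as_of_pos hc0, o'.as_of_pos (x := x') (by rw [hcx']; exact hc0)]
    simp only [hE]

theorem sep_half {x y : H} {x' y' : H'} (h1 : lab c X x = lab c' X' x')
    (h2 : lab c X y = lab c' X' y') (h3 : lab c X x ≠ lab c X y) (hlt : x < y) : x' < y' := by
  have hmono : ∀ {a b : H'}, c' a < c' b → a < b := by
    intro a b h
    by_contra hn
    exact absurd (o'.mono _ _ (not_lt.1 hn)) (not_le.2 h)
  simp only [lab, Prod.mk.injEq] at h1 h2
  obtain ⟨hc1, hA1, hN1⟩ := h1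
  obtain ⟨hc2, hA2, hN2⟩ := h2
  rcases (o.mono _ _ hlt.le).eq_or_lt with hc | hc
  · by_cases hA : As X x = As X y
    · have hN : Nm c X x ≠ Nm c X y := by
        intro h
        exact h3 (by simp only [lab, hc, hA, h])
      by_cases hx : Nm c X x
      · have hy : ¬ Nm c X y := fun h => hN (by rw [eq_iff_iff]; exact ⟨fun _ => h, fun _ => hx⟩)
        have hx' : Nm c' X' x' := by rw [← hN1]; exact hx
        have hy' : ¬ Nm c' X' y' := by rw [← hN2]; exact hy
        have hne : x' ≠ y' := by rintro rfl; exact hy' hx'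
        refine lt_of_le_of_ne ?_ hne
        rcases hx' with ⟨j, hj⟩ | hx'
        · refine o'.le_of_nm hj ?_
          rw [← hA2, ← hA, hA1]
          exact ⟨x', hj, le_rfl⟩
        · refine hx'.2 y' (o'.dp_of hy' ?_ hx'.1 ?_)
          · rw [← hc2, ← hc, hc1]; exact hx'.1.1
          · rw [← hA1, hA, hA2]
      · exfalso
        have hy : Nm c X y := by
          by_contra h
          exact hN (by rw [eq_iff_iff]; exact ⟨fun h' => absurd h' hx, fun h' => absurd h' h⟩)
        rcases hy with ⟨k, hk⟩ | hy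
        · have : k ∈ As X x := by rw [hA]; exact ⟨y, hk, le_rfl⟩
          exact absurd (o.le_of_nm hk this) (not_le.2 hlt)
        · have hDx := o.dp_of hx (by rw [hc]; exact hy.1.1) hy.1 hA.symm.subset
          exact absurd (hy.2 x hDx) (not_le.2 hlt)
    · have hsub := o.as_mono (X := X) hlt.le
      obtain ⟨k, hky, hkx⟩ := Set.not_subset.1 (fun h => hA (subset_antisymm hsub h))
      rw [hA2] at hky
      rw [hA1] at hkx
      obtain ⟨u, hu, huy⟩ := hky
      refine lt_of_lt_of_le ?_ huy
      by_contra hn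
      exact hkx ⟨u, hu, not_lt.1 hn⟩
  · rw [hc1, hc2] at hc
    exact hmono hc

end MO

theorem MO.match {H H' : Type} [LinearOrder H] [LinearOrder H'] {c : H → ℕ∞} {c' : H' → ℕ∞}
    {X : ℕ → H → Prop} {X' : ℕ → H' → Prop} (o : MO c X) (o' : MO c' X')
    (hE : ∀ k, (∃ u, X k u) ↔ ∃ u, X' k u)
    (hD : (∃ y, Dp c X y) ↔ ∃ y, Dp c' X' y) (hM : (∃ y, Dm c X y) ↔ ∃ y, Dm c' X' y) :
    Match (lab c X) (lab c' X') (fun i => i.2.2) where
  col := o.col
  col' := o'.col
  lab := o.exists_lab o' hE hD.1 hM.1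
  lab' := o'.exists_lab o (fun k => (hE k).symm) hD.2 hM.2
  sep := fun x x' y y' h1 h2 h3 => ⟨o.sep_half o' h1 h2 h3, o'.sep_half o h1.symm h2.symm
    (by rw [← h1, ← h2]; exact h3)⟩

end Pool.Agent.Y567.MC
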