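import Pool.Agent.Y567.MC.Top

/-!
The two standard towers, and why their structures are not isomorphic.
-/

set_option autoImplicit false

namespace Pool.Agent.Y567.MC

open Set FirstOrder FirstOrder.Language Pool.Agent.Y567.MC.Std

theorem col_Col {N : ℕ} : Col (fun x : X => tr N (col x)) (fun _ => False) where
  single := fun x y h => h.elim
  down := fun x _ => by
    refine ⟨toLex ((ofLex x).1, (ofLex x).2 - 1), ?_, ?_⟩
    · rw [Prod.Lex.lt_iff]
      right
      simp
    · rfl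
  up := fun x _ => by
    refine ⟨toLex ((ofLex x).1, (ofLex x).2 + 1), ?_, ?_⟩
    · rw [Prod.Lex.lt_iff]
      right
      simp
    · rfl
  mid := fun x y _ hxy hlt => by
    rw [Prod.Lex.lt_iff] at hlt
    rcases hlt with h | ⟨h1, h2⟩
    · refine ⟨toLex ((ofLex x).1, (ofLex x).2 + 1), ?_, ?_, rfl⟩
      · rw [Prod.Lex.lt_iff]
        right
        simp
      · rw [Prod.Lex.lt_iff]
        left
        exact h
    · refine ⟨toLex ((ofLex x).1, ((ofLex x).2 + (ofLex y).2) / 2), ?_, ?_, rfl⟩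
      · rw [Prod.Lex.lt_iff]
        right
        refine ⟨rfl, ?_⟩
        change (ofLex x).2 < ((ofLex x).2 + (ofLex y).2) / 2
        linarith
      · rw [Prod.Lex.lt_iff]
        right
        refine ⟨h1, ?_⟩
        change ((ofLex x).2 + (ofLex y).2) / 2 < (ofLex y).2
        linarith

theorem topStd (df : WithBot ℚ → ℚ) (hd : ∀ b, b < (df b : WithBot ℚ)) :
    TopSys (std df hd) (fun k => List.replicate k 0) where
  lev := fun k => by
    change (List.replicate k (0 : Ph)).length = k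
    simp
  cz := fun k => by
    change Std.cz (List.replicate k (0 : Ph)) = ⊤
    rw [cz_top]; simp [tp]
  uniq := fun z h => by
    change z = List.replicate z.length 0
    exact cz_top.1 h
  fin := fun x => col_ne_top x
  all := fun n => ⟨toLex (n, 0), rfl⟩
  col := fun N _ => col_Col

/-- the default functions -/
def dfm : WithBot ℚ → ℚ
  | ⊥ => 0
  | (x : ℚ) => x + 1

def dfp : WithBot ℚ → ℚ
  | ⊥ => -1
  | (x : ℚ) => if x < 0 then x / 2 else x + 1

theorem dfm_lt : ∀ b, b < (dfm b : WithBot ℚ)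
  | ⊥ => WithBot.bot_lt_coe _
  | (x : ℚ) => by
    change (x : WithBot ℚ) < ((x + 1 : ℚ) : WithBot ℚ)
    exact_mod_cast lt_add_one x

theorem dfp_lt : ∀ b, b < (dfp b : WithBot ℚ)
  | ⊥ => WithBot.bot_lt_coe _
  | (x : ℚ) => by
    change (x : WithBot ℚ) < ((if x < 0 then x / 2 else x + 1 : ℚ) : WithBot ℚ)
    rw [WithBot.coe_lt_coe]
    split_ifs with h <;> linarith

/-- the two towers -/
noncomputable def tw : Bool → Sys X (List Ph)
  | false => std dfm dfm_lt
  | true => std dfp dfp_lt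

theorem topTw : ∀ b, TopSys (tw b) (fun k => List.replicate k 0)
  | false => topStd dfm dfm_lt
  | true => topStd dfp dfp_lt

theorem hh_m (k : ℕ) : hh dfm (List.replicate (k + 1) 0) = ((k : ℚ) : WithBot ℚ) := by
  induction k with
  | zero =>
    change hh dfm [0] = _
    unfold hh
    rw [if_neg (by simp)]
    rfl
  | succ k ih =>
    rw [List.replicate_succ]
    unfold hh
    rw [if_neg (by simp), ih]
    change ((k + 1 : ℚ) : WithBot ℚ) = _
    norm_num

theorem hh_p (k : ℕ) : ∃ x : ℚ, x < 0 ∧ hh dfp (List.replicate (k + 1) 0) = (x : WithBot ℚ) := by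
  induction k with
  | zero =>
    refine ⟨-1, by norm_num, ?_⟩
    change hh dfp [0] = _
    unfold hh
    rw [if_neg (by simp)]
    rfl
  | succ k ih =>
    obtain ⟨x, hx, h⟩ := ih
    refine ⟨x / 2, by linarith, ?_⟩
    rw [List.replicate_succ]
    unfold hh
    rw [if_neg (by simp), h]
    change (((if x < 0 then x / 2 else x + 1 : ℚ)) : WithBot ℚ) = _
    rw [if_pos hx]

/-- The two structures are not isomorphic. -/
theorem not_iso (F : X ⊕ List Ph ⊕ Empty ≃ X ⊕ List Ph ⊕ Empty)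
    (hF : ∀ N, IsoN (str (tw true) Empty) (str (tw false) Empty) N F) : False := by
  have hm : ∀ k, F (.inr (.inl (List.replicate k 0))) = .inr (.inl (List.replicate k 0)) := by
    intro k
    have h1 : ∀ n : ℕ, ∃ z, F (.inr (.inl (List.replicate k 0))) = .inr (.inl z) ∧
        (tw false).lev z = k ∧ (n : ℕ∞) ≤ (tw false).cz z := by
      intro n
      obtain ⟨z, h, h2, h3⟩ := (rm_P _).1 ((hF (idx (Rl.P k n)) _ (Rl.P k n)
        ![.inr (.inl (List.replicate k 0))] le_rfl).1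
        ((rm_P _).2 ⟨_, rfl, (topTw true).lev k, by rw [(topTw true).cz k]; exact le_top⟩))
      exact ⟨z, h, h2, h3⟩
    obtain ⟨z, h2, h3, -⟩ := h1 0
    have h4 : (tw false).cz z = ⊤ := by
      rw [← top_le_iff, ← ENat.forall_natCast_le_iff_le]
      intro n _
      obtain ⟨z', h5, -, h6⟩ := h1 n
      rw [h2] at h5
      simp only [Sum.inr.injEq, Sum.inl.injEq] at h5
      rw [h5]; exact h6
    rw [h2, (topTw false).uniq z h4, h3]
  have hlab : ∀ k, F (.inl (toLex (0, (hh dfp (List.replicate (k + 1) 0)).unbotD 0))) =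
      .inl (toLex (0, (k : ℚ))) := by
    intro k
    obtain ⟨z, y, h1, h2, -, h3⟩ := (rm_G _).1 ((hF (idx (Rl.G k)) _ (Rl.G k)
      ![.inr (.inl (List.replicate (k + 1) 0)),
        .inl (toLex (0, (hh dfp (List.replicate (k + 1) 0)).unbotD 0))] le_rfl).1
      ((rm_G _).2 ⟨_, _, rfl, rfl, (topTw true).lev (k + 1), rfl⟩))
    change F (.inr (.inl (List.replicate (k + 1) 0))) = _ at h1
    change F (.inl (toLex (0, (hh dfp (List.replicate (k + 1) 0)).unbotD 0))) = _ at h2
    rw [hm] at h1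
    simp only [Sum.inr.injEq, Sum.inl.injEq] at h1
    rw [h2, ← h3, ← h1]
    change Sum.inl (toLex (0, (hh dfm (List.replicate (k + 1) 0)).unbotD 0)) = _
    rw [hh_m]
    rfl
  -- the image of `0`
  obtain ⟨y, hy, -⟩ := (rm_U _).1 ((hF (idx (Rl.U 0)) _ (Rl.U 0) ![.inl (toLex (0, (0 : ℚ)))]
    le_rfl).1 ((rm_U _).2 ⟨_, rfl, by simp⟩))
  change F (.inl (toLex (0, (0 : ℚ)))) = .inl y at hy
  have hlt : ∀ k : ℕ, (toLex (0, (k : ℚ)) : X) < y := by
    intro k
    obtain ⟨x, hx, hxk⟩ := hh_p k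
    obtain ⟨u, v, h1, h2, h3⟩ := (rm_Lt _).1 ((hF (idx Rl.Lt) _ Rl.Lt
      ![.inl (toLex (0, (hh dfp (List.replicate (k + 1) 0)).unbotD 0)),
        .inl (toLex (0, (0 : ℚ)))] le_rfl).1
      ((rm_Lt _).2 ⟨_, _, rfl, rfl, by
        rw [hxk, WithBot.unbotD_coe, Prod.Lex.lt_iff]
        right
        exact ⟨rfl, hx⟩⟩))
    change F (.inl (toLex (0, (hh dfp (List.replicate (k + 1) 0)).unbotD 0))) = _ at h1
    change F (.inl (toLex (0, (0 : ℚ)))) = _ at h2
    rw [hlab, Sum.inl.injEq] at h1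
    rw [hy, Sum.inl.injEq] at h2
    rw [h1, h2]; exact h3
  have hU : ¬ ∃ z, (.inl y : X ⊕ List Ph ⊕ Empty) = .inl z ∧ ((1 : ℕ) : ℕ∞) ≤ (tw false).c z := by
    intro h
    have h1 := (hF (idx (Rl.U 1)) _ (Rl.U 1) ![.inl (toLex (0, (0 : ℚ)))] le_rfl).2
      ((rm_U _).2 (by
        change ∃ x, F (.inl (toLex (0, (0 : ℚ)))) = _ ∧ _
        rw [hy]; exact h))
    obtain ⟨x, h2, h3⟩ := (rm_U _).1 h1
    simp only [Matrix.cons_val_fin_one, Sum.inl.injEq] at h2
    rw [← h2] at h3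
    change ((1 : ℕ) : ℕ∞) ≤ ((0 : ℕ) : ℕ∞) at h3
    rw [Nat.cast_le] at h3
    omega
  have hy0 : (ofLex y).1 = 0 := by
    by_contra hne
    apply hU
    refine ⟨y, rfl, ?_⟩
    change ((1 : ℕ) : ℕ∞) ≤ ((ofLex y).1 : ℕ∞)
    exact_mod_cast Nat.one_le_iff_ne_zero.2 hne
  obtain ⟨k, hk⟩ := exists_nat_gt (ofLex y).2
  have := hlt k
  rw [Prod.Lex.lt_iff] at this
  rcases this with h | ⟨-, h⟩
  · change 0 < (ofLex y).1 at h
    omega
  · change (k : ℚ) < (ofLex y).2 at h
    linarith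

end Pool.Agent.Y567.MC
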