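import Pool.Agent.Y567.MC.Chain

/-!
The standard towers: a point of level `k` is a list of `k` finitely supported functions.
-/

set_option autoImplicit false

namespace Pool.Agent.Y567.MC.Std

open Set

/-- heights -/
abbrev X : Type := ℕ ×ₗ ℚ

/-- coordinates -/
abbrev Ph : Type := X →₀ ℕ

/-- least difference of two functions -/
noncomputable def sg (f g : Ph) : WithTop X := (f.neLocus g).min

theorem le_sg {f g : Ph} {x : WithTop X} : x ≤ sg f g ↔ ∀ u : X, (u : WithTop X) < x → f u = g u := by
  unfold sg
  rw [Finset.le_min_iff]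
  constructor
  · intro h u hu
    by_contra hn
    exact absurd (h u (by simpa using hn)) (not_le.2 hu)
  · intro h u hu
    by_contra hn
    exact (by simpa using hu : f u ≠ g u) (h u (not_le.1 hn))

theorem sg_comm (f g : Ph) : sg f g = sg g f := by
  unfold sg; rw [Finsupp.neLocus_comm]

theorem sg_top {f g : Ph} : sg f g = ⊤ ↔ f = g := by
  rw [← top_le_iff, le_sg]
  constructor
  · intro h; ext u; exact h u (WithTop.coe_lt_top u)
  · rintro rfl u _; rfl

theorem sg_tri {f g h : Ph} : min (sg f g) (sg g h) ≤ sg f h := by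
  rw [le_sg]
  intro u hu
  obtain ⟨h1, h2⟩ := lt_min_iff.1 hu
  exact (le_sg.1 le_rfl u h1).trans (le_sg.1 le_rfl u h2)

/-- least difference of two lists of the same length -/
noncomputable def Ds : List Ph → List Ph → WithTop X
  | f :: z, g :: w => min (sg f g) (Ds z w)
  | _, _ => ⊤

theorem Ds_comm : ∀ z w : List Ph, Ds z w = Ds w z
  | [], [] => rfl
  | [], _ :: _ => rfl
  | _ :: _, [] => rfl
  | f :: z, g :: w => by simp only [Ds]; rw [sg_comm, Ds_comm z w]

theorem Ds_self : ∀ z : List Ph, Ds z z = ⊤
  | [] => rfl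
  | f :: z => by simp only [Ds]; rw [sg_top.2 rfl, Ds_self z, min_self]

theorem Ds_top : ∀ z w : List Ph, z.length = w.length → Ds z w = ⊤ → z = w
  | [], [], _, _ => rfl
  | f :: z, g :: w, hl, h => by
    simp only [Ds, min_eq_top] at h
    rw [sg_top.1 h.1, Ds_top z w (by simpa using hl) h.2]

theorem Ds_tri : ∀ x y z : List Ph, x.length = y.length → y.length = z.length →
    min (Ds x y) (Ds y z) ≤ Ds x z
  | [], [], [], _, _ => by simp [Ds]
  | f :: x, g :: y, h :: z, h1, h2 => by
    simp only [Ds]
    have h3 := Ds_tri x y z (by simpa using h1) (by simpa using h2)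
    have h4 := sg_tri (f := f) (g := g) (h := h)
    refine le_min ?_ ?_
    · refine le_trans ?_ h4
      exact le_min ((min_le_left _ _).trans (min_le_left _ _))
        ((min_le_right _ _).trans (min_le_left _ _))
    · refine le_trans ?_ h3
      exact le_min ((min_le_left _ _).trans (min_le_right _ _))
        ((min_le_right _ _).trans (min_le_right _ _))

theorem Ds_tail (z w : List Ph) : Ds z w ≤ Ds z.tail w.tail := by
  cases z with
  | nil => cases w <;> simp [Ds]
  | cons f z =>
    cases w with
    | nil => simp [Ds]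
    | cons g w => simp [Ds]

/-- the top points -/
noncomputable def tp (z : List Ph) : List Ph := List.replicate z.length 0

theorem tp_length (z : List Ph) : (tp z).length = z.length := by simp [tp]

theorem tp_eq {z w : List Ph} (h : z.length = w.length) : tp z = tp w := by simp [tp, h]

theorem tp_tail (z : List Ph) : (tp z).tail = tp z.tail := by
  cases z <;> simp [tp]

/-- heights as elements of the order -/
def emb (x : X) : X := toLex ((ofLex x).1 + 1, (ofLex x).2)

theorem emb_le {x y : X} : emb x ≤ emb y ↔ x ≤ y := by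
  simp only [emb, Prod.Lex.le_iff, ofLex_toLex]
  constructor
  · rintro (h | ⟨h1, h2⟩)
    · left; omega
    · right; exact ⟨by omega, h2⟩
  · rintro (h | ⟨h1, h2⟩)
    · left; omega
    · right; exact ⟨by omega, h2⟩

/-- colour -/
def col (x : X) : ℕ∞ := ((ofLex x).1 : ℕ)

theorem col_mono : Monotone col := by
  intro x y h
  rw [Prod.Lex.le_iff] at h
  unfold col
  rcases h with h | ⟨h, -⟩
  · exact_mod_cast h.le
  · rw [h]

theorem col_ne_top (x : X) : col x ≠ ⊤ := ENat.natCast_ne_top _

theorem exists_emb {x : X} (h : 1 ≤ col x) : ∃ u, emb u = x := by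
  have h1 : 1 ≤ (ofLex x).1 := by unfold col at h; exact_mod_cast h
  refine ⟨toLex ((ofLex x).1 - 1, (ofLex x).2), ?_⟩
  simp only [emb, ofLex_toLex]
  rw [Nat.sub_add_cancel h1]
  rfl

theorem col_emb (x : X) : 1 ≤ col (emb x) := by
  simp [col, emb]

/-- distance as element of the order -/
noncomputable def dist (z w : List Ph) : X := emb ((Ds z w).untopD (toLex (0, 0)))

theorem dist_comm (z w : List Ph) : dist z w = dist w z := by unfold dist; rw [Ds_comm]

theorem Ds_ne_top {z w : List Ph} (hl : z.length = w.length) (h : z ≠ w) : Ds z w ≠ ⊤ :=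
  fun h1 => h (Ds_top z w hl h1)

theorem le_dist {z w : List Ph} (hl : z.length = w.length) (h : z ≠ w) {x : X} :
    emb x ≤ dist z w ↔ (x : WithTop X) ≤ Ds z w := by
  obtain ⟨y, hy⟩ := WithTop.ne_top_iff_exists.1 (Ds_ne_top hl h)
  rw [dist, ← hy, WithTop.untopD_coe, emb_le, WithTop.coe_le_coe]

theorem dist_le_dist {z w z' w' : List Ph} (hl : z.length = w.length) (h : z ≠ w)
    (hl' : z'.length = w'.length) (h' : z' ≠ w') (hd : Ds z w ≤ Ds z' w') :
    dist z w ≤ dist z' w' := by
  obtain ⟨y, hy⟩ := WithTop.ne_top_iff_exists.1 (Ds_ne_top hl h)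
  have : dist z w = emb y := by rw [dist, ← hy, WithTop.untopD_coe]
  rw [this, le_dist hl' h', hy]
  exact hd

theorem min_dist_le {a b a' b' z w : List Ph} (hl : a.length = b.length) (h : a ≠ b)
    (hl' : a'.length = b'.length) (h' : a' ≠ b') (hz : z.length = w.length) (hzw : z ≠ w)
    (hd : min (Ds a b) (Ds a' b') ≤ Ds z w) : min (dist a b) (dist a' b') ≤ dist z w := by
  rcases min_le_iff.1 hd with h1 | h1
  · exact (min_le_left _ _).trans (dist_le_dist hl h hz hzw h1)
  · exact (min_le_right _ _).trans (dist_le_dist hl' h' hz hzw h1)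

/-- colour of a point -/
noncomputable def cz (z : List Ph) : ℕ∞ := by
  classical exact if z = tp z then ⊤ else col (dist z (tp z))

theorem cz_top {z : List Ph} : cz z = ⊤ ↔ z = tp z := by
  unfold cz
  split_ifs with h
  · simp [h.symm]
  · simp [h, col_ne_top]

theorem cz_of_ne {z : List Ph} (h : z ≠ tp z) : cz z = col (dist z (tp z)) := by
  unfold cz; rw [if_neg h]

/-- every rational number has infinitely many codes -/
noncomputable def dec (n : ℕ) : ℚ := (Denumerable.eqv ℚ).symm n.unpair.1

theorem dec_inf (y : ℚ) : {n | dec n = y}.Infinite := by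
  refine Set.infinite_of_injective_forall_mem (f := fun j => Nat.pair (Denumerable.eqv ℚ y) j) ?_ ?_
  · intro i j h
    have := congrArg (fun n => (Nat.unpair n).2) h
    simpa using this
  · intro j
    change (Denumerable.eqv ℚ).symm (Nat.pair (Denumerable.eqv ℚ y) j).unpair.1 = y
    rw [Nat.unpair_pair]
    exact Equiv.symm_apply_apply _ _

/-- the value at the last point of the support -/
noncomputable def lastv (f : Ph) : ℕ := f (f.support.max.unbotD (toLex (0, 0)))

/-- labels -/
noncomputable def hh (df : WithBot ℚ → ℚ) : List Ph → WithBot ℚ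
  | [] => ⊥
  | f :: w => by
    classical exact if f ≠ 0 ∧ hh df w < (dec (lastv f) : ℚ) then ((dec (lastv f) : ℚ) : WithBot ℚ)
      else ((df (hh df w) : ℚ) : WithBot ℚ)

theorem hh_lt {df : WithBot ℚ → ℚ} (hd : ∀ b, b < (df b : WithBot ℚ)) (f : Ph) (w : List Ph) :
    hh df w < hh df (f :: w) := by
  conv_rhs => unfold hh
  split_ifs with h
  · exact h.2
  · exact hd _

theorem hh_coe (df : WithBot ℚ → ℚ) (f : Ph) (w : List Ph) :
    hh df (f :: w) = (((hh df (f :: w)).unbotD 0 : ℚ) : WithBot ℚ) := by
  have : hh df (f :: w) ≠ ⊥ := by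
    conv_lhs => unfold hh
    split_ifs <;> simp
  obtain ⟨y, hy⟩ := WithBot.ne_bot_iff_exists.1 this
  rw [← hy]; rfl

/-- labels as elements of the order -/
noncomputable def lb (df : WithBot ℚ → ℚ) (z : List Ph) : X := toLex (0, (hh df z).unbotD 0)

theorem lb_lt {x : ℚ} {df : WithBot ℚ → ℚ} {z : List Ph} (hz : z ≠ []) :
    lb df z < (toLex (0, x) : X) ↔ hh df z < (x : WithBot ℚ) := by
  cases z with
  | nil => exact absurd rfl hz
  | cons f w =>
    rw [hh_coe df f w]
    simp [lb, Prod.Lex.lt_iff]

theorem sg_of {f g : Ph} {q : X} (h1 : ∀ u, u < q → f u = g u) (h2 : f q ≠ g q) :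
    sg f g = q := by
  refine le_antisymm ?_ (le_sg.2 fun u hu => h1 u (WithTop.coe_lt_coe.1 hu))
  by_contra hn
  exact h2 (le_sg.1 le_rfl q (not_le.1 hn))

/-- The new coordinate. -/
theorem exists_coord (f0 : Ph) (q : X) (r : ℕ) (hr : r ≠ 0) :
    ∃ f : Ph, (∀ u, u < q → f u = f0 u) ∧ f q = r ∧ f ≠ 0 ∧ lastv f = r := by
  classical
  refine ⟨(f0.filter (· < q)).update q r, ?_, ?_, ?_, ?_⟩
  · intro u hu
    rw [Finsupp.coe_update, Function.update_of_ne hu.ne, Finsupp.filter_apply, if_pos hu]
  · rw [Finsupp.coe_update, Function.update_self]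
  · intro h
    have := DFunLike.congr_fun h q
    rw [Finsupp.coe_update, Function.update_self] at this
    exact hr this
  · have hmax : ((f0.filter (· < q)).update q r).support.max = (q : WithBot X) := by
      refine le_antisymm (Finset.max_le ?_) (Finset.le_max ?_)
      · intro u hu
        rw [Finsupp.mem_support_iff, Finsupp.coe_update] at hu
        by_cases huq : u = q
        · rw [huq]
        · rw [Function.update_of_ne huq, Finsupp.filter_apply] at hu
          have : u < q := by
            by_contra hn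
            rw [if_neg hn] at hu
            exact hu rfl
          exact_mod_cast this.le
      · rw [Finsupp.mem_support_iff, Finsupp.coe_update, Function.update_self]
        exact hr
    rw [lastv, hmax, WithBot.unbotD_coe, Finsupp.coe_update, Function.update_self]

theorem ext_aux {df : WithBot ℚ → ℚ} (f0 : Ph) (v w : List Ph) (q : X) (y : ℚ)
    (hvw : w.length = v.length) (hq : (q : WithTop X) ≤ Ds w v) (hy : hh df w < (y : WithBot ℚ))
    (F : Set (List Ph)) (hF : F.Finite)
    (hF' : ∀ b ∈ F, b.length = v.length + 1 ∧ (q : WithTop X) ≤ Ds b (f0 :: v)) :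
    ∃ f : Ph, hh df (f :: w) = (y : WithBot ℚ) ∧ ∀ b ∈ F, Ds b (f :: w) = q := by
  classical
  have hfin : (insert 0 ((fun b : List Ph => (b.headD 0) q) '' F)).Finite := (hF.image _).insert _
  obtain ⟨r, hr, hr'⟩ := ((dec_inf y).sdiff hfin).nonempty
  have hr0 : r ≠ 0 := fun h => hr' (by simp [h])
  obtain ⟨f, h1, h2, h3, h4⟩ := exists_coord f0 q r hr0
  refine ⟨f, ?_, ?_⟩
  · unfold hh
    rw [h4, show dec r = y from hr, if_pos ⟨h3, hy⟩]
  · intro b hb
    obtain ⟨hbl, hbD⟩ := hF' b hb
    cases b with
    | nil => simp at hbl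
    | cons g u =>
      have hul : u.length = v.length := by simpa using hbl
      simp only [Ds, le_min_iff] at hbD
      have h5 : sg g f = q := by
        refine sg_of (fun x hx => ?_) ?_
        · rw [h1 x hx]
          exact le_sg.1 hbD.1 x (WithTop.coe_lt_coe.2 hx)
        · intro h
          rw [h2] at h
          exact hr' (Or.inr ⟨g :: u, hb, h⟩)
      simp only [Ds, h5]
      refine min_eq_left (le_trans (le_min hbD.2 ?_) (Ds_tri u v w hul hvw.symm))
      rw [Ds_comm]; exact hq

/-- The standard tower. -/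
noncomputable def std (df : WithBot ℚ → ℚ) (hd : ∀ b, b < (df b : WithBot ℚ)) :
    Sys X (List Ph) where
  c := col
  lev := List.length
  e := List.tail
  cz := cz
  h := lb df
  s := dist
  d := fun z => dist z (tp z)
  c_mono := col_mono
  lev_e := by
    intro z hz
    rw [List.length_tail]; omega
  root_ex := ⟨[], rfl⟩
  root_eq := by
    intro z w hz hw
    rw [List.length_eq_zero_iff.1 hz, List.length_eq_zero_iff.1 hw]
  cz_root := by
    intro z hz
    rw [cz_top, List.length_eq_zero_iff.1 hz]; rfl
  cz_pos := by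
    intro z
    by_cases h : z = tp z
    · rw [cz_top.2 h]; exact le_top
    · rw [cz_of_ne h]; exact col_emb _
  cz_e := by
    intro z _
    by_cases h : z.tail = tp z.tail
    · rw [cz_top.2 h]; exact le_top
    · have h' : z ≠ tp z := by
        intro h1
        apply h
        rw [← tp_tail, ← h1]
      rw [cz_of_ne h, cz_of_ne h']
      refine col_mono (dist_le_dist (tp_length z).symm h' (tp_length _).symm h ?_)
      rw [← tp_tail]; exact Ds_tail _ _
  c_h := by intro z _; simp [col, lb]
  h_e := by
    intro z hz hz'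
    cases z with
    | nil => exact absurd rfl hz
    | cons f w =>
      have hw : w ≠ [] := by rintro rfl; exact hz' rfl
      have := hh_lt hd f w
      rw [hh_coe df f w] at this
      exact (lb_lt hw).2 this
  s_comm := fun z w _ _ => dist_comm z w
  ultra := by
    intro x y z h1 h2 n1 n2 n3
    exact min_dist_le h1 n1 h2 n2 (h1.trans h2) n3 (Ds_tri x y z h1 h2)
  c_s := fun z w _ _ => col_emb _
  s_top := by
    intro z w hl hne h1 h2
    exact absurd ((cz_top.1 h1).trans ((tp_eq hl).trans (cz_top.1 h2).symm)) hne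
  s_d := by
    intro z w hl h1 h2
    rw [tp_eq hl, ← cz_top.1 h2]
  c_d := by
    intro z h1
    rw [cz_of_ne (fun h => h1 (cz_top.2 h))]
  d1 := by
    intro z w hl hne h1 h2
    have e1 : z ≠ tp z := fun h => h1 (cz_top.2 h)
    have e2 : w ≠ tp w := fun h => h2 (cz_top.2 h)
    refine min_dist_le (tp_length z).symm e1 hl hne (tp_length w).symm e2 ?_
    rw [tp_eq hl, min_comm, Ds_comm z w]
    exact Ds_tri w z (tp w) hl.symm (by rw [tp_length]; exact hl)
  d2 := by
    intro z w hl hne h1 h2
    have e1 : z ≠ tp z := fun h => h1 (cz_top.2 h)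
    have e2 : w ≠ tp w := fun h => h2 (cz_top.2 h)
    refine min_dist_le (tp_length z).symm e1 (tp_length w).symm e2 hl hne ?_
    rw [tp_eq hl, Ds_comm w (tp w)]
    exact Ds_tri z (tp w) w (by rw [tp_length]; exact hl) (tp_length w)
  s_e := by
    intro z w hl h0 hne
    exact dist_le_dist hl (fun h => hne (by rw [h])) (by simp [hl]) hne (Ds_tail _ _)
  d_e := by
    intro z h0 h1 h2
    have e1 : z ≠ tp z := fun h => h1 (cz_top.2 h)
    have e2 : z.tail ≠ tp z.tail := fun h => h2 (cz_top.2 h)
    refine dist_le_dist (tp_length z).symm e1 (tp_length _).symm e2 ?_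
    rw [← tp_tail]; exact Ds_tail _ _
  unb := by
    intro k _ x hx
    refine ⟨List.replicate k 0, by simp, ?_⟩
    rw [cz_top.2 (by simp [tp])]
    exact lt_top_iff_ne_top.2 hx
  ext := by
    intro a w q y F hF hlw hcond hq hy hhw hFa
    obtain ⟨q0, rfl⟩ := exists_emb hq
    cases a with
    | nil => simp at hlw
    | cons f0 v =>
      have hvw : w.length = v.length := by simpa using hlw
      simp only [List.tail_cons] at hcond
      have hq0 : (q0 : WithTop X) ≤ Ds w v := by
        by_cases h : w = v
        · rw [h, Ds_self]; exact le_top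
        · exact (le_dist hvw h).1 (hcond.resolve_left h)
      obtain ⟨yr, rfl⟩ : ∃ yr : ℚ, toLex (0, yr) = y := by
        refine ⟨(ofLex y).2, ?_⟩
        have : (ofLex y).1 = 0 := by unfold col at hy; exact_mod_cast hy
        rw [← this]; rfl
      have hyr : hh df w < (yr : WithBot ℚ) := by
        by_cases hw0 : w = []
        · subst hw0; exact WithBot.bot_lt_coe _
        · exact (lb_lt hw0).1 (hhw (by simpa using hw0))
      obtain ⟨f, h1, h2⟩ := ext_aux (df := df) f0 v w q0 yr hvw hq0 hyr (insert (f0 :: v) F)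
        (hF.insert _) (by
          rintro b (rfl | hb)
          · exact ⟨rfl, by rw [Ds_self]; exact le_top⟩
          · rcases hFa b hb with rfl | ⟨h3, h4⟩
            · exact ⟨rfl, by rw [Ds_self]; exact le_top⟩
            · refine ⟨by simpa using h3, ?_⟩
              by_cases hba : b = f0 :: v
              · rw [hba, Ds_self]; exact le_top
              · exact (le_dist h3 hba).1 h4)
      have h3 : ∀ b, Ds b (f :: w) = q0 → b ≠ f :: w ∧ dist b (f :: w) = emb q0 := by
        intro b hb
        refine ⟨?_, ?_⟩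
        · rintro rfl
          rw [Ds_self] at hb
          exact WithTop.coe_ne_top hb.symm
        · rw [dist, hb, WithTop.untopD_coe]
      refine ⟨f :: w, rfl, by simp [hvw], ?_, h3 _ (h2 _ (by simp)),
        fun b hb => h3 b (h2 b (by simp [hb]))⟩
      rw [lb, h1]; rfl

end Pool.Agent.Y567.MC.Std
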