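import Mathlib

/-!
Towers of ultrametric spaces with heights in a coloured dense linear order, and the one-point
extension of finite partial isomorphisms between them.
-/

set_option autoImplicit false

namespace Pool.Agent.Y567.MC

open Set

/-- A tower of ultrametric spaces `Z_k = {z | lev z = k}` with heights in the linear order `H`. -/
structure Sys (H Z : Type) [LinearOrder H] where
  c : H → ℕ∞
  lev : Z → ℕ
  e : Z → Z
  cz : Z → ℕ∞
  h : Z → H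
  s : Z → Z → H
  d : Z → H
  c_mono : Monotone c
  lev_e : ∀ z, lev z ≠ 0 → lev (e z) + 1 = lev z
  root_ex : ∃ z, lev z = 0
  root_eq : ∀ z w, lev z = 0 → lev w = 0 → z = w
  cz_root : ∀ z, lev z = 0 → cz z = ⊤
  cz_pos : ∀ z, 1 ≤ cz z
  cz_e : ∀ z, lev z ≠ 0 → cz z ≤ cz (e z)
  c_h : ∀ z, lev z ≠ 0 → c (h z) = 0
  h_e : ∀ z, lev z ≠ 0 → lev (e z) ≠ 0 → h (e z) < h z
  s_comm : ∀ z w, lev z = lev w → z ≠ w → s z w = s w z
  ultra : ∀ x y z, lev x = lev y → lev y = lev z → x ≠ y → y ≠ z → x ≠ z →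
    min (s x y) (s y z) ≤ s x z
  c_s : ∀ z w, lev z = lev w → z ≠ w → 1 ≤ c (s z w)
  s_top : ∀ z w, lev z = lev w → z ≠ w → cz z = ⊤ → cz w = ⊤ → c (s z w) = ⊤
  s_d : ∀ z w, lev z = lev w → cz z ≠ ⊤ → cz w = ⊤ → s z w = d z
  c_d : ∀ z, cz z ≠ ⊤ → c (d z) = cz z
  d1 : ∀ z w, lev z = lev w → z ≠ w → cz z ≠ ⊤ → cz w ≠ ⊤ → min (d z) (s z w) ≤ d w
  d2 : ∀ z w, lev z = lev w → z ≠ w → cz z ≠ ⊤ → cz w ≠ ⊤ → min (d z) (d w) ≤ s z w
  s_e : ∀ z w, lev z = lev w → lev z ≠ 0 → e z ≠ e w → s z w ≤ s (e z) (e w)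
  d_e : ∀ z, lev z ≠ 0 → cz z ≠ ⊤ → cz (e z) ≠ ⊤ → d z ≤ d (e z)
  unb : ∀ k, k ≠ 0 → ∀ x, c x ≠ ⊤ → ∃ z, lev z = k ∧ c x < cz z
  ext : ∀ (a w : Z) (q y : H) (F : Set Z), F.Finite → lev w + 1 = lev a →
    (w = e a ∨ q ≤ s w (e a)) → 1 ≤ c q → c y = 0 → (lev w ≠ 0 → h w < y) →
    (∀ b ∈ F, b = a ∨ (lev b = lev a ∧ q ≤ s b a)) →
    ∃ z, e z = w ∧ lev z = lev a ∧ h z = y ∧ (a ≠ z ∧ s a z = q) ∧ ∀ b ∈ F, b ≠ z ∧ s b z = q

namespace Sys

variable {H Z : Type} [LinearOrder H] (S : Sys H Z)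

theorem lt_of_c {x y : H} (h : S.c x < S.c y) : x < y := by
  by_contra hn
  exact absurd (S.c_mono (not_lt.1 hn)) (not_le.2 h)

theorem s_eq_d {a b : Z} (hl : S.lev a = S.lev b) (h : S.cz a < S.cz b) : S.s a b = S.d a := by
  have ha : S.cz a ≠ ⊤ := ne_top_of_lt h
  have hab : a ≠ b := by rintro rfl; exact lt_irrefl _ h
  by_cases hb : S.cz b = ⊤
  · exact S.s_d a b hl ha hb
  · have hd : S.d a < S.d b := S.lt_of_c (by rw [S.c_d a ha, S.c_d b hb]; exact h)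
    have h1 := S.d2 a b hl hab ha hb
    rw [min_eq_left hd.le] at h1
    have h2 := S.d1 b a hl.symm hab.symm hb ha
    rw [S.s_comm b a hl.symm hab.symm] at h2
    rcases min_le_iff.1 h2 with h3 | h3
    · exact absurd h3 (not_le.2 hd)
    · exact le_antisymm h3 h1

theorem cs_ge {a b : Z} (hl : S.lev a = S.lev b) (hab : a ≠ b) :
    min (S.cz a) (S.cz b) ≤ S.c (S.s a b) := by
  by_cases ha : S.cz a = ⊤
  · by_cases hb : S.cz b = ⊤
    · rw [S.s_top a b hl hab ha hb]; exact le_top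
    · rw [S.s_comm a b hl hab, S.s_d b a hl.symm hb ha, S.c_d b hb]; exact min_le_right _ _
  · by_cases hb : S.cz b = ⊤
    · rw [S.s_d a b hl ha hb, S.c_d a ha]; exact min_le_left _ _
    · have h1 := S.c_mono (S.d2 a b hl hab ha hb)
      rcases le_total (S.d a) (S.d b) with h2 | h2
      · rw [min_eq_left h2, S.c_d a ha] at h1
        exact (min_le_left _ _).trans h1
      · rw [min_eq_right h2, S.c_d b hb] at h1
        exact (min_le_right _ _).trans h1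

/-- two close points: if `s a z` is larger than `d z`, or `a`, `z` are both top -/
theorem d_eq_of_lt {a z : Z} (hl : S.lev a = S.lev z) (haz : a ≠ z) (ha : S.cz a ≠ ⊤)
    (h : S.d a < S.s a z) : S.cz z ≠ ⊤ ∧ S.d z = S.d a := by
  have hz : S.cz z ≠ ⊤ := by
    intro hz
    rw [S.s_d a z hl ha hz] at h
    exact lt_irrefl _ h
  refine ⟨hz, ?_⟩
  have h1 := S.d1 a z hl haz ha hz
  rw [min_eq_left h.le] at h1
  have h2 := S.d1 z a hl.symm haz.symm hz ha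
  rw [S.s_comm z a hl.symm haz.symm] at h2
  rcases min_le_iff.1 h2 with h3 | h3
  · exact le_antisymm h3 h1
  · exact absurd h3 (not_le.2 h)

theorem s_iso {a b z : Z} (hab : S.lev a = S.lev b) (hbz : S.lev b = S.lev z) (n1 : a ≠ b)
    (n2 : b ≠ z) (h : S.s a b < S.s b z) : a ≠ z ∧ S.s a z = S.s a b := by
  have n3 : a ≠ z := by
    rintro rfl
    rw [S.s_comm a b hab n1] at h
    exact lt_irrefl _ h
  refine ⟨n3, le_antisymm ?_ ?_⟩
  · have h2 := S.ultra a z b (hab.trans hbz) hbz.symm n3 n2.symm n1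
    rw [S.s_comm z b hbz.symm n2.symm] at h2
    rcases min_le_iff.1 h2 with h3 | h3
    · exact h3
    · exact absurd h3 (not_le.2 h)
  · have h2 := S.ultra a b z hab hbz n1 n2 n3
    rwa [min_eq_left h.le] at h2

theorem ext1 {w : Z} {q y : H} {F : Set Z} (hF : F.Finite) (h1 : 1 ≤ S.c q) (h2 : S.c q ≠ ⊤)
    (hy : S.c y = 0) (hw : S.lev w ≠ 0 → S.h w < y) (hq : S.cz w = ⊤ ∨ q ≤ S.d w)
    (hFd : ∀ b ∈ F, S.lev b = S.lev w + 1 ∧ S.cz b ≠ ⊤ ∧ S.d b = q) :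
    ∃ z, S.e z = w ∧ S.lev z = S.lev w + 1 ∧ S.h z = y ∧ S.cz z ≠ ⊤ ∧ S.d z = q ∧
      ∀ b ∈ F, b ≠ z ∧ S.s b z = q := by
  obtain ⟨b0, hb0, hc⟩ := S.unb (S.lev w + 1) (Nat.succ_ne_zero _) q h2
  have he : S.lev (S.e b0) + 1 = S.lev b0 := S.lev_e b0 (by omega)
  have hl : S.lev w = S.lev (S.e b0) := by omega
  have hce : S.c q < S.cz (S.e b0) := hc.trans_le (S.cz_e b0 (by omega))
  have hcond : w = S.e b0 ∨ q ≤ S.s w (S.e b0) := by
    by_cases hne : w = S.e b0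
    · exact Or.inl hne
    refine Or.inr ?_
    by_cases hw1 : S.cz w = ⊤
    · refine (S.lt_of_c (lt_of_lt_of_le ?_ (S.cs_ge hl hne))).le
      rw [hw1, min_eq_right le_top]; exact hce
    · have hqw : q ≤ S.d w := hq.resolve_left hw1
      by_cases hw2 : S.cz (S.e b0) = ⊤
      · rw [S.s_d w _ hl hw1 hw2]; exact hqw
      · refine le_trans (le_min hqw ?_) (S.d2 w _ hl hne hw1 hw2)
        exact (S.lt_of_c (by rw [S.c_d _ hw2]; exact hce)).le
  obtain ⟨z, z1, z2, z3, ⟨z4, z5⟩, z6⟩ := S.ext b0 w q y F hF (by omega) hcond h1 hy hw (by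
    intro b hb
    obtain ⟨h3, h4, h5⟩ := hFd b hb
    refine Or.inr ⟨by omega, ?_⟩
    have h6 : S.cz b < S.cz b0 := by rw [← S.c_d b h4, h5]; exact hc
    rw [S.s_eq_d (by omega) h6, h5])
  have hlz : S.lev z = S.lev b0 := z2
  have h7 : S.cz z < S.cz b0 := by
    by_contra hn
    have h8 := S.cs_ge hlz.symm z4
    rw [min_eq_left (not_lt.1 hn), z5] at h8
    exact absurd h8 (not_le.2 hc)
  have h8 : S.s z b0 = S.d z := S.s_eq_d hlz h7
  rw [S.s_comm z b0 hlz z4.symm, z5] at h8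
  exact ⟨z, z1, by omega, z3, ne_top_of_lt h7, h8.symm, z6⟩

end Sys

/-- A colouring of a linear order all of whose classes are singletons or dense without end
points. -/
structure Col {H ι : Type} [LinearOrder H] (ρ : H → ι) (sg : ι → Prop) : Prop where
  single : ∀ x y, sg (ρ x) → ρ y = ρ x → y = x
  down : ∀ x, ¬ sg (ρ x) → ∃ y, y < x ∧ ρ y = ρ x
  up : ∀ x, ¬ sg (ρ x) → ∃ y, x < y ∧ ρ y = ρ x
  mid : ∀ x y, ¬ sg (ρ x) → ρ y = ρ x → x < y → ∃ t, x < t ∧ t < y ∧ ρ t = ρ x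

theorem Col.between {H ι : Type} [LinearOrder H] {ρ : H → ι} {sg : ι → Prop} (hc : Col ρ sg)
    {x : H} (hx : ¬ sg (ρ x)) {F G : Set H} (hF : F.Finite) (hG : G.Finite)
    (hFx : ∀ a ∈ F, ρ a = ρ x) (hGx : ∀ a ∈ G, ρ a = ρ x) (hFG : ∀ a ∈ F, ∀ b ∈ G, a < b) :
    ∃ t, ρ t = ρ x ∧ (∀ a ∈ F, a < t) ∧ ∀ b ∈ G, t < b := by
  rcases F.eq_empty_or_nonempty with hF0 | hF0
  · rcases G.eq_empty_or_nonempty with hG0 | hG0
    · exact ⟨x, rfl, by simp [hF0], by simp [hG0]⟩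
    · obtain ⟨b, hb, hmin⟩ := Set.exists_min_image G id hG hG0
      obtain ⟨t, ht, htx⟩ := hc.down b (by rw [hGx b hb]; exact hx)
      exact ⟨t, htx.trans (hGx b hb), by simp [hF0], fun b' hb' => ht.trans_le (hmin b' hb')⟩
  · obtain ⟨a, ha, hmax⟩ := Set.exists_max_image F id hF hF0
    rcases G.eq_empty_or_nonempty with hG0 | hG0
    · obtain ⟨t, ht, htx⟩ := hc.up a (by rw [hFx a ha]; exact hx)
      exact ⟨t, htx.trans (hFx a ha), fun a' ha' => (hmax a' ha').trans_lt ht, by simp [hG0]⟩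
    · obtain ⟨b, hb, hmin⟩ := Set.exists_min_image G id hG hG0
      obtain ⟨t, h1, h2, htx⟩ := hc.mid a b (by rw [hFx a ha]; exact hx)
        ((hGx b hb).trans (hFx a ha).symm) (hFG a ha b hb)
      exact ⟨t, htx.trans (hFx a ha), fun a' ha' => (hmax a' ha').trans_lt h1,
        fun b' hb' => h2.trans_le (hmin b' hb')⟩

/-- Two coloured orders with matching classes. -/
structure Match {H H' ι : Type} [LinearOrder H] [LinearOrder H'] (ρ : H → ι) (ρ' : H' → ι)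
    (sg : ι → Prop) : Prop where
  col : Col ρ sg
  col' : Col ρ' sg
  lab : ∀ x, ∃ x', ρ' x' = ρ x
  lab' : ∀ x', ∃ x, ρ x = ρ' x'
  sep : ∀ x x' y y', ρ x = ρ' x' → ρ y = ρ' y' → ρ x ≠ ρ y → (x < y ↔ x' < y')

theorem Match.symm {H H' ι : Type} [LinearOrder H] [LinearOrder H'] {ρ : H → ι} {ρ' : H' → ι}
    {sg : ι → Prop} (m : Match ρ ρ' sg) : Match ρ' ρ sg where
  col := m.col'
  col' := m.col
  lab := m.lab'
  lab' := m.lab
  sep := fun x x' y y' h1 h2 h3 =>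
    (m.sep x' x y' y h1.symm h2.symm (by rw [← h1, ← h2]; exact h3)).symm

/-- order and label preserving relations -/
structure AG {H H' ι : Type} [LinearOrder H] [LinearOrder H'] (ρ : H → ι) (ρ' : H' → ι)
    (A : Set (H × H')) : Prop where
  ord : ∀ {x x' y y'}, (x, x') ∈ A → (y, y') ∈ A → (x < y ↔ x' < y')
  lab : ∀ {x x'}, (x, x') ∈ A → ρ x = ρ' x'

namespace AG

variable {H H' ι : Type} [LinearOrder H] [LinearOrder H'] {ρ : H → ι} {ρ' : H' → ι}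
  {A : Set (H × H')}

theorem le_iff (hA : AG ρ ρ' A) {x x' y y'} (h1 : (x, x') ∈ A) (h2 : (y, y') ∈ A) :
    x ≤ y ↔ x' ≤ y' := by
  rw [← not_lt, ← not_lt, hA.ord h2 h1]

theorem eq_iff (hA : AG ρ ρ' A) {x x' y y'} (h1 : (x, x') ∈ A) (h2 : (y, y') ∈ A) :
    x = y ↔ x' = y' := by
  rw [le_antisymm_iff, le_antisymm_iff, hA.le_iff h1 h2, hA.le_iff h2 h1]

theorem swap (hA : AG ρ ρ' A) : AG ρ' ρ (Prod.swap ⁻¹' A) where
  ord := fun h1 h2 => (hA.ord h1 h2).symm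
  lab := fun h1 => (hA.lab h1).symm

theorem extend {sg : ι → Prop} (m : Match ρ ρ' sg) (hA : AG ρ ρ' A) (hf : A.Finite) (x : H) :
    ∃ x', AG ρ ρ' (insert (x, x') A) := by
  by_cases hx : ∃ x', (x, x') ∈ A
  · obtain ⟨x', hx'⟩ := hx
    exact ⟨x', by rw [Set.insert_eq_of_mem hx']; exact hA⟩
  obtain ⟨x', hl, hord⟩ : ∃ x', ρ' x' = ρ x ∧ ∀ y y', (y, y') ∈ A →
      ((x < y ↔ x' < y') ∧ (y < x ↔ y' < x')) := by
    obtain ⟨x0, hx0⟩ := m.lab x
    have hdiff : ∀ t, ρ' t = ρ x → ∀ y y', (y, y') ∈ A → ρ y ≠ ρ x →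
        ((x < y ↔ t < y') ∧ (y < x ↔ y' < t)) := fun t ht y y' hy hne =>
      ⟨m.sep x t y y' ht.symm (hA.lab hy) hne.symm, m.sep y y' x t (hA.lab hy) ht.symm hne⟩
    by_cases hsg : sg (ρ x)
    · refine ⟨x0, hx0, fun y y' hy => hdiff x0 hx0 y y' hy ?_⟩
      intro he
      have := m.col.single x y hsg he
      subst this
      exact hx ⟨y', hy⟩
    · have hfin : ∀ p : H × H' → Prop, {y' | ∃ y, (y, y') ∈ A ∧ p (y, y')}.Finite := fun p =>
        (hf.image Prod.snd).subset (by rintro y' ⟨y, hy, -⟩; exact ⟨_, hy, rfl⟩)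
      have hb := m.col'.between (x := x0) (by rw [hx0]; exact hsg)
        (F := {y' | ∃ y, (y, y') ∈ A ∧ (ρ y = ρ x ∧ y < x)})
        (G := {y' | ∃ y, (y, y') ∈ A ∧ (ρ y = ρ x ∧ x < y)})
        (hfin fun p => ρ p.1 = ρ x ∧ p.1 < x) (hfin fun p => ρ p.1 = ρ x ∧ x < p.1)
        (by rintro a ⟨b, hb, h1, -⟩; rw [← hA.lab hb, h1, hx0])
        (by rintro a ⟨b, hb, h1, -⟩; rw [← hA.lab hb, h1, hx0])
        (by
          rintro a ⟨b, hb, h1, h2⟩ a1 ⟨b1, hb1, h3, h4⟩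
          exact (hA.ord hb hb1).1 (h2.trans h4))
      obtain ⟨t, ht, hlo, hhi⟩ := hb
      rw [hx0] at ht
      refine ⟨t, ht, fun y y' hy => ?_⟩
      by_cases he : ρ y = ρ x
      · rcases lt_trichotomy y x with h1 | h1 | h1
        · have h2 := hlo y' ⟨y, hy, he, h1⟩
          exact ⟨⟨fun h => absurd (h.trans h1) (lt_irrefl _),
            fun h => absurd (h.trans h2) (lt_irrefl _)⟩, ⟨fun _ => h2, fun _ => h1⟩⟩
        · subst h1
          exact absurd ⟨y', hy⟩ hx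
        · have h2 := hhi y' ⟨y, hy, he, h1⟩
          exact ⟨⟨fun _ => h2, fun _ => h1⟩, ⟨fun h => absurd (h.trans h1) (lt_irrefl _),
            fun h => absurd (h.trans h2) (lt_irrefl _)⟩⟩
      · exact hdiff t ht y y' hy he
  refine ⟨x', ?_, ?_⟩
  · rintro a a' b b' (h1 | h1) (h2 | h2)
    · cases h1; cases h2; simp
    · cases h1; exact (hord _ _ h2).1
    · cases h2; exact (hord _ _ h1).2
    · exact hA.ord h1 h2
  · rintro a a' (h1 | h1)
    · cases h1; exact hl.symm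
    · exact hA.lab h1

theorem extendSet {sg : ι → Prop} (m : Match ρ ρ' sg) (hA : AG ρ ρ' A) (hf : A.Finite)
    {X : Set H} (hX : X.Finite) :
    ∃ A', A ⊆ A' ∧ A'.Finite ∧ AG ρ ρ' A' ∧ ∀ x ∈ X, ∃ x', (x, x') ∈ A' := by
  induction X, hX using Set.Finite.induction_on with
  | empty => exact ⟨A, subset_rfl, hf, hA, by simp⟩
  | @insert a X _ _ ih =>
    obtain ⟨A', h1, h2, h3, h4⟩ := ih
    obtain ⟨a', ha'⟩ := h3.extend m h2 a
    refine ⟨insert (a, a') A', h1.trans (Set.subset_insert _ _), h2.insert _, ha', ?_⟩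
    rintro x (rfl | hx)
    · exact ⟨a', Set.mem_insert _ _⟩
    · obtain ⟨x', hx'⟩ := h4 x hx
      exact ⟨x', Set.mem_insert_of_mem _ hx'⟩

end AG

end Pool.Agent.Y567.MC
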