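import Pool.Agent.Y567.MC.Typ

/-!
Towers with one top point on each level: the maps which preserve the first `N` symbols and the top
points preserve the realizations of complete types.
-/

set_option autoImplicit false

namespace Pool.Agent.Y567.MC

open Set FirstOrder FirstOrder.Language

/-- A tower with exactly one top point on each level. -/
structure TopSys {H Z : Type} [LinearOrder H] (S : Sys H Z) (m : ℕ → Z) : Prop where
  lev : ∀ k, S.lev (m k) = k
  cz : ∀ k, S.cz (m k) = ⊤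
  uniq : ∀ z, S.cz z = ⊤ → z = m (S.lev z)
  fin : ∀ x, S.c x ≠ ⊤
  all : ∀ n : ℕ, ∃ x, S.c x = n
  col : ∀ N : ℕ, 1 ≤ N → Col (fun x => tr N (S.c x)) (fun _ => False)

variable {H Z H' Z' : Type} [LinearOrder H] [LinearOrder H'] {S : Sys H Z} {S' : Sys H' Z'}
  {m : ℕ → Z} {m' : ℕ → Z'}

theorem TopSys.e (h : TopSys S m) (k : ℕ) : S.e (m (k + 1)) = m k := by
  have h1 : S.lev (m (k + 1)) ≠ 0 := by rw [h.lev]; omega
  have h2 := S.lev_e _ h1
  have h3 := S.cz_e _ h1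
  rw [h.cz] at h3
  rw [h.uniq _ (top_le_iff.1 h3)]
  congr 1
  rw [h.lev] at h2
  omega

theorem matchTr (hS : TopSys S m) (hS' : TopSys S' m') {N : ℕ} (hN : 1 ≤ N) :
    Match (fun x => tr N (S.c x)) (fun x => tr N (S'.c x)) (fun _ => False) where
  col := hS.col N hN
  col' := hS'.col N hN
  lab := by
    intro x
    obtain ⟨n, hn⟩ := ENat.ne_top_iff_exists.1 (hS.fin x)
    obtain ⟨x', hx'⟩ := hS'.all n
    exact ⟨x', by change tr N (S'.c x') = tr N (S.c x); rw [hx', hn]⟩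
  lab' := by
    intro x
    obtain ⟨n, hn⟩ := ENat.ne_top_iff_exists.1 (hS'.fin x)
    obtain ⟨x', hx'⟩ := hS.all n
    exact ⟨x', by change tr N (S.c x') = tr N (S'.c x); rw [hx', hn]⟩
  sep := by
    intro x x' y y' h1 h2 h3
    have hm : ∀ {a b : H}, a ≤ b → tr N (S.c a) ≤ tr N (S.c b) := fun h => tr_mono (S.c_mono h)
    have hm' : ∀ {a b : H'}, a ≤ b → tr N (S'.c a) ≤ tr N (S'.c b) := fun h =>
      tr_mono (S'.c_mono h)
    constructor
    · intro h
      by_contra hn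
      have h4 := hm h.le
      have h5 := hm' (not_lt.1 hn)
      rw [← h1, ← h2] at h5
      exact h3 (le_antisymm h4 h5)
    · intro h
      by_contra hn
      have h4 := hm' h.le
      have h5 := hm (not_lt.1 hn)
      rw [← h1, ← h2] at h4
      exact h3 (le_antisymm h4 h5)

theorem topExtTr (hS' : TopSys S' m') {N : ℕ} (hN : 1 ≤ N) (ρ : H → ℕ∞) (ρ' : H' → ℕ∞)
    (L : ℕ∞) : TopExt (S.trunc N hN) (S'.trunc N hN) ρ ρ' L := by
  intro z w' y' hl _ _ hlw hcw _ hy hhw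
  change S'.lev w' + 1 = S.lev z at hlw
  change tr N (S'.cz w') = ⊤ at hcw
  change tr N (S'.c y') = 0 at hy
  change S'.lev w' ≠ 0 → S'.h w' < y' at hhw
  rw [tr_eq_top] at hcw
  rw [tr_zero hN] at hy
  have hla : S'.lev (m' (S.lev z)) = S.lev z := hS'.lev _
  have hea : S'.e (m' (S.lev z)) = m' (S'.lev w') := by rw [← hlw]; exact hS'.e _
  obtain ⟨q, hq1, hq2⟩ : ∃ q, (N : ℕ∞) ≤ S'.c q ∧
      (w' = S'.e (m' (S.lev z)) ∨ q ≤ S'.s w' (S'.e (m' (S.lev z)))) := by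
    by_cases h : w' = S'.e (m' (S.lev z))
    · obtain ⟨x, hx⟩ := hS'.all N
      exact ⟨x, by rw [hx], Or.inl h⟩
    · refine ⟨S'.s w' (S'.e (m' (S.lev z))), ?_, Or.inr le_rfl⟩
      refine le_trans ?_ (S'.cs_ge (by rw [hea, hS'.lev]) h)
      rw [hea, hS'.cz]
      exact le_min hcw le_top
  obtain ⟨z', h1, h2, h3, ⟨h4, h5⟩, -⟩ := S'.ext (m' (S.lev z)) w' q y' ∅ Set.finite_empty
    (by rw [hla]; exact hlw) hq2 (le_trans (by exact_mod_cast hN) hq1) hy hhw (by simp)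
  refine ⟨z', by rw [hla] at h2; exact h2, ?_, h1, h3⟩
  change tr N (S'.cz z') = ⊤
  rw [tr_eq_top]
  by_cases h6 : S'.cz z' = ⊤
  · rw [h6]; exact le_top
  · have h7 := S'.s_d z' (m' (S.lev z)) h2 h6 (hS'.cz _)
    rw [S'.s_comm _ _ h2 h4.symm, h5] at h7
    rw [← S'.c_d z' h6, ← h7]
    exact hq1

theorem hiLevels [Countable Z] [Countable Z'] (hS : TopSys S m) (hS' : TopSys S' m') (N : ℕ)
    (hN : 1 ≤ N) :
    Nonempty ({z : Z // ¬ ((S.trunc N hN).lev z : ℕ∞) < (N + 1 : ℕ)} ≃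
      {z : Z' // ¬ ((S'.trunc N hN).lev z : ℕ∞) < (N + 1 : ℕ)}) := by
  have h1 : Infinite {z : Z // ¬ ((S.trunc N hN).lev z : ℕ∞) < (N + 1 : ℕ)} := by
    refine Infinite.of_injective (fun k : ℕ => ⟨m (N + 1 + k), ?_⟩) ?_
    · change ¬ (S.lev (m (N + 1 + k)) : ℕ∞) < _
      rw [hS.lev, Nat.cast_lt]
      omega
    · intro i j h
      have h2 := congrArg (fun z => S.lev z.1) h
      simp only [hS.lev] at h2
      omega
  have h2 : Infinite {z : Z' // ¬ ((S'.trunc N hN).lev z : ℕ∞) < (N + 1 : ℕ)} := by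
    refine Infinite.of_injective (fun k : ℕ => ⟨m' (N + 1 + k), ?_⟩) ?_
    · change ¬ (S'.lev (m' (N + 1 + k)) : ℕ∞) < _
      rw [hS'.lev, Nat.cast_lt]
      omega
    · intro i j h
      have h2 := congrArg (fun z => S'.lev z.1) h
      simp only [hS'.lev] at h2
      omega
  exact nonempty_equiv_of_countable

/-- Extension of finite partial maps to bijections preserving the first `N` symbols. -/
theorem ext_trunc [Countable H] [Countable Z] [Countable H'] [Countable Z'] (hS : TopSys S m)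
    (hS' : TopSys S' m') {N : ℕ} (hN : 1 ≤ N) {W W' : Type} (w : W ≃ W')
    {A : Set (H × H')} {B : Set (Z × Z')}
    (hA : AG (fun x => tr N (S.c x)) (fun x => tr N (S'.c x)) A) (hAf : A.Finite)
    (hB : BG (S.trunc N hN) (S'.trunc N hN) A B) (hBf : B.Finite) :
    ∃ F : H ⊕ Z ⊕ W ≃ H' ⊕ Z' ⊕ W', IsoN (str S W) (str S' W') N F ∧
      (∀ x x', (x, x') ∈ A → F (.inl x) = .inl x') ∧
      (∀ z z', (z, z') ∈ B → S.lev z ≤ N → F (.inr (.inl z)) = .inr (.inl z')) := by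
  obtain ⟨f, g, hi, hf, hg⟩ := exists_iso (S.trunc N hN) (S'.trunc N hN)
    (matchTr hS hS' hN) (fun x x' h => h) (L := (N + 1 : ℕ)) (topExtTr hS' hN _ _ _)
    (topExtTr hS hN _ _ _) (hiLevels hS hS' N hN) hA hAf hB hBf
  refine ⟨bij f g w, ?_, ?_, ?_⟩
  · intro n R v hR
    exact hi.rIso_trunc.rel_iff w R v (by exact_mod_cast hR)
  · intro x x' h
    simp [bij, hf x x' h]
  · intro z z' h hz
    have := hg z z' h (by change (S.lev z : ℕ∞) < _; rw [Nat.cast_lt]; omega)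
    simp [bij, this]

/-- Bijections preserving the first `N` symbols and the first `N` top points. -/
def StarIso (S : Sys H Z) (S' : Sys H' Z') (m : ℕ → Z) (m' : ℕ → Z') (W W' : Type) (N : ℕ)
    (F : H ⊕ Z ⊕ W ≃ H' ⊕ Z' ⊕ W') : Prop :=
  IsoN (str S W) (str S' W') N F ∧ ∀ k ≤ N, F (.inr (.inl (m k))) = .inr (.inl (m' k))

theorem StarIso.symm {W W' : Type} {N : ℕ} {F : H ⊕ Z ⊕ W ≃ H' ⊕ Z' ⊕ W'}
    (h : StarIso S S' m m' W W' N F) : StarIso S' S m' m W' W N F.symm :=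
  ⟨h.1.symm, fun k hk => by rw [← h.2 k hk, Equiv.symm_apply_apply]⟩

theorem StarIso.mono {W W' : Type} {N K : ℕ} {F : H ⊕ Z ⊕ W ≃ H' ⊕ Z' ⊕ W'}
    (h : StarIso S S' m m' W W' N F) (hK : K ≤ N) : StarIso S S' m m' W W' K F :=
  ⟨h.1.mono hK, fun k hk => h.2 k (hk.trans hK)⟩

theorem eq_of_le_iff {N : ℕ} {c c' : ℕ∞} (h : ∀ n : ℕ, n ≤ N → ((n : ℕ∞) ≤ c ↔ (n : ℕ∞) ≤ c'))
    (hc : c < N) : c = c' := by
  obtain ⟨n, rfl⟩ := ENat.ne_top_iff_exists.1 (ne_top_of_lt hc)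
  have hn : n < N := by exact_mod_cast hc
  refine le_antisymm ((h n hn.le).1 le_rfl) ?_
  by_contra hlt
  have h1 : ((n + 1 : ℕ) : ℕ∞) ≤ c' := by
    have := not_le.1 hlt
    rw [Nat.cast_add, Nat.cast_one]
    exact Order.add_one_le_of_lt this
  have h2 := (h (n + 1) hn).2 h1
  rw [Nat.cast_le] at h2
  omega

/-- The main transfer: `F` can be replaced on the tuple `a` by maps preserving more symbols. -/
theorem star_upgrade [Countable H] [Countable Z] [Countable H'] [Countable Z'] (hS : TopSys S m)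
    (hS' : TopSys S' m') {N : ℕ} {F : H ⊕ Z ⊕ Empty ≃ H' ⊕ Z' ⊕ Empty}
    (hF : StarIso S S' m m' Empty Empty N F) {κ : ℕ} {a : Fin κ → H ⊕ Z ⊕ Empty}
    (ha : Bd S N a) {K : ℕ} (hK : 1 ≤ K) (hNK : N ≤ K) :
    ∃ F' : H ⊕ Z ⊕ Empty ≃ H' ⊕ Z' ⊕ Empty, IsoN (str S Empty) (str S' Empty) K F' ∧
      F' ∘ a = F ∘ a := by
  obtain ⟨hI, hm⟩ := hF
  -- behaviour of `F` on the two sorts
  have f1 : ∀ x, ∃ x', F (.inl x) = .inl x' := by
    intro x
    obtain ⟨x', h, -⟩ := (rm_U S').1 ((hI _ (Rl.U 0) ![.inl x] (Nat.zero_le _)).1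
      ((rm_U S).2 ⟨x, rfl, by simp⟩))
    exact ⟨x', h⟩
  have f2 : ∀ z, S.lev z ≤ N → ∃ z', F (.inr (.inl z)) = .inr (.inl z') ∧
      S'.lev z' = S.lev z := by
    intro z hz
    obtain ⟨z', h, h1, -⟩ := (rm_P S').1 ((hI _ (Rl.P (S.lev z) 0) ![.inr (.inl z)]
      (by simp [idx, hz])).1 ((rm_P S).2 ⟨z, rfl, rfl, by simp⟩))
    exact ⟨z', h, h1⟩
  have fc : ∀ x x', F (.inl x) = .inl x' → ∀ n : ℕ, n ≤ N →
      ((n : ℕ∞) ≤ S.c x ↔ (n : ℕ∞) ≤ S'.c x') := by
    intro x x' h n hn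
    have h1 := hI _ (Rl.U n) ![.inl x] (by simpa [idx] using hn)
    rw [rm_U, rm_U] at h1
    simp only [Function.comp, Matrix.cons_val_fin_one, h, Sum.inl.injEq, exists_eq_left'] at h1
    exact h1
  have fl : ∀ z z', F (.inr (.inl z)) = .inr (.inl z') → S.lev z ≤ N → S.lev z = S'.lev z' := by
    intro z z' h hz
    obtain ⟨z1, h1, h2⟩ := f2 z hz
    rw [h] at h1
    simp only [Sum.inr.injEq, Sum.inl.injEq] at h1
    rw [h1, h2]
  have fz : ∀ z z', F (.inr (.inl z)) = .inr (.inl z') → S.lev z ≤ N → ∀ n : ℕ, n ≤ N →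
      ((n : ℕ∞) ≤ S.cz z ↔ (n : ℕ∞) ≤ S'.cz z') := by
    intro z z' h hz n hn
    have h1 := hI _ (Rl.P (S.lev z) n) ![.inr (.inl z)] (by simp [idx, hz, hn])
    rw [rm_P, rm_P] at h1
    simp only [Function.comp, Matrix.cons_val_fin_one, h, Sum.inr.injEq, Sum.inl.injEq,
      exists_eq_left', true_and] at h1
    rw [h1, fl z z' h hz]
    simp
  have fo : ∀ x x' y y', F (.inl x) = .inl x' → F (.inl y) = .inl y' → (x < y ↔ x' < y') := by
    intro x x' y y' h h'
    have h1 := hI _ Rl.Lt ![.inl x, .inl y] (Nat.zero_le _)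
    rw [rm_Lt, rm_Lt] at h1
    simp only [Function.comp, Matrix.cons_val_zero, Matrix.cons_val_one, h, h', Sum.inl.injEq,
      exists_and_left, exists_eq_left'] at h1
    exact h1
  have fe : ∀ z z', F (.inr (.inl z)) = .inr (.inl z') → S.lev z ≤ N → S.lev z ≠ 0 →
      F (.inr (.inl (S.e z))) = .inr (.inl (S'.e z')) := by
    intro z z' h hz h0
    obtain ⟨k, hk⟩ : ∃ k, S.lev z = k + 1 := ⟨_, (Nat.succ_pred_eq_of_ne_zero h0).symm⟩
    obtain ⟨z1, w1, h2, h3, h4, h5⟩ := (rm_E S').1 ((hI _ (Rl.E k)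
      ![.inr (.inl z), .inr (.inl (S.e z))] (by simp [idx]; omega)).1
      ((rm_E S).2 ⟨z, _, rfl, rfl, hk, rfl⟩))
    change F (.inr (.inl z)) = _ at h2
    change F (.inr (.inl (S.e z))) = _ at h3
    rw [h] at h2
    simp only [Sum.inr.injEq, Sum.inl.injEq] at h2
    rw [h3, h2, h5]
  have fh : ∀ z z', F (.inr (.inl z)) = .inr (.inl z') → S.lev z ≤ N → S.lev z ≠ 0 →
      F (.inl (S.h z)) = .inl (S'.h z') := by
    intro z z' h hz h0
    obtain ⟨k, hk⟩ : ∃ k, S.lev z = k + 1 := ⟨_, (Nat.succ_pred_eq_of_ne_zero h0).symm⟩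
    obtain ⟨z1, w1, h2, h3, h4, h5⟩ := (rm_G S').1 ((hI _ (Rl.G k)
      ![.inr (.inl z), .inl (S.h z)] (by simp [idx]; omega)).1
      ((rm_G S).2 ⟨z, _, rfl, rfl, hk, rfl⟩))
    change F (.inr (.inl z)) = _ at h2
    change F (.inl (S.h z)) = _ at h3
    rw [h] at h2
    simp only [Sum.inr.injEq, Sum.inl.injEq] at h2
    rw [h3, h2, h5]
  have fs : ∀ z z' w w', F (.inr (.inl z)) = .inr (.inl z') → F (.inr (.inl w)) = .inr (.inl w') →
      S.lev z ≤ N → S.lev z = S.lev w → z ≠ w →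
      F (.inl (S.s z w)) = .inl (S'.s z' w') := by
    intro z z' w w' h h' hz hl hne
    have h0 : S.lev z ≠ 0 := fun h0 => hne (S.root_eq z w h0 (by rw [← hl, h0]))
    obtain ⟨k, hk⟩ : ∃ k, S.lev z = k + 1 := ⟨_, (Nat.succ_pred_eq_of_ne_zero h0).symm⟩
    obtain ⟨z1, w1, x1, h2, h3, h4, h5, h6, h7, h8⟩ := (rm_D S').1 ((hI _ (Rl.D k)
      ![.inr (.inl z), .inr (.inl w), .inl (S.s z w)] (by simp [idx]; omega)).1
      ((rm_D S).2 ⟨z, w, _, rfl, rfl, rfl, hk, by rw [← hl]; exact hk, hne, rfl⟩))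
    change F (.inr (.inl z)) = _ at h2
    change F (.inr (.inl w)) = _ at h3
    change F (.inl (S.s z w)) = _ at h4
    rw [h] at h2
    rw [h'] at h3
    simp only [Sum.inr.injEq, Sum.inl.injEq] at h2 h3
    rw [h4, h2, h3, h8]
  -- facts on the closure
  have cl_lev : ∀ z ∈ cl S a, S.lev z ≤ N := by
    rintro z ⟨i, z0, j, h1, h2, rfl⟩
    have := lev_iter S j z0 h2
    have := ha.l i z0 h1
    omega
  have cl_cz : ∀ z ∈ cl S a, S.cz z = ⊤ ∨ S.cz z < N := by
    rintro z ⟨i, z0, j, h1, h2, rfl⟩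
    exact ha.cz i z0 j h1 h2
  have cl_s : ∀ z ∈ cl S a, ∀ w ∈ cl S a, S.lev z = S.lev w → z ≠ w → S.c (S.s z w) < N := by
    rintro z ⟨i, z0, j, h1, h2, rfl⟩ w ⟨i', w0, j', h1', h2', rfl⟩ h3 h4
    exact ha.s i i' z0 w0 j j' h1 h1' h2 h2' h3 h4
  have cl_e : ∀ z ∈ cl S a, S.lev z ≠ 0 → S.e z ∈ cl S a := by
    rintro z ⟨i, z0, j, h1, h2, rfl⟩ h3
    have := lev_iter S j z0 h2
    exact ⟨i, z0, j + 1, h1, by omega, by rw [Function.iterate_succ_apply']⟩
  let CH : Set H := {x | (∃ i, a i = .inl x) ∨ (∃ z ∈ cl S a, S.lev z ≠ 0 ∧ S.h z = x) ∨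
    (∃ z ∈ cl S a, S.cz z ≠ ⊤ ∧ S.d z = x) ∨
    (∃ z ∈ cl S a, ∃ w ∈ cl S a, S.lev z = S.lev w ∧ z ≠ w ∧ S.s z w = x)}
  have hCHc : ∀ x ∈ CH, S.c x < N ∨ S.c x = 0 := by
    rintro x (⟨i, hi⟩ | ⟨z, hz, h1, rfl⟩ | ⟨z, hz, h1, rfl⟩ | ⟨z, hz, w, hw, h1, h2, rfl⟩)
    · exact Or.inl (ha.u i x hi)
    · exact Or.inr (S.c_h z h1)
    · rw [S.c_d z h1]
      exact Or.inl ((cl_cz z hz).resolve_left h1)
    · exact Or.inl (cl_s z hz w hw h1 h2)
  have hcl := cl_finite S a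
  have hCHf : CH.Finite := by
    have hf1 : {x | ∃ i, a i = .inl x}.Finite := by
      have : {x | ∃ i, a i = .inl x} = ⋃ i : Fin κ, {x | a i = .inl x} := by ext; simp
      rw [this]
      refine Set.finite_iUnion fun i => ?_
      refine Set.Subsingleton.finite ?_
      intro x hx y hy
      simpa using (hx.symm.trans hy : (Sum.inl x : H ⊕ Z ⊕ Empty) = Sum.inl y)
    refine (hf1.union ((hcl.image S.h).union ((hcl.image S.d).union
      ((hcl.prod hcl).image (fun p => S.s p.1 p.2))))).subset ?_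
    rintro x (h | ⟨z, hz, h1, rfl⟩ | ⟨z, hz, h1, rfl⟩ | ⟨z, hz, w, hw, h1, h2, rfl⟩)
    · exact Or.inl h
    · exact Or.inr (Or.inl ⟨z, hz, rfl⟩)
    · exact Or.inr (Or.inr (Or.inl ⟨z, hz, rfl⟩))
    · exact Or.inr (Or.inr (Or.inr ⟨(z, w), ⟨hz, hw⟩, rfl⟩))
  have hczz : ∀ z z', z ∈ cl S a → F (.inr (.inl z)) = .inr (.inl z') → S.cz z = S'.cz z' := by
    intro z z' hz h
    rcases cl_cz z hz with h1 | h1
    · have h2 := hS.uniq z h1
      have h3 := hm (S.lev z) (cl_lev z hz)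
      rw [← h2, h] at h3
      simp only [Sum.inr.injEq, Sum.inl.injEq] at h3
      rw [h1, h3, hS'.cz]
    · exact eq_of_le_iff (fz z z' h (cl_lev z hz)) h1
  obtain ⟨F', h1, h2, h3⟩ := ext_trunc hS hS' hK (Equiv.refl Empty)
    (A := {p | p.1 ∈ CH ∧ F (.inl p.1) = .inl p.2})
    (B := {p | p.1 ∈ cl S a ∧ F (.inr (.inl p.1)) = .inr (.inl p.2)})
    ⟨fun {x x' y y'} h h' => fo x x' y y' h.2 h'.2, fun {x x'} h => by
      have h4 : S.c x = S'.c x' := by
        rcases hCHc x h.1 with h5 | h5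
        · exact eq_of_le_iff (fc x x' h.2) h5
        · by_cases hN : N = 0
          · -- the case of an empty bound
            subst hN
            exfalso
            rcases h.1 with ⟨i, hi⟩ | ⟨z, hz, h6, rfl⟩ | ⟨z, hz, h6, rfl⟩ |
              ⟨z, hz, w, hw, h6, h7, rfl⟩
            · exact absurd (ha.u i x hi) (by simp)
            · exact h6 (Nat.le_zero.1 (cl_lev z hz))
            · exact absurd ((cl_cz z hz).resolve_left h6) (by simp)
            · exact absurd (cl_s z hz w hw h6 h7) (by simp)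
          · exact eq_of_le_iff (fc x x' h.2) (by
              rw [h5]; exact_mod_cast Nat.pos_of_ne_zero hN)
      change tr K (S.c x) = tr K (S'.c x')
      rw [h4]⟩
    ((hCHf.image (fun x => (x, Classical.choose (f1 x)))).subset (by
      rintro ⟨x, x'⟩ ⟨h, h'⟩
      refine ⟨x, h, ?_⟩
      have := (show F (.inl x) = .inl x' from h').symm.trans (Classical.choose_spec (f1 x))
      simp only [Sum.inl.injEq] at this
      change (x, _) = (x, x')
      rw [Prod.mk.injEq]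
      exact ⟨rfl, this.symm⟩))
    { inj := fun {z z' w w'} h h' => by
        constructor
        · rintro rfl
          have := h.2.symm.trans h'.2
          simpa using this
        · rintro rfl
          have := F.injective (h.2.trans h'.2.symm)
          simpa using this
      lev := fun {z z'} h => fl z z' h.2 (cl_lev z h.1)
      cz := fun {z z'} h => by
        change tr K (S.cz z) = tr K (S'.cz z')
        rw [hczz z z' h.1 h.2]
      e := fun {z z'} h h0 => ⟨cl_e z h.1 h0, fe z z' h.2 (cl_lev z h.1) h0⟩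
      h := fun {z z'} h h0 => ⟨Or.inr (Or.inl ⟨z, h.1, h0, rfl⟩), fh z z' h.2 (cl_lev z h.1) h0⟩
      d := fun {z z'} h h0 => by
        have hz : S.cz z ≠ ⊤ := by
          intro h4
          apply h0
          change tr K (S.cz z) = ⊤
          rw [h4]; exact tr_of_le le_top
        have hz' : S'.cz z' ≠ ⊤ := by rw [← hczz z z' h.1 h.2]; exact hz
        refine ⟨Or.inr (Or.inr (Or.inl ⟨z, h.1, hz, rfl⟩)), ?_⟩
        have hl := fl z z' h.2 (cl_lev z h.1)
        have h4 := fs z z' (m (S.lev z)) (m' (S.lev z)) h.2 (hm _ (cl_lev z h.1))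
          (cl_lev z h.1) (hS.lev _).symm (by
            intro h5
            rw [h5] at hz
            exact hz (hS.cz _))
        rw [S.s_d z _ (hS.lev _).symm hz (hS.cz _),
          S'.s_d z' _ (by rw [hS'.lev, ← hl]) hz' (hS'.cz _)] at h4
        exact h4
      s := fun {z z' w w'} h h' hl hne =>
        ⟨Or.inr (Or.inr (Or.inr ⟨z, h.1, w, h'.1, hl, hne, rfl⟩)),
          fs z z' w w' h.2 h'.2 (cl_lev z h.1) hl hne⟩ }
    ((hcl.image (fun z => (z, (F (.inr (.inl z))).elim (fun _ => Classical.choice ⟨m' 0⟩)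
        (fun r => r.elim id (fun _ => m' 0))))).subset (by
      rintro ⟨z, z'⟩ ⟨h, h'⟩
      refine ⟨z, h, ?_⟩
      simp only at h'
      simp only [h', Sum.elim_inr, Sum.elim_inl, id]))
  refine ⟨F', h1, ?_⟩
  ext i
  simp only [Function.comp]
  rcases hi : a i with x | z | w
  · obtain ⟨x', hx'⟩ := f1 x
    rw [h2 x x' ⟨Or.inl ⟨i, hi⟩, hx'⟩, hx']
  · obtain ⟨z', hz', -⟩ := f2 z (ha.l i z hi)
    rw [h3 z z' ⟨⟨i, z, 0, hi, Nat.zero_le _, rfl⟩, hz'⟩ ((ha.l i z hi).trans hNK), hz']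
  · exact w.elim

/-- Realization of complete types is preserved. -/
theorem conj_pres {ι : Type} (T : ι → Sys H Z) (mm : ι → ℕ → Z) [Countable H] [Countable Z]
    (hT : ∀ i, TopSys (T i) (mm i)) {κ : ℕ} (p : Set (Lg.BoundedFormula Empty κ))
    (hp : ∀ φ, φ ∈ p ∨ BoundedFormula.not φ ∈ p) :
    ∃ N : ℕ, ∀ (i j : ι) (F : H ⊕ Z ⊕ Empty ≃ H ⊕ Z ⊕ Empty),
      StarIso (T i) (T j) (mm i) (mm j) Empty Empty N F → ∀ a : Fin κ → H ⊕ Z ⊕ Empty,
      ((∀ φ ∈ p, @BoundedFormula.Realize Lg _ (str (T i) Empty) Empty κ φ Empty.elim a) ↔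
        (∀ φ ∈ p, @BoundedFormula.Realize Lg _ (str (T j) Empty) Empty κ φ Empty.elim (F ∘ a))) := by
  suffices h : ∃ N : ℕ, ∀ (i j : ι) (F : H ⊕ Z ⊕ Empty ≃ H ⊕ Z ⊕ Empty),
      StarIso (T i) (T j) (mm i) (mm j) Empty Empty N F → ∀ a : Fin κ → H ⊕ Z ⊕ Empty,
      ((∀ φ ∈ p, @BoundedFormula.Realize Lg _ (str (T i) Empty) Empty κ φ Empty.elim a) →
        (∀ φ ∈ p, @BoundedFormula.Realize Lg _ (str (T j) Empty) Empty κ φ Empty.elim
          (F ∘ a))) by
    obtain ⟨N, hN⟩ := h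
    refine ⟨N, fun i j F hF a => ⟨hN i j F hF a, fun h => ?_⟩⟩
    have := hN j i F.symm hF.symm (F ∘ a) h
    have e : F.symm ∘ (F ∘ a) = a := by ext i; simp
    rwa [e] at this
  by_cases hex : ∃ (i : ι) (a : Fin κ → H ⊕ Z ⊕ Empty),
      ∀ φ ∈ p, @BoundedFormula.Realize Lg _ (str (T i) Empty) Empty κ φ Empty.elim a
  · obtain ⟨i₀, a₀, h₀⟩ := hex
    obtain ⟨N, hN⟩ := exists_Bd (T i₀) (hT i₀).fin a₀
    refine ⟨N, ?_⟩
    intro i j F hF a ha φ hφ
    have hsame : SameTp (str (T i₀) Empty) (str (T i) Empty) a₀ a := by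
      intro ψ
      rcases hp ψ with h | h
      · exact ⟨fun _ => ha ψ h, fun _ => h₀ ψ h⟩
      · have h1 : ¬ @BoundedFormula.Realize Lg _ (str (T i) Empty) Empty κ ψ Empty.elim a := ha _ h
        have h2 : ¬ @BoundedFormula.Realize Lg _ (str (T i₀) Empty) Empty κ ψ Empty.elim a₀ :=
          h₀ _ h
        exact ⟨fun h3 => absurd h3 h2, fun h3 => absurd h3 h1⟩
    have hb := hN.transfer (T i₀) (T i) hsame
    obtain ⟨Nφ, hNφ⟩ := fo_pres φ
    obtain ⟨F', h1, h2⟩ := star_upgrade (hT i) (hT j) hF hb (K := max (max N Nφ) 1)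
      (le_max_right _ _) ((le_max_left _ _).trans (le_max_left _ _))
    have h3 := hNφ _ _ _ _ F' (h1.mono ((le_max_right _ _).trans (le_max_left _ _))) Empty.elim a
    rw [← h2]
    have e : F' ∘ (Empty.elim : Empty → H ⊕ Z ⊕ Empty) = Empty.elim := by ext x; exact x.elim
    rw [e] at h3
    exact h3.1 (ha φ hφ)
  · refine ⟨0, fun i j F hF a ha => absurd ⟨i, a, ha⟩ hex⟩

/-- There are maps preserving the first `N` symbols and top points. -/
theorem exists_star [Countable H] [Countable Z] [Countable H'] [Countable Z'] (hS : TopSys S m)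
    (hS' : TopSys S' m') (N : ℕ) :
    ∃ F : H ⊕ Z ⊕ Empty ≃ H' ⊕ Z' ⊕ Empty, StarIso S S' m m' Empty Empty N F := by
  have mono1 : ∀ {S : Sys H Z} {m : ℕ → Z}, TopSys S m → ∀ i j, i ≠ 0 → i < j →
      S.h (m i) < S.h (m j) := by
    intro S m hS i j hi hij
    induction j, hij using Nat.le_induction with
    | base =>
      have := S.h_e (m (i + 1)) (by rw [hS.lev]; omega) (by rw [hS.e, hS.lev]; exact hi)
      rwa [hS.e] at this
    | succ j hj ih =>
      refine ih.trans ?_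
      have := S.h_e (m (j + 1)) (by rw [hS.lev]; omega) (by rw [hS.e, hS.lev]; omega)
      rwa [hS.e] at this
  have mono2 : ∀ {S : Sys H' Z'} {m : ℕ → Z'}, TopSys S m → ∀ i j, i ≠ 0 → i < j →
      S.h (m i) < S.h (m j) := by
    intro S m hS i j hi hij
    induction j, hij using Nat.le_induction with
    | base =>
      have := S.h_e (m (i + 1)) (by rw [hS.lev]; omega) (by rw [hS.e, hS.lev]; exact hi)
      rwa [hS.e] at this
    | succ j hj ih =>
      refine ih.trans ?_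
      have := S.h_e (m (j + 1)) (by rw [hS.lev]; omega) (by rw [hS.e, hS.lev]; omega)
      rwa [hS.e] at this
  obtain ⟨F, h1, h2, h3⟩ := ext_trunc hS hS' (N := N + 1) (by omega) (Equiv.refl Empty)
    (A := (fun i => (S.h (m i), S'.h (m' i))) '' {i | i ≠ 0 ∧ i ≤ N})
    (B := (fun i => (m i, m' i)) '' {i | i ≤ N})
    ⟨by
      rintro x x' y y' ⟨i, hi, h⟩ ⟨j, hj, h'⟩
      simp only [Prod.mk.injEq] at h h'
      obtain ⟨rfl, rfl⟩ := h
      obtain ⟨rfl, rfl⟩ := h'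
      rcases lt_trichotomy i j with h4 | rfl | h4
      · exact ⟨fun _ => mono2 hS' i j hi.1 h4, fun _ => mono1 hS i j hi.1 h4⟩
      · simp
      · exact ⟨fun h => absurd (h.trans (mono1 hS j i hj.1 h4)) (lt_irrefl _),
          fun h => absurd (h.trans (mono2 hS' j i hj.1 h4)) (lt_irrefl _)⟩, by
      rintro x x' ⟨i, hi, h⟩
      simp only [Prod.mk.injEq] at h
      obtain ⟨rfl, rfl⟩ := h
      change tr _ (S.c _) = tr _ (S'.c _)
      rw [S.c_h _ (by rw [hS.lev]; exact hi.1), S'.c_h _ (by rw [hS'.lev]; exact hi.1)]⟩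
    (((Set.finite_Iic N).subset (fun i hi => hi.2)).image _)
    { inj := by
        rintro z z' w w' ⟨i, hi, h⟩ ⟨j, hj, h'⟩
        simp only [Prod.mk.injEq] at h h'
        obtain ⟨rfl, rfl⟩ := h
        obtain ⟨rfl, rfl⟩ := h'
        constructor
        · intro h
          have := congrArg S.lev h
          rw [hS.lev, hS.lev] at this
          rw [this]
        · intro h
          have := congrArg S'.lev h
          rw [hS'.lev, hS'.lev] at this
          rw [this]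
      lev := by
        rintro z z' ⟨i, hi, h⟩
        simp only [Prod.mk.injEq] at h
        obtain ⟨rfl, rfl⟩ := h
        change S.lev _ = S'.lev _
        rw [hS.lev, hS'.lev]
      cz := by
        rintro z z' ⟨i, hi, h⟩
        simp only [Prod.mk.injEq] at h
        obtain ⟨rfl, rfl⟩ := h
        change tr _ (S.cz _) = tr _ (S'.cz _)
        rw [hS.cz, hS'.cz]
      e := by
        rintro z z' ⟨i, hi, h⟩ h0
        simp only [Prod.mk.injEq] at h
        obtain ⟨rfl, rfl⟩ := h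
        change S.lev _ ≠ 0 at h0
        rw [hS.lev] at h0
        obtain ⟨k, rfl⟩ : ∃ k, i = k + 1 := ⟨_, (Nat.succ_pred_eq_of_ne_zero h0).symm⟩
        refine ⟨k, ?_, ?_⟩
        · change k ≤ N
          have : k + 1 ≤ N := hi
          omega
        · change (m k, m' k) = (S.e (m (k + 1)), S'.e (m' (k + 1)))
          rw [hS.e, hS'.e]
      h := by
        rintro z z' ⟨i, hi, h⟩ h0
        simp only [Prod.mk.injEq] at h
        obtain ⟨rfl, rfl⟩ := h
        change S.lev _ ≠ 0 at h0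
        rw [hS.lev] at h0
        exact ⟨i, ⟨h0, hi⟩, rfl⟩
      d := by
        rintro z z' ⟨i, hi, h⟩ h0
        simp only [Prod.mk.injEq] at h
        obtain ⟨rfl, rfl⟩ := h
        exfalso
        apply h0
        change tr _ (S.cz _) = ⊤
        rw [hS.cz]; exact tr_of_le le_top
      s := by
        rintro z z' w w' ⟨i, hi, h⟩ ⟨j, hj, h'⟩ hl hne
        simp only [Prod.mk.injEq] at h h'
        obtain ⟨rfl, rfl⟩ := h
        obtain ⟨rfl, rfl⟩ := h'
        exfalso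
        apply hne
        change S.lev _ = S.lev _ at hl
        rw [hS.lev, hS.lev] at hl
        rw [hl] }
    ((Set.finite_Iic N).image _)
  refine ⟨F, h1.mono (Nat.le_succ N), fun k hk => ?_⟩
  exact h3 _ _ ⟨k, hk, rfl⟩ (by rw [hS.lev]; omega)

end Pool.Agent.Y567.MC
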