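import Pool.Agent.Y567.MC.FO

/-!
Bounds which depend only on the type of a tuple.
-/

set_option autoImplicit false

namespace Pool.Agent.Y567.MC

open Set FirstOrder FirstOrder.Language

section par

variable {M : Type}

/-- `z` is the `j`-th predecessor of `x`, and has level `k` -/
def Par (S : Lg.Structure M) : ℕ → ℕ → M → M → Prop
  | 0, _, x, z => x = z
  | j + 1, k, x, z => ∃ u, rm S (Rl.E (k + j)) ![x, u] ∧ Par S j k u z

theorem FO.par : ∀ (j k i l : ℕ), FO (fun _ S v => Par S j k (v i) (v l))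
  | 0, _, i, l => FO.eq i l
  | j + 1, k, i, l =>
    FO.ex (P := fun _ S v => rm S (Rl.E (k + j)) ![v (i + 1), v 0] ∧ Par S j k (v 0) (v (l + 1)))
      ((FO.rel2 _ _ _).and (FO.par j k _ _))

end par

variable {H Z : Type} [LinearOrder H] (S : Sys H Z) {W : Type}

@[simp] theorem rm_U {n : ℕ} {v : Fin 1 → H ⊕ Z ⊕ W} :
    rm (str S W) (Rl.U n) v ↔ ∃ x, v 0 = .inl x ∧ (n : ℕ∞) ≤ S.c x := Iff.rfl

@[simp] theorem rm_P {k n : ℕ} {v : Fin 1 → H ⊕ Z ⊕ W} :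
    rm (str S W) (Rl.P k n) v ↔ ∃ z, v 0 = .inr (.inl z) ∧ S.lev z = k ∧ (n : ℕ∞) ≤ S.cz z :=
  Iff.rfl

@[simp] theorem rm_Lt {v : Fin 2 → H ⊕ Z ⊕ W} :
    rm (str S W) Rl.Lt v ↔ ∃ x y, v 0 = .inl x ∧ v 1 = .inl y ∧ x < y := Iff.rfl

@[simp] theorem rm_E {k : ℕ} {v : Fin 2 → H ⊕ Z ⊕ W} :
    rm (str S W) (Rl.E k) v ↔
      ∃ z w, v 0 = .inr (.inl z) ∧ v 1 = .inr (.inl w) ∧ S.lev z = k + 1 ∧ S.e z = w := Iff.rfl

@[simp] theorem rm_G {k : ℕ} {v : Fin 2 → H ⊕ Z ⊕ W} :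
    rm (str S W) (Rl.G k) v ↔
      ∃ z y, v 0 = .inr (.inl z) ∧ v 1 = .inl y ∧ S.lev z = k + 1 ∧ S.h z = y := Iff.rfl

@[simp] theorem rm_D {k : ℕ} {v : Fin 3 → H ⊕ Z ⊕ W} :
    rm (str S W) (Rl.D k) v ↔ ∃ z w x, v 0 = .inr (.inl z) ∧ v 1 = .inr (.inl w) ∧ v 2 = .inl x ∧
      S.lev z = k + 1 ∧ S.lev w = k + 1 ∧ z ≠ w ∧ S.s z w = x := Iff.rfl

theorem lev_iter : ∀ (j : ℕ) (z : Z), j ≤ S.lev z → S.lev (S.e^[j] z) + j = S.lev z
  | 0, z, _ => rfl
  | j + 1, z, h => by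
    rw [Function.iterate_succ_apply]
    have h1 := S.lev_e z (by omega)
    have h2 := lev_iter j (S.e z) (by omega)
    omega

theorem par_iff : ∀ (j k : ℕ) (z : Z) (y : H ⊕ Z ⊕ W), S.lev z = k + j →
    (Par (str S W) j k (.inr (.inl z)) y ↔ y = .inr (.inl (S.e^[j] z)))
  | 0, k, z, y, _ => by
    simp only [Par, Function.iterate_zero, id]
    exact eq_comm
  | j + 1, k, z, y, h => by
    have h1 := S.lev_e z (by omega)
    have h2 := par_iff j k (S.e z) y (by omega)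
    rw [Function.iterate_succ_apply, ← h2]
    simp only [Par]
    constructor
    · rintro ⟨u, h3, h4⟩
      obtain ⟨z1, w1, h5, h6, h7, h8⟩ := (rm_E S).1 h3
      simp only [Matrix.cons_val_zero, Matrix.cons_val_one, Sum.inr.injEq, Sum.inl.injEq] at h5 h6
      subst h5
      rw [h6, ← h8] at h4
      exact h4
    · intro h3
      exact ⟨_, (rm_E S).2 ⟨z, S.e z, rfl, rfl, by omega, rfl⟩, h3⟩

/-- All colours and levels generated by the tuple `a` are bounded by `N`. -/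
structure Bd {κ : ℕ} (N : ℕ) (a : Fin κ → H ⊕ Z ⊕ W) : Prop where
  u : ∀ i x, a i = .inl x → S.c x < N
  l : ∀ i z, a i = .inr (.inl z) → S.lev z ≤ N
  cz : ∀ i z j, a i = .inr (.inl z) → j ≤ S.lev z → S.cz (S.e^[j] z) = ⊤ ∨ S.cz (S.e^[j] z) < N
  s : ∀ i i' z z' j j', a i = .inr (.inl z) → a i' = .inr (.inl z') → j ≤ S.lev z →
    j' ≤ S.lev z' → S.lev (S.e^[j] z) = S.lev (S.e^[j'] z') → S.e^[j] z ≠ S.e^[j'] z' →
    S.c (S.s (S.e^[j] z) (S.e^[j'] z')) < N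

variable {H' Z' : Type} [LinearOrder H'] (S' : Sys H' Z')

/-- equality of first-order types -/
def SameTp {M M' : Type} (T : Lg.Structure M) (T' : Lg.Structure M') {κ : ℕ} (a : Fin κ → M)
    (a' : Fin κ → M') : Prop :=
  ∀ φ : Lg.BoundedFormula Empty κ, @BoundedFormula.Realize Lg M T Empty κ φ Empty.elim a ↔
    @BoundedFormula.Realize Lg M' T' Empty κ φ Empty.elim a'

theorem SameTp.fo {M M' : Type} {T : Lg.Structure M} {T' : Lg.Structure M'} {κ : ℕ}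
    {a : Fin κ → M} {a' : Fin κ → M'} (h : SameTp T T' a a')
    {Q : ∀ M : Type, Lg.Structure M → M → M → Prop}
    (hQ : ∀ i j, FO (fun M S v => Q M S (v i) (v j))) (i j : Fin κ) :
    Q M T (a i) (a j) ↔ Q M' T' (a' i) (a' j) := by
  have hk : 0 < κ := i.pos
  have := (hQ i j).type_eq hk T T' a a' h
  simpa using this

theorem Bd.transfer {κ : ℕ} {N : ℕ} {a : Fin κ → H ⊕ Z ⊕ W} {W' : Type}
    {a' : Fin κ → H' ⊕ Z' ⊕ W'} (hb : Bd S N a) (h : SameTp (str S W) (str S' W') a a') :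
    Bd S' N a' := by
  have hU : ∀ n i, rm (str S W) (Rl.U n) ![a i] ↔ rm (str S' W') (Rl.U n) ![a' i] := fun n i =>
    h.fo (Q := fun _ S x _ => rm S (Rl.U n) ![x]) (fun i _ => FO.rel1 _ i) i i
  have hP : ∀ k n i, rm (str S W) (Rl.P k n) ![a i] ↔ rm (str S' W') (Rl.P k n) ![a' i] :=
    fun k n i => h.fo (Q := fun _ S x _ => rm S (Rl.P k n) ![x]) (fun i _ => FO.rel1 _ i) i i
  have hPar : ∀ j k n i, (∃ u, Par (str S W) j k (a i) u ∧ rm (str S W) (Rl.P k n) ![u]) ↔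
      (∃ u, Par (str S' W') j k (a' i) u ∧ rm (str S' W') (Rl.P k n) ![u]) := fun j k n i =>
    h.fo (Q := fun _ S x _ => ∃ u, Par S j k x u ∧ rm S (Rl.P k n) ![u]) (fun i _ =>
      FO.ex (P := fun M S v => Par S j k (v (i + 1)) (v 0) ∧ rm S (Rl.P k n) ![v 0])
        ((FO.par _ _ _ _).and (FO.rel1 _ _))) i i
  have hD : ∀ j j' k n i i', (∃ u u' y, Par (str S W) j (k + 1) (a i) u ∧
        Par (str S W) j' (k + 1) (a i') u' ∧ rm (str S W) (Rl.D k) ![u, u', y] ∧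
        rm (str S W) (Rl.U n) ![y]) ↔
      (∃ u u' y, Par (str S' W') j (k + 1) (a' i) u ∧
        Par (str S' W') j' (k + 1) (a' i') u' ∧ rm (str S' W') (Rl.D k) ![u, u', y] ∧
        rm (str S' W') (Rl.U n) ![y]) := fun j j' k n i i' =>
    h.fo (Q := fun _ S x x' => ∃ u u' y, Par S j (k + 1) x u ∧ Par S j' (k + 1) x' u' ∧
      rm S (Rl.D k) ![u, u', y] ∧ rm S (Rl.U n) ![y]) (fun i i' =>
      FO.ex (FO.ex (FO.ex (P := fun M S v => Par S j (k + 1) (v (i + 3)) (v 2) ∧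
        Par S j' (k + 1) (v (i' + 3)) (v 1) ∧ rm S (Rl.D k) ![v 2, v 1, v 0] ∧
          rm S (Rl.U n) ![v 0])
        ((FO.par _ _ _ _).and ((FO.par _ _ _ _).and ((FO.rel3 _ _ _ _).and (FO.rel1 _ _))))))) i i'
  -- points of the second tuple come from points of the first
  have hpt : ∀ i z', a' i = .inr (.inl z') → ∃ z, a i = .inr (.inl z) ∧ S.lev z = S'.lev z' := by
    intro i z' hi
    obtain ⟨z, h1, h2, -⟩ := (rm_P S).1 ((hP (S'.lev z') 0 i).2
      ((rm_P S').2 ⟨z', by simpa using hi, rfl, by simp⟩))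
    exact ⟨z, by simpa using h1, h2⟩
  have hcz : ∀ i z z' j, a i = .inr (.inl z) → a' i = .inr (.inl z') → S.lev z = S'.lev z' →
      j ≤ S.lev z → S.cz (S.e^[j] z) = S'.cz (S'.e^[j] z') := by
    intro i z z' j h1 h2 h3 h4
    have h5 := lev_iter S j z h4
    have h6 := lev_iter S' j z' (by omega)
    refine ENat.eq_of_forall_natCast_le_iff fun n => ?_
    have h7 := hPar j (S.lev z - j) n i
    have e1 : (∃ u, Par (str S W) j (S.lev z - j) (a i) u ∧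
        rm (str S W) (Rl.P (S.lev z - j) n) ![u]) ↔ (n : ℕ∞) ≤ S.cz (S.e^[j] z) := by
      rw [h1]
      constructor
      · rintro ⟨u, hu, hu'⟩
        rw [par_iff S j _ z u (by omega)] at hu
        subst hu
        obtain ⟨z1, h8, -, h9⟩ := (rm_P S).1 hu'
        simp only [Matrix.cons_val_fin_one, Sum.inr.injEq, Sum.inl.injEq] at h8
        rw [h8]; exact h9
      · intro hn
        exact ⟨_, (par_iff S j _ z _ (by omega)).2 rfl, (rm_P S).2 ⟨_, rfl, by omega, hn⟩⟩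
    have e2 : (∃ u, Par (str S' W') j (S.lev z - j) (a' i) u ∧
        rm (str S' W') (Rl.P (S.lev z - j) n) ![u]) ↔ (n : ℕ∞) ≤ S'.cz (S'.e^[j] z') := by
      rw [h2]
      constructor
      · rintro ⟨u, hu, hu'⟩
        rw [par_iff S' j _ z' u (by omega)] at hu
        subst hu
        obtain ⟨z1, h8, -, h9⟩ := (rm_P S').1 hu'
        simp only [Matrix.cons_val_fin_one, Sum.inr.injEq, Sum.inl.injEq] at h8
        rw [h8]; exact h9
      · intro hn
        exact ⟨_, (par_iff S' j _ z' _ (by omega)).2 rfl, (rm_P S').2 ⟨_, rfl, by omega, hn⟩⟩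
    rw [← e1, h7, e2]
  refine ⟨?_, ?_, ?_, ?_⟩
  · intro i x' hi
    obtain ⟨x, h1, -⟩ := (rm_U S).1 ((hU 0 i).2 ((rm_U S').2 ⟨x', by simpa using hi, by simp⟩))
    by_contra hn
    obtain ⟨y, h2, h3⟩ := (rm_U S).1 ((hU N i).2
      ((rm_U S').2 ⟨x', by simpa using hi, not_lt.1 hn⟩))
    exact absurd (hb.u i y (by simpa using h2)) (not_lt.2 h3)
  · intro i z' hi
    obtain ⟨z, h1, h2⟩ := hpt i z' hi
    rw [← h2]; exact hb.l i z h1
  · intro i z' j hi hj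
    obtain ⟨z, h1, h2⟩ := hpt i z' hi
    rw [← hcz i z z' j h1 hi h2 (by omega)]
    exact hb.cz i z j h1 (by omega)
  · intro i i' z z' j j' hi hi' hj hj' hl hne
    obtain ⟨z1, h1, h2⟩ := hpt i z hi
    obtain ⟨z1', h1', h2'⟩ := hpt i' z' hi'
    have g1 := lev_iter S' j z hj
    have g2 := lev_iter S' j' z' hj'
    have g3 := lev_iter S j z1 (by omega)
    have g4 := lev_iter S j' z1' (by omega)
    have hk : S'.lev (S'.e^[j] z) ≠ 0 := by
      intro h0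
      exact hne (S'.root_eq _ _ h0 (by omega))
    obtain ⟨k, hk'⟩ : ∃ k, S'.lev (S'.e^[j] z) = k + 1 := ⟨_, (Nat.succ_pred_eq_of_ne_zero hk).symm⟩
    have hmain : ∀ n : ℕ, (n : ℕ∞) ≤ S'.c (S'.s (S'.e^[j] z) (S'.e^[j'] z')) →
        S.e^[j] z1 ≠ S.e^[j'] z1' ∧ (n : ℕ∞) ≤ S.c (S.s (S.e^[j] z1) (S.e^[j'] z1')) := by
      intro n hn
      obtain ⟨u, u', y, q1, q2, q3, q4⟩ := (hD j j' k n i i').2
        ⟨.inr (.inl (S'.e^[j] z)), .inr (.inl (S'.e^[j'] z')),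
          .inl (S'.s (S'.e^[j] z) (S'.e^[j'] z')),
          by rw [hi]; exact (par_iff S' j _ z _ (by omega)).2 rfl,
          by rw [hi']; exact (par_iff S' j' _ z' _ (by omega)).2 rfl,
          (rm_D S').2 ⟨_, _, _, rfl, rfl, rfl, hk', by omega, hne, rfl⟩,
          (rm_U S').2 ⟨_, rfl, hn⟩⟩
      rw [h1] at q1
      rw [h1'] at q2
      rw [par_iff S j _ z1 u (by omega)] at q1
      rw [par_iff S j' _ z1' u' (by omega)] at q2
      subst q1 q2
      obtain ⟨w1, w2, x, r1, r2, r3, r4, r5, r6, r7⟩ := (rm_D S).1 q3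
      obtain ⟨x', r8, r9⟩ := (rm_U S).1 q4
      simp only [Matrix.cons_val_zero, Matrix.cons_val_one, Matrix.cons_val_two,
        Matrix.cons_val_fin_one, Sum.inr.injEq, Sum.inl.injEq] at r1 r2 r3 r8
      change y = Sum.inl x at r3
      rw [r3, Sum.inl.injEq] at r8
      rw [r1, r2]
      exact ⟨r6, by rw [r7, r8]; exact r9⟩
    by_contra hn
    obtain ⟨q1, q2⟩ := hmain N (not_lt.1 hn)
    refine absurd (hb.s i i' z1 z1' j j' h1 h1' (by omega) (by omega) (by omega) q1)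
      (not_lt.2 q2)

/-- the points generated by a tuple -/
def cl {κ : ℕ} (a : Fin κ → H ⊕ Z ⊕ W) : Set Z :=
  {w | ∃ i z j, a i = .inr (.inl z) ∧ j ≤ S.lev z ∧ S.e^[j] z = w}

theorem cl_finite {κ : ℕ} (a : Fin κ → H ⊕ Z ⊕ W) : (cl S a).Finite := by
  have : cl S a = ⋃ i : Fin κ, {w | ∃ z j, a i = .inr (.inl z) ∧ j ≤ S.lev z ∧ S.e^[j] z = w} := by
    ext w; simp [cl]
  rw [this]
  refine Set.finite_iUnion fun i => ?_
  rcases hi : a i with x | z | w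
  · simp
  · refine ((Set.finite_Iic (S.lev z)).image (fun j => S.e^[j] z)).subset ?_
    rintro w ⟨z1, j, h1, h2, h3⟩
    simp only [Sum.inr.injEq, Sum.inl.injEq] at h1
    subst h1
    exact ⟨j, h2, h3⟩
  · simp

theorem exists_bound {C : Set ℕ∞} (hC : C.Finite) : ∃ N : ℕ, ∀ c ∈ C, c = ⊤ ∨ c < N := by
  induction C, hC using Set.Finite.induction_on with
  | empty => exact ⟨0, by simp⟩
  | @insert c C _ _ ih =>
    obtain ⟨N, hN⟩ := ih
    by_cases hc : c = ⊤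
    · refine ⟨N, ?_⟩
      rintro d (rfl | hd)
      · exact Or.inl hc
      · exact hN d hd
    · obtain ⟨n, rfl⟩ := ENat.ne_top_iff_exists.1 hc
      refine ⟨max N (n + 1), ?_⟩
      rintro d (rfl | hd)
      · refine Or.inr (by exact_mod_cast (by omega : n < max N (n + 1)))
      · rcases hN d hd with h | h
        · exact Or.inl h
        · exact Or.inr (h.trans_le (by exact_mod_cast le_max_left N (n + 1)))

theorem exists_Bd (hfin : ∀ x, S.c x ≠ ⊤) {κ : ℕ} (a : Fin κ → H ⊕ Z ⊕ W) : ∃ N, Bd S N a := by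
  have hcl := cl_finite S a
  have hf1 : {x | ∃ i, a i = .inl x}.Finite := by
    have : {x | ∃ i, a i = .inl x} = ⋃ i : Fin κ, {x | a i = .inl x} := by ext; simp
    rw [this]
    refine Set.finite_iUnion fun i => ?_
    refine Set.Subsingleton.finite ?_
    intro x hx y hy
    simpa using (hx.symm.trans hy : (Sum.inl x : H ⊕ Z ⊕ W) = Sum.inl y)
  obtain ⟨N, hN⟩ := exists_bound (C := (S.c '' {x | ∃ i, a i = .inl x}) ∪ ((S.cz '' cl S a) ∪
    (((fun z => (S.lev z : ℕ∞)) '' cl S a) ∪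
      ((fun p : Z × Z => S.c (S.s p.1 p.2)) '' (cl S a ×ˢ cl S a)))))
    ((hf1.image _).union ((hcl.image _).union ((hcl.image _).union ((hcl.prod hcl).image _))))
  refine ⟨N, ?_, ?_, ?_, ?_⟩
  · intro i x hi
    exact (hN _ (Or.inl ⟨x, ⟨i, hi⟩, rfl⟩)).resolve_left (hfin x)
  · intro i z hi
    have : (S.lev z : ℕ∞) < N :=
      (hN _ (Or.inr (Or.inr (Or.inl ⟨z, ⟨i, z, 0, hi, Nat.zero_le _, rfl⟩, rfl⟩)))).resolve_left
        (ENat.natCast_ne_top _)
    exact (by exact_mod_cast this : S.lev z < N).le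
  · intro i z j hi hj
    exact hN _ (Or.inr (Or.inl ⟨_, ⟨i, z, j, hi, hj, rfl⟩, rfl⟩))
  · intro i i' z z' j j' hi hi' hj hj' _ _
    exact (hN _ (Or.inr (Or.inr (Or.inr ⟨(S.e^[j] z, S.e^[j'] z'),
      ⟨⟨i, z, j, hi, hj, rfl⟩, ⟨i', z', j', hi', hj', rfl⟩⟩, rfl⟩)))).resolve_left (hfin _)

end Pool.Agent.Y567.MC
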